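import Pool.Agent.Lib.MP_0087d5_lcMT.P5

/-!
# Leaf P6 (medium): bad sequences of symbols

Proof. The sequences `s : Fin (5 * n) → ZMod q` correspond to the pairs `(v, z)`, `v : Fin n → ZMod q`, `z : Fin (2 * n) → ZMod q × ZMod q`: `v u = s u`, `z i = (s (n + 2 i), s (n + 2 i + 1))`
(injective: every index below `5 n` is `< n`, or `n + 2 i` or `n + 2 i + 1` with `i < 2 n`), and `wk n (ext s) t u` is the coordinate `u` of the position at time `t` in `hitting`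
(`T = 2 n`). So the number is at most `q ^ n * q ^ (4 n) * (card B / q ^ n + n / q) ^ (2 n) ≤ q ^ (5 n) * (2 n ^ 3 / q) ^ (2 n) = q ^ (3 n) * (2 n ^ 3) ^ (2 n)`
(`card B / q ^ n ≤ n ^ 3 / q`, `n ≤ n ^ 3`; as natural numbers via casts).
-/

set_option autoImplicit false

namespace MTC

open Finset

/-- a finite sequence as a function on the natural numbers -/
def ext {q m : ℕ} (s : Fin m → ZMod q) (j : ℕ) : ZMod q := if h : j < m then s ⟨j, h⟩ else 0

private theorem P6_pos {n q : ℕ} (s : Fin (5 * n) → ZMod q) (t : ℕ) (ht : t ≤ 2 * n) :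
    (fun u : Fin n => ext s (u : ℕ)) + ∑ i : Fin (2 * n),
      (if (i : ℕ) < t then ext s (n + 2 * (i : ℕ) + 1) • gd n (ext s (n + 2 * (i : ℕ))) else 0)
      = fun u : Fin n => wk n (ext s) t (u : ℕ) := by
  funext u
  rw [Pi.add_apply, Finset.sum_apply]
  unfold wk
  congr 1
  have h1 : ∀ i : Fin (2 * n), (if (i : ℕ) < t then
      ext s (n + 2 * (i : ℕ) + 1) • gd n (ext s (n + 2 * (i : ℕ))) else 0) u
      = (fun i : ℕ => if i < t then ext s (n + 2 * i + 1) * ext s (n + 2 * i) ^ (u : ℕ) else 0)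
        (i : ℕ) := by
    intro i
    by_cases h : (i : ℕ) < t
    · simp only [h, if_true, Pi.smul_apply, gd, smul_eq_mul]
    · simp only [h, if_false, Pi.zero_apply]
  rw [Finset.sum_congr rfl (fun i _ => h1 i)]
  rw [Fin.sum_univ_eq_sum_range (fun i : ℕ => if i < t then
    ext s (n + 2 * i + 1) * ext s (n + 2 * i) ^ (u : ℕ) else 0) (2 * n)]
  rw [← Finset.sum_filter]
  refine Finset.sum_congr ?_ (fun _ _ => rfl)
  ext i
  simp only [Finset.mem_filter, Finset.mem_range]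
  omega

private theorem P6_inj {n q : ℕ} (s s' : Fin (5 * n) → ZMod q)
    (h1 : ∀ u : Fin n, ext s (u : ℕ) = ext s' (u : ℕ))
    (h2 : ∀ i : Fin (2 * n), ext s (n + 2 * (i : ℕ)) = ext s' (n + 2 * (i : ℕ)))
    (h3 : ∀ i : Fin (2 * n), ext s (n + 2 * (i : ℕ) + 1) = ext s' (n + 2 * (i : ℕ) + 1)) :
    s = s' := by
  have key : ∀ j : ℕ, j < 5 * n → ext s j = ext s' j := by
    intro j hj
    rcases lt_or_ge j n with h | h
    · exact h1 ⟨j, h⟩
    · rcases Nat.even_or_odd (j - n) with ⟨k, hk⟩ | ⟨k, hk⟩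
      · have e : j = n + 2 * k := by omega
        have := h2 ⟨k, by omega⟩
        rw [e]
        exact this
      · have e : j = n + 2 * k + 1 := by omega
        have := h3 ⟨k, by omega⟩
        rw [e]
        exact this
  funext j
  have := key j.1 j.2
  simpa [ext, j.2] using this

private theorem P6_num {n q : ℕ} (hq : 0 < q) (hn : 1 ≤ n) (b : ℕ) (hB : b ≤ n ^ 3 * q ^ (n - 1)) :
    (q : ℝ) ^ n * (q : ℝ) ^ (2 * (2 * n)) * ((b : ℝ) / (q : ℝ) ^ n + (n : ℝ) / q) ^ (2 * n)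
      ≤ (q : ℝ) ^ (3 * n) * (2 * (n : ℝ) ^ 3) ^ (2 * n) := by
  have hq' : (0 : ℝ) < q := by exact_mod_cast hq
  have hB' : (b : ℝ) ≤ (n : ℝ) ^ 3 * (q : ℝ) ^ (n - 1) := by exact_mod_cast hB
  have hqn : (q : ℝ) ^ n = (q : ℝ) * (q : ℝ) ^ (n - 1) := by
    rw [← pow_succ', Nat.sub_add_cancel hn]
  have h1 : (b : ℝ) / (q : ℝ) ^ n ≤ (n : ℝ) ^ 3 / q := by
    rw [div_le_div_iff₀ (pow_pos hq' n) hq', hqn]
    calc (b : ℝ) * q ≤ (n : ℝ) ^ 3 * (q : ℝ) ^ (n - 1) * q :=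
          mul_le_mul_of_nonneg_right hB' hq'.le
      _ = (n : ℝ) ^ 3 * ((q : ℝ) * (q : ℝ) ^ (n - 1)) := by ring
  have hn' : (1 : ℝ) ≤ n := by exact_mod_cast hn
  have h2 : (n : ℝ) / q ≤ (n : ℝ) ^ 3 / q := by
    refine div_le_div_of_nonneg_right ?_ hq'.le
    calc (n : ℝ) = (n : ℝ) ^ 1 := (pow_one _).symm
      _ ≤ (n : ℝ) ^ 3 := pow_le_pow_right₀ hn' (by norm_num)
  have h3 : (b : ℝ) / (q : ℝ) ^ n + (n : ℝ) / q ≤ (2 * (n : ℝ) ^ 3) / q := by
    calc (b : ℝ) / (q : ℝ) ^ n + (n : ℝ) / q ≤ (n : ℝ) ^ 3 / q + (n : ℝ) ^ 3 / q :=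
          add_le_add h1 h2
      _ = (2 * (n : ℝ) ^ 3) / q := by ring
  have h0 : 0 ≤ (b : ℝ) / (q : ℝ) ^ n + (n : ℝ) / q := by positivity
  have h4 := pow_le_pow_left₀ h0 h3 (2 * n)
  calc (q : ℝ) ^ n * (q : ℝ) ^ (2 * (2 * n)) * ((b : ℝ) / (q : ℝ) ^ n + (n : ℝ) / q) ^ (2 * n)
      ≤ (q : ℝ) ^ n * (q : ℝ) ^ (2 * (2 * n)) * ((2 * (n : ℝ) ^ 3) / q) ^ (2 * n) :=
        mul_le_mul_of_nonneg_left h4 (by positivity)
    _ = (q : ℝ) ^ (3 * n) * (2 * (n : ℝ) ^ 3) ^ (2 * n) := by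
        have e : (q : ℝ) ^ n * (q : ℝ) ^ (2 * (2 * n)) = (q : ℝ) ^ (3 * n) * (q : ℝ) ^ (2 * n) := by
          rw [← pow_add, ← pow_add]
          congr 1
          ring
        rw [e, div_pow]
        field_simp

open Classical in
theorem bad_seq {n q : ℕ} [Fact q.Prime] (hn : 1 ≤ n) (B : Finset (Fin n → ZMod q)) (hB : B.card ≤ n ^ 3 * q ^ (n - 1)) :
    (univ.filter fun s : Fin (5 * n) → ZMod q => ∀ t ≤ 2 * n, (fun u : Fin n => wk n (ext s) t (u : ℕ)) ∈ B).card ≤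
      q ^ (3 * n) * (2 * n ^ 3) ^ (2 * n) := by
  have hq : 0 < q := (Fact.out : q.Prime).pos
  have hh := hitting (n := n) (q := q) (2 * n) B
  have hc : (univ.filter fun s : Fin (5 * n) → ZMod q =>
      ∀ t ≤ 2 * n, (fun u : Fin n => wk n (ext s) t (u : ℕ)) ∈ B).card ≤
      (univ.filter fun z : (Fin n → ZMod q) × (Fin (2 * n) → ZMod q × ZMod q) =>
      ∀ t ≤ 2 * n, z.1 + ∑ i : Fin (2 * n),
        (if (i : ℕ) < t then (z.2 i).2 • gd n (z.2 i).1 else 0) ∈ B).card := by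
    refine Finset.card_le_card_of_injOn (fun s => ((fun u : Fin n => ext s (u : ℕ)),
      (fun i : Fin (2 * n) => (ext s (n + 2 * (i : ℕ)), ext s (n + 2 * (i : ℕ) + 1))))) ?_ ?_
    · intro s hs
      rw [Finset.mem_coe, Finset.mem_filter] at hs ⊢
      refine ⟨Finset.mem_univ _, ?_⟩
      intro t ht
      have := hs.2 t ht
      rw [← P6_pos s t ht] at this
      exact this
    · intro s _ s' _ hss
      have e1 := congrArg Prod.fst hss
      have e2 := congrArg Prod.snd hss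
      refine P6_inj s s' (fun u => congrFun e1 u) (fun i => ?_) (fun i => ?_)
      · exact congrArg Prod.fst (congrFun e2 i)
      · exact congrArg Prod.snd (congrFun e2 i)
  have h5 := P6_num hq hn B.card hB
  have h6 : (((univ.filter fun s : Fin (5 * n) → ZMod q =>
      ∀ t ≤ 2 * n, (fun u : Fin n => wk n (ext s) t (u : ℕ)) ∈ B).card : ℕ) : ℝ) ≤
      (q : ℝ) ^ (3 * n) * (2 * (n : ℝ) ^ 3) ^ (2 * n) :=
    le_trans (le_trans (by exact_mod_cast hc) hh) h5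
  exact_mod_cast h6

end MTC
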