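import Mathlib

/-!
# The folded Reed-Solomon condenser (Guruswami, Umans, Vadhan)

`F` is a finite field with `q` elements, `g` a generator of its multiplicative group, and `Bad` a set of less than
`h ^ m` elements of `F ^ m`. If `(h - 1) m (d - 1) < q`, `h ≤ q` and `d ≤ q - 1`, then there are less than
`q ^ m` polynomials `f` of degree less than `d` over `F` such that `(f (y), f (g y), .., f (g ^ (m - 1) y))` is in
`Bad` for all `y` in `F`.

Proof. There is a polynomial `Q ≠ 0` in `m` variables, of degree less than `h` in each of them, which is zero on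
`Bad`. Then `Q (f (Y), .., f (g ^ (m - 1) Y))` has degree less than `q` and `q` zeros, so it is zero. Let
`α ^ (q - 1) = g` in the algebraic closure. Then `α ^ q = g α`, `f (g ^ i α) = f (α) ^ (q ^ i)`, and `f (α)` is
a zero of the polynomial `Q (Z, Z ^ q, .., Z ^ (q ^ (m - 1)))`, which is nonzero and of degree less than `q ^ m`.
The map `f ↦ f (α)` is injective, because a polynomial with the zero `α` has the `q - 1` zeros `x α`,
`x` in `F`, `x ≠ 0`.
-/

set_option autoImplicit false

namespace MTC

open Finset Polynomial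

/-- the polynomial with the coefficients `c` -/
noncomputable def R1_f {F : Type} [Field F] {d : ℕ} (c : Fin d → F) : F[X] :=
  ∑ i : Fin d, C (c i) * X ^ (i : ℕ)

theorem R1_natDegree {F : Type} [Field F] {d : ℕ} (c : Fin d → F) : (R1_f c).natDegree ≤ d - 1 := by
  unfold R1_f
  refine natDegree_sum_le_of_forall_le _ _ fun i _ => ?_
  refine (natDegree_C_mul_X_pow_le _ _).trans ?_
  have := i.2
  omega

theorem R1_inj {F : Type} [Field F] {d : ℕ} {c c' : Fin d → F} (h : R1_f c = R1_f c') : c = c' := by
  funext j
  have h1 : ∀ c : Fin d → F, (R1_f c).coeff (j : ℕ) = c j := by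
    intro c
    unfold R1_f
    rw [finsetSum_coeff, Finset.sum_eq_single j]
    · simp
    · intro i _ hij
      have h2 : (j : ℕ) ≠ (i : ℕ) := fun h2 => hij (Fin.ext h2.symm)
      simp [coeff_X_pow, h2]
    · simp
  rw [← h1 c, h, h1 c']

theorem R1_eval {F : Type} [Field F] {d : ℕ} (c : Fin d → F) (y : F) :
    (R1_f c).eval y = ∑ i : Fin d, c i * y ^ (i : ℕ) := by
  unfold R1_f
  simp [eval_finsetSum]

/-- a nonzero polynomial which is zero on `Bad` -/
theorem R1_exists {F : Type} [Field F] {m h : ℕ} (Bad : Finset (Fin m → F)) (hB : Bad.card < h ^ m) :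
    ∃ c : (Fin m → Fin h) → F, c ≠ 0 ∧ ∀ z ∈ Bad, ∑ e, c e * ∏ i, z i ^ (e i : ℕ) = 0 := by
  classical
  let φ : ((Fin m → Fin h) → F) →ₗ[F] (Bad → F) :=
    { toFun := fun c z => ∑ e, c e * ∏ i, (z : Fin m → F) i ^ (e i : ℕ)
      map_add' := fun a b => by
        funext z
        simp only [Pi.add_apply, add_mul, Finset.sum_add_distrib]
      map_smul' := fun r a => by
        funext z
        simp only [Pi.smul_apply, smul_eq_mul, RingHom.id_apply, Finset.mul_sum, mul_assoc] }
  have h1 : Module.finrank F (Bad → F) < Module.finrank F ((Fin m → Fin h) → F) := by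
    rw [Module.finrank_fintype_fun_eq_card, Module.finrank_fintype_fun_eq_card]
    simpa using hB
  have h2 := LinearMap.ker_ne_bot_of_finrank_lt (f := φ) h1
  obtain ⟨c, hc, hc0⟩ := (Submodule.ne_bot_iff _).1 h2
  refine ⟨c, hc0, fun z hz => ?_⟩
  have h3 := congrFun (LinearMap.mem_ker.1 hc) ⟨z, hz⟩
  exact h3

/-- Frobenius -/
theorem R1_frob {F : Type} [Field F] [Fintype F] {K : Type} [Field K] [Algebra F K] (f : F[X]) (a : K)
    (i : ℕ) : aeval (a ^ Fintype.card F ^ i) f = (aeval a f) ^ Fintype.card F ^ i := by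
  induction i with
  | zero => simp
  | succ i ih =>
    have h1 : aeval ((a ^ Fintype.card F ^ i) ^ Fintype.card F) f =
        (aeval (a ^ Fintype.card F ^ i) f) ^ Fintype.card F := by
      rw [← Polynomial.expand_aeval, FiniteField.expand_card, map_pow]
    rw [pow_succ, pow_mul, pow_mul, h1, ih]

theorem R1_pow {F : Type} [Field F] [Fintype F] {K : Type} [Field K] [Algebra F K] {g : F} {a : K}
    (ha : a ^ Fintype.card F = algebraMap F K g * a) (i : ℕ) :
    a ^ Fintype.card F ^ i = algebraMap F K g ^ i * a := by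
  induction i with
  | zero => simp
  | succ i ih =>
    rw [pow_succ, pow_mul, ih, mul_pow, ha, ← pow_mul, mul_comm i, pow_mul, ← map_pow, FiniteField.pow_card,
      pow_succ]
    ring

theorem condenser {F : Type} [Field F] [Fintype F] [DecidableEq F] (g : F)
    (hg : ∀ x : F, x ≠ 0 → ∃ i : ℕ, x = g ^ i) (hg0 : g ≠ 0) (m d h : ℕ) (hhq : h ≤ Fintype.card F)
    (Bad : Finset (Fin m → F)) (hB : Bad.card < h ^ m) (hd : (h - 1) * m * (d - 1) < Fintype.card F)
    (hdq : d ≤ Fintype.card F - 1) :
    (Finset.univ.filter fun c : Fin d → F =>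
      ∀ y : F, (fun j : Fin m => ∑ i : Fin d, c i * (g ^ (j : ℕ) * y) ^ (i : ℕ)) ∈ Bad).card <
        Fintype.card F ^ m := by
  classical
  obtain ⟨b, hb0, hb⟩ := R1_exists Bad hB
  have hq1 : 1 < Fintype.card F := Fintype.one_lt_card
  obtain ⟨a, ha⟩ := IsAlgClosed.exists_pow_nat_eq (algebraMap F (AlgebraicClosure F) g)
    (show 0 < Fintype.card F - 1 by omega)
  have hga : algebraMap F (AlgebraicClosure F) g ≠ 0 := by
    simpa using hg0
  have ha0 : a ≠ 0 := by
    intro h0
    rw [h0, zero_pow (by omega)] at ha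
    exact hga ha.symm
  have haq : a ^ Fintype.card F = algebraMap F (AlgebraicClosure F) g * a := by
    rw [← ha, ← pow_succ]
    congr 1
    omega
  -- the digits
  let N : (Fin m → Fin h) → ℕ := fun e =>
    (finFunctionFinEquiv (fun i => Fin.castLE hhq (e i)) : Fin (Fintype.card F ^ m)).val
  have hN : ∀ e, N e = ∑ i : Fin m, (e i : ℕ) * Fintype.card F ^ (i : ℕ) := by
    intro e
    simp only [N, finFunctionFinEquiv_apply, Fin.val_castLE]
  have hNinj : Function.Injective N := by
    intro e e' he
    have h1 := finFunctionFinEquiv.injective (Fin.ext he)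
    funext i
    have h2 := congrFun h1 i
    exact Fin.ext (by simpa using congrArg Fin.val h2)
  have hNlt : ∀ e, N e < Fintype.card F ^ m := fun e => Fin.is_lt _
  let T : (AlgebraicClosure F)[X] :=
    ∑ e, C (algebraMap F (AlgebraicClosure F) (b e)) * X ^ N e
  have hT0 : T ≠ 0 := by
    intro h0
    apply hb0
    funext e
    have h1 := congrArg (fun P => P.coeff (N e)) h0
    simp only [T, finsetSum_coeff, coeff_C_mul, coeff_X_pow, coeff_zero] at h1
    rw [Finset.sum_eq_single e] at h1
    · simpa using h1
    · intro e' _ he'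
      have h2 : N e ≠ N e' := fun h2 => he' (hNinj h2).symm
      simp [h2]
    · simp
  have hTdeg : T.natDegree < Fintype.card F ^ m := by
    have h1 : T.natDegree ≤ Fintype.card F ^ m - 1 := by
      refine natDegree_sum_le_of_forall_le _ _ fun e _ => ?_
      refine (natDegree_C_mul_X_pow_le _ _).trans ?_
      have := hNlt e
      omega
    have h2 : 0 < Fintype.card F ^ m := pow_pos (by omega) _
    omega
  -- the values at `a`
  have hroot : ∀ c : Fin d → F,
      (∀ y : F, (fun j : Fin m => ∑ i : Fin d, c i * (g ^ (j : ℕ) * y) ^ (i : ℕ)) ∈ Bad) →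
        aeval a (R1_f c) ∈ T.roots.toFinset := by
    intro c hc
    rw [Multiset.mem_toFinset, mem_roots hT0, IsRoot.def]
    let R : F[X] := ∑ e : Fin m → Fin h, C (b e) * ∏ i : Fin m, ((R1_f c).comp (C (g ^ (i : ℕ)) * X)) ^ (e i : ℕ)
    have hRdeg : R.natDegree < Fintype.card F := by
      refine lt_of_le_of_lt ?_ hd
      refine natDegree_sum_le_of_forall_le _ _ fun e _ => ?_
      refine (natDegree_C_mul_le _ _).trans ?_
      refine (natDegree_prod_le _ _).trans ?_
      have h1 : ∀ i ∈ (Finset.univ : Finset (Fin m)),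
          (((R1_f c).comp (C (g ^ (i : ℕ)) * X)) ^ (e i : ℕ)).natDegree ≤ (h - 1) * (d - 1) := by
        intro i _
        refine natDegree_pow_le.trans ?_
        have h2 : ((R1_f c).comp (C (g ^ (i : ℕ)) * X)).natDegree ≤ d - 1 := by
          refine natDegree_comp_le.trans ?_
          have h3 : (C (g ^ (i : ℕ)) * X : F[X]).natDegree ≤ 1 := by
            have := natDegree_C_mul_X_pow_le (g ^ (i : ℕ)) 1
            simpa using this
          calc (R1_f c).natDegree * (C (g ^ (i : ℕ)) * X : F[X]).natDegree ≤ (d - 1) * 1 :=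
                Nat.mul_le_mul (R1_natDegree c) h3
            _ = d - 1 := mul_one _
        have h4 : (e i : ℕ) ≤ h - 1 := by
          have := (e i).2
          omega
        exact Nat.mul_le_mul h4 h2
      refine (Finset.sum_le_sum h1).trans ?_
      rw [Finset.sum_const, Finset.card_univ, Fintype.card_fin, smul_eq_mul]
      apply le_of_eq
      ring
    have hR : R = 0 := by
      refine eq_zero_of_natDegree_lt_card_of_eval_eq_zero R Function.injective_id (fun y => ?_) hRdeg
      have h1 := hb _ (hc y)
      simp only [R, eval_finsetSum, eval_mul, eval_C, eval_prod, eval_pow, eval_comp, eval_X, R1_eval, id]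
      exact h1
    have h1 := congrArg (aeval a) hR
    simp only [R, map_sum, map_mul, map_prod, map_pow, aeval_C, aeval_comp, aeval_X, map_zero] at h1
    have h2 : T.eval (aeval a (R1_f c)) = ∑ e : Fin m → Fin h, algebraMap F (AlgebraicClosure F) (b e) *
        ∏ i : Fin m, (aeval (algebraMap F (AlgebraicClosure F) g ^ (i : ℕ) * a) (R1_f c)) ^ (e i : ℕ) := by
      simp only [T, eval_finsetSum, eval_mul, eval_C, eval_pow, eval_X]
      refine Finset.sum_congr rfl fun e _ => ?_
      congr 1
      rw [hN e, ← Finset.prod_pow_eq_pow_sum]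
      refine Finset.prod_congr rfl fun i _ => ?_
      rw [← R1_pow haq, R1_frob, ← pow_mul, mul_comm]
    rw [h2]
    exact h1
  -- injectivity
  have hinj : Function.Injective fun c : Fin d → F => aeval a (R1_f c) := by
    intro c c' hcc
    apply R1_inj
    rw [← sub_eq_zero]
    have h0 : aeval a (R1_f c - R1_f c') = 0 := by
      rw [map_sub, sub_eq_zero]
      exact hcc
    have h1 : ((R1_f c - R1_f c').map (algebraMap F (AlgebraicClosure F))) = 0 := by
      refine eq_zero_of_natDegree_lt_card_of_eval_eq_zero (ι := Fˣ) _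
        (f := fun x : Fˣ => algebraMap F (AlgebraicClosure F) (x : F) * a) ?_ ?_ ?_
      · intro x y hxy
        have h2 := mul_right_cancel₀ ha0 hxy
        exact Units.ext ((algebraMap F (AlgebraicClosure F)).injective h2)
      · intro x
        obtain ⟨i, hi⟩ := hg x x.ne_zero
        rw [hi, map_pow, ← R1_pow haq, eval_map_algebraMap, R1_frob, h0,
          zero_pow (pow_ne_zero _ (by omega))]
      · rw [Fintype.card_units]
        refine lt_of_le_of_lt ((natDegree_map_le).trans (natDegree_sub_le _ _)) ?_
        have h2 := R1_natDegree c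
        have h3 := R1_natDegree c'
        have h4 : max (R1_f c).natDegree (R1_f c').natDegree ≤ d - 1 := max_le h2 h3
        omega
    exact (Polynomial.map_eq_zero_iff (algebraMap F (AlgebraicClosure F)).injective).1 h1
  calc _ = ((Finset.univ.filter fun c : Fin d → F =>
      ∀ y : F, (fun j : Fin m => ∑ i : Fin d, c i * (g ^ (j : ℕ) * y) ^ (i : ℕ)) ∈ Bad).image
        fun c : Fin d → F => aeval a (R1_f c)).card := (Finset.card_image_of_injective _ hinj).symm
    _ ≤ T.roots.toFinset.card := by
        refine Finset.card_le_card fun z hz => ?_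
        obtain ⟨c, hc, rfl⟩ := Finset.mem_image.1 hz
        exact hroot c (Finset.mem_filter.1 hc).2
    _ ≤ T.natDegree := (Multiset.toFinset_card_le _).trans (card_roots' T)
    _ < _ := hTdeg

end MTC
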