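import Mathlib

/-!
# Leaf M1 (medium): a graph with more than `d * N` edges has a nonempty set of vertices inside which all degrees are larger than `d`

Proof. Induction on `card U` for sets `U` of vertices such that the number of edges inside `U` (ordered pairs `(a, b) ∈ U × U` with `H.Adj a b`) is more than `2 * d * card U`:
if some `a ∈ U` has at most `d` neighbours in `U`, remove it: the number of ordered pairs goes down by at most `2 * d`.
-/

set_option autoImplicit false

namespace MTC

open Finset

open Classical in
/-- The induction for `exists_core`. -/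
private theorem M1_aux {V : Type} [Fintype V] (H : SimpleGraph V) (d : ℕ) :
    ∀ (n : ℕ) (U : Finset V), U.card = n →
      2 * d * U.card < ((U ×ˢ U).filter fun q : V × V => H.Adj q.1 q.2).card →
      ∃ U' : Finset V, U'.Nonempty ∧ ∀ a ∈ U', d < (U'.filter fun b => H.Adj a b).card := by
  intro n
  induction n with
  | zero =>
    intro U hU h
    rw [Finset.card_eq_zero] at hU
    subst hU
    simp at h
  | succ n ih =>
    intro U hU h
    by_cases hall : ∀ a ∈ U, d < (U.filter fun b => H.Adj a b).card
    · refine ⟨U, ?_, hall⟩
      rw [← Finset.card_pos, hU]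
      exact Nat.succ_pos n
    · push Not at hall
      obtain ⟨a, ha, hda⟩ := hall
      have hc : (U.erase a).card = n := by
        rw [Finset.card_erase_of_mem ha, hU]
        rfl
      refine ih (U.erase a) hc ?_
      have hsub : ((U ×ˢ U).filter fun q : V × V => H.Adj q.1 q.2) ⊆
          (((U.erase a) ×ˢ (U.erase a)).filter fun q : V × V => H.Adj q.1 q.2) ∪
            (((U.filter fun b => H.Adj a b).image fun b => (a, b)) ∪
              ((U.filter fun b => H.Adj a b).image fun b => (b, a))) := by
        rintro ⟨x, y⟩ hq
        rw [Finset.mem_filter, Finset.mem_product] at hq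
        obtain ⟨⟨hx, hy⟩, hadj⟩ := hq
        dsimp only at hx hy hadj
        rw [Finset.mem_union, Finset.mem_union]
        by_cases hxa : x = a
        · refine Or.inr (Or.inl (Finset.mem_image.2 ⟨y, Finset.mem_filter.2 ⟨hy, ?_⟩, ?_⟩))
          · rw [← hxa]
            exact hadj
          · rw [hxa]
        · by_cases hya : y = a
          · refine Or.inr (Or.inr (Finset.mem_image.2 ⟨x, Finset.mem_filter.2 ⟨hx, ?_⟩, ?_⟩))
            · rw [← hya]
              exact hadj.symm
            · rw [hya]
          · refine Or.inl (Finset.mem_filter.2 ⟨Finset.mem_product.2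
              ⟨Finset.mem_erase.2 ⟨hxa, hx⟩, Finset.mem_erase.2 ⟨hya, hy⟩⟩, hadj⟩)
      have h1 := Finset.card_le_card hsub
      have h2 := Finset.card_union_le
        (((U.erase a) ×ˢ (U.erase a)).filter fun q : V × V => H.Adj q.1 q.2)
        (((U.filter fun b => H.Adj a b).image fun b => (a, b)) ∪
              ((U.filter fun b => H.Adj a b).image fun b => (b, a)))
      have h3 := Finset.card_union_le ((U.filter fun b => H.Adj a b).image fun b => (a, b))
              ((U.filter fun b => H.Adj a b).image fun b => (b, a))
      have h4 : ((U.filter fun b => H.Adj a b).image fun b => (a, b)).card ≤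
          (U.filter fun b => H.Adj a b).card := Finset.card_image_le
      have h5 : ((U.filter fun b => H.Adj a b).image fun b => (b, a)).card ≤
          (U.filter fun b => H.Adj a b).card := Finset.card_image_le
      rw [hU] at h
      rw [hc]
      have h6 : 2 * d * (n + 1) = 2 * d * n + 2 * d := by ring
      omega

open Classical in
theorem exists_core {V : Type} [Fintype V] (H : SimpleGraph V) (d : ℕ)
    (h : 2 * d * Fintype.card V < (univ.filter fun q : V × V => H.Adj q.1 q.2).card) :
    ∃ U : Finset V, U.Nonempty ∧ ∀ a ∈ U, d < (U.filter fun b => H.Adj a b).card := by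
  refine M1_aux H d (univ : Finset V).card univ rfl ?_
  rw [Finset.univ_product_univ, Finset.card_univ]
  exact h

end MTC
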