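import Pool.Agent.Lib.MP_0087d5_lcMT.BDefs

/-!
# Leaf I1 (medium): isolation by a random linear form

Proof. Let `r` be bad, with `f`, `g`. Choose `u` with `f u ≠ g u`, and put `s = f u`, `s' = g u`. For `v : Fin n → ZMod q` and `s : Fin n` let
`a v u s` be the minimum of `∑ v' ≠ u, (v v').val * f v'` over the `f ∈ F` with `f u = s` (`sInf` of a set of natural numbers; it depends only on the coordinates of `v` different
from `u`). Since `sv r f` is the least value on `F`, the part of `sv r f` without `u` is `a r u s`, and the same for `g`. So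
`a r u s + (r u).val * s = a r u s' + (r u).val * s'` with `s ≠ s'`: this determines `(r u).val`, hence `r u`, from the other coordinates of `r` and
`(u, s, s')`. So the map `r ↦ (u, s, s', r restricted to the other coordinates)` is injective on the bad `r`; the number of the possible values is `n * n * n * q ^ (n - 1)`
(e.g. `r` with the coordinate `u` replaced by 0: for each `u` there are `q ^ (n - 1)` such functions; or: for each `(u, s, s')` the set of the bad `r` for it has at most one element on each fibre of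
`r ↦ Function.update r u 0`).
-/

set_option autoImplicit false

namespace MTC

open Finset

theorem isolation {n q : ℕ} [Fact q.Prime] (F : Set (Fin n → Fin n)) :
    Nat.card {r : Fin n → ZMod q // BadR F r} ≤ n ^ 3 * q ^ (n - 1) := by
  classical
  rcases n with _ | m
  · have : IsEmpty {r : Fin 0 → ZMod q // BadR F r} := ⟨fun r => by
      obtain ⟨f, -, g, -, hne, -⟩ := r.2
      exact hne (Subsingleton.elim _ _)⟩
    simp
  have hch : ∀ r : {r : Fin (m + 1) → ZMod q // BadR F r},
      ∃ (u : Fin (m + 1)) (f g : Fin (m + 1) → Fin (m + 1)), f ∈ F ∧ g ∈ F ∧ f u ≠ g u ∧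
        sv r.1 f = sv r.1 g ∧ ∀ h ∈ F, sv r.1 f ≤ sv r.1 h := by
    intro r
    obtain ⟨f, hf, g, hg, hne, heq, hmin⟩ := r.2
    obtain ⟨u, hu⟩ := Function.ne_iff.1 hne
    exact ⟨u, f, g, hf, hg, hu, heq, hmin⟩
  choose u f g hf hg hne heq hmin using hch
  have hsv : ∀ (v : Fin (m + 1)) (r : Fin (m + 1) → ZMod q) (h : Fin (m + 1) → Fin (m + 1)),
      sv r h = (r v).val * (h v : ℕ) + ∑ j, (r (v.succAbove j)).val * (h (v.succAbove j) : ℕ) := by
    intro v r h
    unfold sv
    rw [Fin.sum_univ_succAbove _ v]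
  have hinj : Function.Injective (fun r : {r : Fin (m + 1) → ZMod q // BadR F r} =>
      ((u r, f r (u r), g r (u r)), fun j : Fin m => r.1 ((u r).succAbove j))) := by
    intro r1 r2 h
    have h1 : u r1 = u r2 := congrArg (fun t => t.1.1) h
    have h2 : f r1 (u r1) = f r2 (u r2) := congrArg (fun t => t.1.2.1) h
    have h3 : g r1 (u r1) = g r2 (u r2) := congrArg (fun t => t.1.2.2) h
    have h4 : (fun j : Fin m => r1.1 ((u r1).succAbove j)) = fun j : Fin m => r2.1 ((u r2).succAbove j) :=
      congrArg (fun t => t.2) h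
    rw [← h1] at h2 h3 h4
    have h5 : ∀ (h : Fin (m + 1) → Fin (m + 1)),
        ∑ j, (r1.1 ((u r1).succAbove j)).val * (h ((u r1).succAbove j) : ℕ)
          = ∑ j, (r2.1 ((u r1).succAbove j)).val * (h ((u r1).succAbove j) : ℕ) := by
      intro h
      refine Finset.sum_congr rfl fun j _ => ?_
      rw [show r1.1 ((u r1).succAbove j) = r2.1 ((u r1).succAbove j) from congrFun h4 j]
    have e1 := heq r1
    have e2 := heq r2
    have m1 := hmin r1 (f r2) (hf r2)
    have m2 := hmin r1 (g r2) (hg r2)
    have m3 := hmin r2 (f r1) (hf r1)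
    have m4 := hmin r2 (g r1) (hg r1)
    rw [hsv (u r1) r1.1, hsv (u r1) r1.1, h5, h5] at e1 m1 m2
    rw [hsv (u r1) r2.1, hsv (u r1) r2.1] at e2 m3 m4
    rw [← h2] at e2 m1 m3 m4
    rw [← h3] at e2 m2
    have hne1 : ((f r1 (u r1) : ℕ) : ℤ) - ((g r1 (u r1) : ℕ) : ℤ) ≠ 0 := by
      intro h6
      apply hne r1
      apply Fin.ext
      omega
    have hval : (r1.1 (u r1)).val = (r2.1 (u r1)).val := by
      have h7 : (((r1.1 (u r1)).val : ℤ) - ((r2.1 (u r1)).val : ℤ)) *
          (((f r1 (u r1) : ℕ) : ℤ) - ((g r1 (u r1) : ℕ) : ℤ)) = 0 := by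
        zify at e1 e2 m1 m2 m3 m4
        nlinarith
      rcases mul_eq_zero.1 h7 with h8 | h8
      · omega
      · exact absurd h8 hne1
    apply Subtype.ext
    funext i
    by_cases hi : i = u r1
    · rw [hi]
      exact ZMod.val_injective q hval
    · obtain ⟨j, hj⟩ := Fin.exists_succAbove_eq hi
      rw [← hj]
      exact congrFun h4 j
  refine (Nat.card_le_card_of_injective _ hinj).trans (le_of_eq ?_)
  rw [Nat.card_prod, Nat.card_prod, Nat.card_prod, Nat.card_fun, Nat.card_fin, Nat.card_fin,
    Nat.card_zmod, Nat.add_sub_cancel]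
  ring

end MTC
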