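import Mathlib

/-!
# Block B: definitions (Mathlib only)
-/

set_option autoImplicit false

namespace MTC

open Finset

/-- the linear form of the point `r` at the map `f` -/
def sv {n q : ℕ} (r : Fin n → ZMod q) (f : Fin n → Fin n) : ℕ := ∑ u, (r u).val * (f u : ℕ)

/-- the point `r` is bad for the set `F` of maps: the least value of the form on `F` is attained twice -/
def BadR {n q : ℕ} (F : Set (Fin n → Fin n)) (r : Fin n → ZMod q) : Prop :=
  ∃ f ∈ F, ∃ g ∈ F, f ≠ g ∧ sv r f = sv r g ∧ ∀ h ∈ F, sv r f ≤ sv r h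

/-- the directions of the walk -/
def gd {q : ℕ} (n : ℕ) (a : ZMod q) : Fin n → ZMod q := fun u => a ^ (u : ℕ)

/-- the averaging operator of the walk -/
noncomputable def PP {n q : ℕ} [NeZero q] (h : (Fin n → ZMod q) → ℝ) (v : Fin n → ZMod q) : ℝ :=
  (∑ a : ZMod q, ∑ c : ZMod q, h (v + c • gd n a)) / (q : ℝ) ^ 2

/-- the Fourier transform -/
noncomputable def FT {n q : ℕ} [NeZero q] (h : (Fin n → ZMod q) → ℂ) (l : Fin n → ZMod q) : ℂ :=
  ∑ v, h v * ZMod.stdAddChar (∑ u, l u * v u)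

/-- the walk read off from a sequence of symbols: the coordinate `u < n` of its position at time `t` -/
def wk {q : ℕ} (n : ℕ) (s : ℕ → ZMod q) (t : ℕ) (u : ℕ) : ZMod q :=
  s u + ∑ i ∈ range t, s (n + 2 * i + 1) * s (n + 2 * i) ^ u

end MTC
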