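import Pool.Agent.Lib.MP_0087d5_lcMT.MDefs
import Pool.Agent.Lib.MP_0087d5_lcMT.BDefs

/-!
# Leaf I2 (medium): a good point isolates a perfect matching

Proof. For a perfect matching `f` (an involution) `∑ u, w2 u (f u) = ∑ u, (r u).val * f u + ∑ u, (r (f u)).val * u = 2 * sv r f` (substitute `u = f v` in the second sum). So
`tw (K w1 + w2) f = K * tw w1 f + 2 * sv r f`, and `2 * sv r f ≤ 2 * n ^ 2 * q < K`. The set `M` of the perfect matchings of least `w1`-weight is finite and nonempty; let `f ∈ M` have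
the least `sv r f` in `M`. For `f' ≠ f` another perfect matching: if `f' ∈ M` then `sv r f < sv r f'` (otherwise `r` is bad: `sv r f = sv r f'`); if `f' ∉ M` then
`tw w1 f + 1 ≤ tw w1 f'` and `K * tw w1 f' + .. ≥ K * tw w1 f + K > K * tw w1 f + 2 * sv r f`.
-/

set_option autoImplicit false

namespace MTC

open Finset

private theorem I2_tw {n q : ℕ} (w1 : Fin n → Fin n → ℕ) (K : ℕ) (r : Fin n → ZMod q) {f : Fin n → Fin n}
    (hf : ∀ v, f (f v) = v) :
    tw (fun u v => K * w1 u v + ((r u).val * (v : ℕ) + (r v).val * (u : ℕ))) f = K * tw w1 f + 2 * sv r f := by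
  unfold tw sv
  rw [sum_add_distrib, sum_add_distrib, ← mul_sum]
  have h1 : ∑ u, (r (f u)).val * (u : ℕ) = ∑ u, (r u).val * (f u : ℕ) := by
    have h2 := Equiv.sum_comp (Function.Involutive.toPerm f hf) fun u => (r u).val * (f u : ℕ)
    rw [← h2]
    refine sum_congr rfl fun u _ => ?_
    change (r (f u)).val * (u : ℕ) = (r (f u)).val * (f (f u) : ℕ)
    rw [hf u]
  rw [h1]
  ring

private theorem I2_sv {n q : ℕ} [Fact q.Prime] (r : Fin n → ZMod q) (f : Fin n → Fin n) :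
    2 * sv r f ≤ 2 * n ^ 2 * q := by
  have h1 : sv r f ≤ ∑ _u : Fin n, q * n := by
    unfold sv
    exact sum_le_sum fun u _ => Nat.mul_le_mul (ZMod.val_lt (r u)).le (f u).2.le
  rw [sum_const, card_univ, Fintype.card_fin, smul_eq_mul] at h1
  nlinarith [h1]

theorem iso_of_good {n q : ℕ} [Fact q.Prime] (A : Fin n → Fin n → Prop) (w1 : Fin n → Fin n → ℕ) (K : ℕ) (hK : 2 * n ^ 2 * q < K)
    (r : Fin n → ZMod q) (hM : ∃ f, IsPM A f) (hr : ¬ BadR {f | IsMin A w1 f} r) :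
    ∃ f, IsPM A f ∧ ∀ f', IsPM A f' → f' ≠ f →
      tw (fun u v => K * w1 u v + ((r u).val * (v : ℕ) + (r v).val * (u : ℕ))) f <
        tw (fun u v => K * w1 u v + ((r u).val * (v : ℕ) + (r v).val * (u : ℕ))) f' := by
  obtain ⟨f0, hf0, hmin0⟩ := Set.exists_min_image {f | IsPM A f} (tw w1) (Set.toFinite _) hM
  obtain ⟨f, hf, hmin⟩ := Set.exists_min_image {f | IsMin A w1 f} (sv r) (Set.toFinite _)
    ⟨f0, hf0, fun g hg => hmin0 g hg⟩
  have hf' : IsMin A w1 f := hf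
  refine ⟨f, hf'.1, fun f' hf'1 hne => ?_⟩
  rw [I2_tw w1 K r hf'.1.1, I2_tw w1 K r hf'1.1]
  have h1 := hf'.2 f' hf'1
  by_cases h2 : IsMin A w1 f'
  · have h3 := h2.2 f hf'.1
    have h4 : tw w1 f = tw w1 f' := le_antisymm h1 h3
    have h5 : sv r f ≤ sv r f' := hmin f' h2
    have h6 : sv r f ≠ sv r f' := fun h => hr ⟨f, hf, f', h2, hne.symm, h, hmin⟩
    rw [h4]
    omega
  · have h3 : tw w1 f ≠ tw w1 f' := fun h => h2 ⟨hf'1, fun g hg => h ▸ hf'.2 g hg⟩
    have h4 : tw w1 f + 1 ≤ tw w1 f' := by omega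
    have h5 := I2_sv r f
    have h6 : K * (tw w1 f + 1) ≤ K * tw w1 f' := Nat.mul_le_mul_left K h4
    rw [mul_add, mul_one] at h6
    omega

end MTC
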