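import Mathlib

/-!
# Leaf N1 (easy+): the parameters

Proof. `q`: `Nat.exists_prime_lt_and_le_two_mul (200 * n ^ 11)`. `h = (q - 1) / (5 * n ^ 3) + 1`: `(h - 1) * (5 * n) * (n ^ 2 - 1) ≤ (h - 1) * (5 * n ^ 3) ≤ q - 1`; `h * (5 * n ^ 3) ≥ q`; so
`h ^ 5 * (5 * n ^ 3) ^ 5 ≥ q ^ 5 = q ^ 3 * q ^ 2 > q ^ 3 * (12500 * n ^ 21)` as `q ^ 2 > 40000 * n ^ 22`, and `12500 n ^ 21 = (5 n ^ 3) ^ 5 * (2 n ^ 3) ^ 2`: `h ^ 5 > q ^ 3 * (2 * n ^ 3) ^ 2`; take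
`n`-th powers. `g`: the unit group of `ZMod q` is cyclic (`IsCyclic.exists_generator`, `orderOf_units`, `ZMod.card_units`).
-/

set_option autoImplicit false

namespace MTC

theorem params {n : ℕ} (hn : 2 ≤ n) : ∃ q h : ℕ, q.Prime ∧ q ≤ 400 * n ^ 11 ∧ h ≤ q ∧ (h - 1) * (5 * n) * (n ^ 2 - 1) < q ∧
    n ^ 2 ≤ q - 1 ∧ q ^ (3 * n) * (2 * n ^ 3) ^ (2 * n) < h ^ (5 * n) := by
  have hn1 : 1 ≤ n := by omega
  have hpow : ∀ k : ℕ, 1 ≤ n ^ k := fun k => Nat.one_le_pow _ _ hn1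
  obtain ⟨q, hq, hq1, hq2⟩ := Nat.exists_prime_lt_and_le_two_mul (200 * n ^ 11)
    (by have := hpow 11; omega)
  obtain ⟨D, hD⟩ : ∃ D, D = 5 * n ^ 3 := ⟨_, rfl⟩
  have hD0 : 0 < D := by
    have := hpow 3
    omega
  obtain ⟨m, hm⟩ : ∃ m, m = (q - 1) / D := ⟨_, rfl⟩
  have hq0 : 1 ≤ q := hq.one_lt.le
  have h1 : m * D ≤ q - 1 := by
    rw [hm]
    exact Nat.div_mul_le_self _ _
  have h2 : q ≤ (m + 1) * D := by
    have h3 := Nat.div_add_mod (q - 1) D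
    have h4 := Nat.mod_lt (q - 1) hD0
    rw [← hm] at h3
    have h5 : (m + 1) * D = D * m + D := by ring
    rw [h5]
    omega
  refine ⟨q, m + 1, hq, by omega, ?_, ?_, ?_, ?_⟩
  · have h6 : m ≤ q - 1 := by
      rw [hm]
      exact Nat.div_le_self _ _
    omega
  · rw [Nat.add_sub_cancel]
    have h7 : 5 * n * (n ^ 2 - 1) ≤ D := by
      rw [hD]
      calc 5 * n * (n ^ 2 - 1) ≤ 5 * n * n ^ 2 := Nat.mul_le_mul_left _ (Nat.sub_le _ _)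
        _ = 5 * n ^ 3 := by ring
    calc m * (5 * n) * (n ^ 2 - 1) = m * (5 * n * (n ^ 2 - 1)) := by ring
      _ ≤ m * D := Nat.mul_le_mul_left _ h7
      _ ≤ q - 1 := h1
      _ < q := by omega
  · have h8 : n ^ 2 ≤ n ^ 11 := Nat.pow_le_pow_right hn1 (by norm_num)
    omega
  · have h9 : 12500 * n ^ 21 < q ^ 2 := by
      have h10 : (200 * n ^ 11) ^ 2 < q ^ 2 := Nat.pow_lt_pow_left hq1 (by norm_num)
      have h11 : (200 * n ^ 11) ^ 2 = 40000 * n ^ 22 := by ring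
      have h12 : n ^ 21 ≤ n ^ 22 := Nat.pow_le_pow_right hn1 (by norm_num)
      omega
    have h13 : q ^ 3 * (2 * n ^ 3) ^ 2 < (m + 1) ^ 5 := by
      have h14 : q ^ 3 * (2 * n ^ 3) ^ 2 * D ^ 5 < (m + 1) ^ 5 * D ^ 5 := by
        calc q ^ 3 * (2 * n ^ 3) ^ 2 * D ^ 5 = q ^ 3 * (12500 * n ^ 21) := by
              rw [hD]
              ring
          _ < q ^ 3 * q ^ 2 := Nat.mul_lt_mul_of_pos_left h9 (pow_pos hq.pos 3)
          _ = q ^ 5 := by ring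
          _ ≤ ((m + 1) * D) ^ 5 := Nat.pow_le_pow_left h2 5
          _ = (m + 1) ^ 5 * D ^ 5 := by ring
      exact lt_of_mul_lt_mul_right h14 (Nat.zero_le _)
    have h15 := Nat.pow_lt_pow_left h13 (show n ≠ 0 by omega)
    calc q ^ (3 * n) * (2 * n ^ 3) ^ (2 * n) = (q ^ 3 * (2 * n ^ 3) ^ 2) ^ n := by
          rw [mul_pow (q ^ 3), ← pow_mul q, ← pow_mul (2 * n ^ 3)]
      _ < ((m + 1) ^ 5) ^ n := h15
      _ = (m + 1) ^ (5 * n) := by rw [← pow_mul]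

theorem exists_gen (q : ℕ) [Fact q.Prime] : ∃ g : ZMod q, orderOf g = q - 1 := by
  obtain ⟨u, hu⟩ := IsCyclic.exists_generator (α := (ZMod q)ˣ)
  refine ⟨(u : ZMod q), ?_⟩
  rw [orderOf_units, orderOf_eq_card_of_forall_mem_zpowers hu, Nat.card_eq_fintype_card, ZMod.card_units]

end MTC
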