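import Pool.Agent.Lib.MP_0087d5_lcMT.MDefs

/-!
# Leaf S6 (easy+): the perfect matchings of least weight are determined by their union

Proof. Let `A ≠ ∅` have a perfect matching. `HG A w a b → A a b` (`IsPM A f`, `f a = b`). Every `f` with `IsMin A w f` satisfies `IsPM (HG A w) f`. If
`IsPM (HG A w) g` then `IsPM A g`, so `tw w g` is at least the minimum. So both minima are equal, and the claim follows.
-/

set_option autoImplicit false

namespace MTC

open Finset

variable {V : Type} [Fintype V] [DecidableEq V]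

private theorem S6_exists (A : V → V → Prop) (w : V → V → ℕ) (hM : ∃ f, IsPM A f) : ∃ f, IsMin A w f := by
  classical
  have h1 : ∃ n, ∃ f, IsPM A f ∧ tw w f = n := by
    obtain ⟨f, hf⟩ := hM
    exact ⟨tw w f, f, hf, rfl⟩
  obtain ⟨f, hf, h2⟩ := Nat.find_spec h1
  refine ⟨f, hf, fun g hg => ?_⟩
  rw [h2]
  exact Nat.find_min' h1 ⟨g, hg, rfl⟩

theorem isMin_HG (A : V → V → Prop) (w : V → V → ℕ) (f : V → V) (hM : ∃ f, IsPM A f) : IsMin (HG A w) w f ↔ IsMin A w f := by
  have hA : ∀ g, IsPM (HG A w) g → IsPM A g := by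
    rintro g ⟨h1, h2⟩
    refine ⟨h1, fun v => ?_⟩
    obtain ⟨f', hf', e⟩ := h2 v
    rw [← e]
    exact hf'.1.2 v
  have hB : ∀ g, IsMin A w g → IsPM (HG A w) g := fun g hg => ⟨hg.1.1, fun v => ⟨g, hg, rfl⟩⟩
  constructor
  · rintro ⟨h1, h2⟩
    refine ⟨hA f h1, fun g hg => ?_⟩
    obtain ⟨f', hf'⟩ := S6_exists A w hM
    exact le_trans (h2 f' (hB f' hf')) (hf'.2 g hg)
  · intro h
    exact ⟨hB f h, fun g hg => h.2 g (hA g hg)⟩

end MTC
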