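import Mathlib

/-!
# Leaf X1 (easy+): the number of relations with few pairs

Proof. A relation `R` with at most `M` pairs is the set of the values `≠ none` of a function `Fin M → Option (Fin n × Fin n)` (enumerate its pairs, fill up with `none`). So the number of the relations is at most the number
`(n ^ 2 + 1) ^ M` of these functions (`Fintype.card_le_of_surjective`, or an injection with a choice).
-/

set_option autoImplicit false

namespace MTC

open Finset

open Classical in
theorem card_rel (n M : ℕ) :
    (univ.filter fun R : Fin n → Fin n → Prop => (univ.filter fun q : Fin n × Fin n => R q.1 q.2).card ≤ M).card ≤ (n ^ 2 + 1) ^ M := by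
  have hsub : (univ.filter fun R : Fin n → Fin n → Prop =>
      (univ.filter fun q : Fin n × Fin n => R q.1 q.2).card ≤ M) ⊆
      (univ : Finset (Fin M → Option (Fin n × Fin n))).image
        (fun g : Fin M → Option (Fin n × Fin n) => fun a b => ∃ i, g i = some (a, b)) := by
    intro R hR
    rw [mem_filter] at hR
    obtain ⟨s, hs⟩ : ∃ s : Finset (Fin n × Fin n), s = univ.filter fun q : Fin n × Fin n => R q.1 q.2 := ⟨_, rfl⟩
    have hM : s.card ≤ M := by rw [hs]; exact hR.2
    have hmem : ∀ a b, (a, b) ∈ s ↔ R a b := by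
      intro a b
      rw [hs, mem_filter]
      exact ⟨fun h => h.2, fun h => ⟨mem_univ _, h⟩⟩
    rw [mem_image]
    refine ⟨fun i => if h : i.1 < s.card then some (s.equivFin.symm ⟨i.1, h⟩).1 else none, mem_univ _, ?_⟩
    funext a b
    refine propext ⟨?_, ?_⟩
    · rintro ⟨i, hi⟩
      beta_reduce at hi
      by_cases h : i.1 < s.card
      · rw [dif_pos h] at hi
        have h2 : (s.equivFin.symm ⟨i.1, h⟩).1 = (a, b) := Option.some.inj hi
        have h3 : (s.equivFin.symm ⟨i.1, h⟩).1 ∈ s := (s.equivFin.symm ⟨i.1, h⟩).2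
        rw [h2] at h3
        exact (hmem a b).1 h3
      · rw [dif_neg h] at hi
        exact absurd hi (by simp)
    · intro hab
      have h3 := (hmem a b).2 hab
      refine ⟨⟨(s.equivFin ⟨(a, b), h3⟩).1, lt_of_lt_of_le (s.equivFin ⟨(a, b), h3⟩).2 hM⟩, ?_⟩
      have h4 : (s.equivFin ⟨(a, b), h3⟩).1 < s.card := (s.equivFin ⟨(a, b), h3⟩).2
      show (if h : (s.equivFin ⟨(a, b), h3⟩).1 < s.card then
        some (s.equivFin.symm ⟨(s.equivFin ⟨(a, b), h3⟩).1, h⟩).1 else none) = some (a, b)
      rw [dif_pos h4]
      have h5 : (⟨(s.equivFin ⟨(a, b), h3⟩).1, h4⟩ : Fin s.card) = s.equivFin ⟨(a, b), h3⟩ := rfl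
      rw [h5, Equiv.symm_apply_apply]
  refine le_trans (card_le_card hsub) (le_trans card_image_le ?_)
  rw [card_univ, Fintype.card_fun, Fintype.card_option, Fintype.card_prod, Fintype.card_fin, Fintype.card_fin, pow_two]

end MTC
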