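import Mathlib

/-!
# Perfect matchings in NC for almost all graphs: definitions for the mathematical part
-/

set_option autoImplicit false

namespace MTC

open Finset

section
variable {V : Type} [Fintype V] [DecidableEq V]

/-- `f` is a perfect matching along the edges of `A` (`A` is irreflexive in the applications): an involution. -/
def IsPM (A : V → V → Prop) (f : V → V) : Prop := (∀ v, f (f v) = v) ∧ ∀ v, A v (f v)

/-- twice the weight of the perfect matching `f` -/
def tw (w : V → V → ℕ) (f : V → V) : ℕ := ∑ u, w u (f u)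

/-- `f` is a perfect matching of least weight -/
def IsMin (A : V → V → Prop) (w : V → V → ℕ) (f : V → V) : Prop :=
  IsPM A f ∧ ∀ g, IsPM A g → tw w f ≤ tw w g

/-- the union of the perfect matchings of least weight -/
def HG (A : V → V → Prop) (w : V → V → ℕ) (a b : V) : Prop := ∃ f, IsMin A w f ∧ f a = b

/-- the sum of `x` over the cut of `S` -/
def cut (x : V → V → ℝ) (S : Finset V) : ℝ := ∑ u ∈ S, ∑ v ∈ Sᶜ, x u v

/-- fractional perfect matchings which satisfy the odd cut inequalities -/
structure FP (x : V → V → ℝ) : Prop where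
  nonneg : ∀ u v, 0 ≤ x u v
  symm : ∀ u v, x u v = x v u
  diag : ∀ u, x u u = 0
  row : ∀ u, ∑ v, x u v = 1
  odd : ∀ S : Finset V, Odd S.card → 1 ≤ cut x S

/-- tight odd sets -/
def Tight (x : V → V → ℝ) (S : Finset V) : Prop := Odd S.card ∧ cut x S = 1

/-- the matrix of a perfect matching -/
def chi (f : V → V) (u v : V) : ℝ := if f u = v then 1 else 0

/-- laminar families -/
def Lam (L : Finset (Finset V)) : Prop := ∀ S ∈ L, ∀ T ∈ L, S ⊆ T ∨ T ⊆ S ∨ Disjoint S T

/-- no relation with coefficients in `{-1, 0, 1}` between the weights of at most `2 * k` pairs -/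
def Diss (w : V → V → ℕ) (k : ℕ) : Prop :=
  ∀ v : V → V → ℤ, (∀ a b, v a b = v b a) → (∀ a, v a a = 0) → (∀ a b, v a b = 0 ∨ v a b = 1 ∨ v a b = -1) →
    v ≠ 0 → (univ.filter fun q : V × V => v q.1 q.2 ≠ 0).card ≤ 4 * k → ∑ a, ∑ b, (w a b : ℤ) * v a b ≠ 0

end

end MTC
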