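import Pool.Agent.Lib.MP_0087d5_lc.WPow
import Pool.Agent.Lib.MP_0087d5_lc.UPM.NC
import Pool.Agent.Lib.MP_0087d5_lc.Base
import Pool.Agent.Lib.MP_0087d5_lcMT.MDefs
import Pool.Agent.Lib.MP_0087d5_lcMT.BDefs

/-!
# Perfect matchings in NC for almost all graphs: the test

`eid u v` is the number of the pair of vertices (library, `eid u v < n ^ 2`), `wE m u v = 2 ^ eid u v % m` (for `2 ≤ m`).
-/

set_option autoImplicit false

namespace MTC

open Finset Pool.Agent.PMNC

section
variable {n : ℕ}

open Classical in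
/-- the symbol read off from the graph: the sum of the powers `z ^ eid u v`, over the edges `u v` -/
noncomputable def fG (q : ℕ) (G : SimpleGraph (Fin n)) (z : ZMod q) : ZMod q :=
  ∑ u, ∑ v, if u < v ∧ G.Adj u v then z ^ eid u v else 0

/-- the random coordinates of the graph -/
noncomputable def rG (q : ℕ) (G : SimpleGraph (Fin n)) (g y : ZMod q) (t : ℕ) (u : Fin n) : ZMod q :=
  wk n (fun j => fG q G (g ^ j * y)) t u

/-- the second weights -/
def w2 {q : ℕ} (r : Fin n → ZMod q) (u v : Fin n) : ℕ := (r u).val * (v : ℕ) + (r v).val * (u : ℕ)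

/-- the weights of the test -/
noncomputable def WT (m K q : ℕ) (G : SimpleGraph (Fin n)) (g y : ZMod q) (t : ℕ) (u v : Fin n) : ℕ :=
  K * wE m u v + w2 (rG q G g y t) u v

/-- `w` has only one perfect matching of least weight on `G` -/
def Iso (G : SimpleGraph (Fin n)) (w : Fin n → Fin n → ℕ) : Prop :=
  ∃ f, IsPM G.Adj f ∧ ∀ f', IsPM G.Adj f' → f' ≠ f → tw w f < tw w f'

end

end MTC
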