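import Pool.Agent.Lib.MP_0087d5_lcMT.CDefs

/-!
# Block C: the test is definable (in NC)
-/

set_option autoImplicit false
set_option linter.all false

namespace MTC

open Finset Pool.Agent Pool.Agent.PMNC

theorem sum_cnd_nv {S : ℕ → Type} [Env S] [∀ n, Fintype (S n)] {n : ℕ} (t : S n) (F : ℕ → ℤ) :
    ∑ i : S n, cnd (nv i < nv t) (F (nv i)) 0 = ∑ i ∈ range (nv t), F i := by
  classical
  have e : ∀ i : S n, cnd (nv i < nv t) (F (nv i)) 0 = if nv i < nv t then F (nv i) else 0 := by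
    intro i
    by_cases h : nv i < nv t
    · rw [cnd_pos h, if_pos h]
    · rw [cnd_neg h, if_neg h]
  simp only [e]
  rw [← Finset.sum_filter]
  have h2 : (range (nv t)) = (univ.filter fun i : S n => nv i < nv t).image nv := by
    ext k
    rw [mem_range, mem_image]
    constructor
    · intro hk
      obtain ⟨s, hs⟩ := nv_down (b := t) hk
      exact ⟨s, by rw [mem_filter]; exact ⟨mem_univ _, by omega⟩, hs⟩
    · rintro ⟨s, hs, rfl⟩
      exact (mem_filter.1 hs).2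
  rw [h2, Finset.sum_image fun a _ b _ h => nv_injective h]

section def_
variable {E S B : ℕ → Type} [Env E] [Env S] [Env B] [∀ n, Fintype (S n)]
  {A T : ∀ n : ℕ, SimpleGraph (Fin n) → B n → SimpleGraph (Fin n)}

theorem defZ_zf (hA : DefP (E := fun n => B n × (Fin n × Fin n)) (fun n G X y => (A n G y.1).Adj y.2.1 y.2.2))
    {b : ∀ n : ℕ, E n → B n} (hb : Tm b) {p : ∀ n : ℕ, E n → S n} (hp : Tm p)
    {φ : ∀ n : ℕ, SimpleGraph (Fin n) → Ctx n → E n → ℤ} (h : DefZ p φ) :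
    DefZ p (fun n G X x => zf (A n G (b n x)) (φ n G X x)) := by
  have hE2 : Tm (fun n (y : (E n × Fin n) × Fin n) => p n y.1.1) := hp.comp (Tm.fst (Tm.fst Tm.id))
  have h1 : DefZ p (fun n G X x => ∑ u : Fin n, ∑ v : Fin n,
      cnd (u < v ∧ (A n G (b n x)).Adj u v) (φ n G X x ^ nv (S := fun n => Fin n × Fin n) (u, v)) 0) := by
    refine DefZ.sum (F := fun n => Fin n) hp (DefZ.sum (E := fun n => E n × Fin n) (F := fun n => Fin n)
      (hp.comp (Tm.fst Tm.id)) (DefZ.ite (E := fun n => (E n × Fin n) × Fin n) ?_ ?_ ?_))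
    · exact DefP.and (DefP.lt (Tm.snd (Tm.fst Tm.id)) (Tm.snd Tm.id))
        (DefP.comp (E := fun n => (E n × Fin n) × Fin n) (F := fun n => B n × (Fin n × Fin n))
          (f := fun n y => (b n y.1.1, (y.1.2, y.2))) hA (Tm.pair (hb.comp (Tm.fst (Tm.fst Tm.id)))
            (Tm.pair (F := fun n => Fin n) (H := fun n => Fin n) (Tm.snd (Tm.fst Tm.id)) (Tm.snd Tm.id))))
    · exact DefZ.pow (E := fun n => (E n × Fin n) × Fin n) (H := fun n => Fin n × Fin n) hE2
        (DefZ.comp (E := fun n => (E n × Fin n) × Fin n) h (Tm.fst (Tm.fst Tm.id)))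
        (Tm.pair (F := fun n => Fin n) (H := fun n => Fin n) (Tm.snd (Tm.fst Tm.id)) (Tm.snd Tm.id))
    · exact DefZ.zero (E := fun n => (E n × Fin n) × Fin n) hE2
  refine h1.congr fun n G X x => ?_
  unfold zf
  refine Finset.sum_congr rfl fun u _ => Finset.sum_congr rfl fun v _ => ?_
  by_cases huv : u < v ∧ (A n G (b n x)).Adj u v
  · rw [cnd_pos huv, cnd_pos huv]
    unfold eid
    rw [if_pos huv.1]
  · rw [cnd_neg huv, cnd_neg huv]

/-- the symbol number `nv j` -/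
theorem defZ_zs (hA : DefP (E := fun n => B n × (Fin n × Fin n)) (fun n G X y => (A n G y.1).Adj y.2.1 y.2.2))
    {b : ∀ n : ℕ, E n → B n} (hb : Tm b) {p : ∀ n : ℕ, E n → S n} (hp : Tm p) {g y : ∀ n : ℕ, E n → S n} (hg : Tm g) (hy : Tm y)
    {H : ℕ → Type} [Env H] [∀ n, Fintype (H n)] {j : ∀ n : ℕ, E n → H n} (hj : Tm j) :
    DefZ p (fun n G X x => zs (A n G (b n x)) (nv (g n x)) (nv (y n x)) (nv (j n x))) := by
  unfold zs
  exact defZ_zf hA hb hp (DefZ.mul hp (DefZ.pow (H := H) hp (DefZ.nv' (H := S) hp hg) hj) (DefZ.nv' (H := S) hp hy))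

/-- the symbols number `n + 2 i` and `n + 2 i + 1` -/
theorem defZ_zs2 (hA : DefP (E := fun n => B n × (Fin n × Fin n)) (fun n G X y => (A n G y.1).Adj y.2.1 y.2.2))
    {b : ∀ n : ℕ, E n → B n} (hb : Tm b) {p : ∀ n : ℕ, E n → S n} (hp : Tm p) {g y : ∀ n : ℕ, E n → S n} (hg : Tm g) (hy : Tm y)
    {H : ℕ → Type} [Env H] [∀ n, Fintype (H n)] {j : ∀ n : ℕ, E n → H n} (hj : Tm j) :
    DefZ p (fun n G X x => zs (A n G (b n x)) (nv (g n x)) (nv (y n x)) (n + 2 * nv (j n x))) ∧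
    DefZ p (fun n G X x => zs (A n G (b n x)) (nv (g n x)) (nv (y n x)) (n + 2 * nv (j n x) + 1)) := by
  have hG := DefZ.nv' (H := S) hp hg
  have hn : DefZ p (fun n G X x => ∏ _i : Fin n, ((nv (g n x) : ℕ) : ℤ)) :=
    DefZ.prod (F := fun n => Fin n) hp (DefZ.nv' (E := fun n => E n × Fin n) (H := S) (hp.comp (Tm.fst Tm.id)) (hg.comp (Tm.fst Tm.id)))
  have hpw := DefZ.pow (H := H) hp hG hj
  have hY := DefZ.nv' (H := S) hp hy
  constructor
  · refine (defZ_zf hA hb hp (DefZ.mul hp (DefZ.mul hp hn (DefZ.mul hp hpw hpw)) hY)).congr fun n G X x => ?_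
    unfold zs
    congr 2
    rw [Finset.prod_const, Finset.card_univ, Fintype.card_fin]
    ring
  · refine (defZ_zf hA hb hp (DefZ.mul hp (DefZ.mul hp (DefZ.mul hp hn (DefZ.mul hp hpw hpw)) hG) hY)).congr fun n G X x => ?_
    unfold zs
    congr 2
    rw [Finset.prod_const, Finset.card_univ, Fintype.card_fin]
    ring

/-- the coordinates of the walk -/
theorem defZ_zr (hA : DefP (E := fun n => B n × (Fin n × Fin n)) (fun n G X y => (A n G y.1).Adj y.2.1 y.2.2))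
    {b : ∀ n : ℕ, E n → B n} (hb : Tm b) {p : ∀ n : ℕ, E n → S n} (hp : Tm p) {g y t : ∀ n : ℕ, E n → S n} (hg : Tm g) (hy : Tm y)
    (ht : Tm t) {u : ∀ n : ℕ, E n → Fin n} (hu : Tm (F := fun n => Fin n) u) :
    DefZ p (fun n G X x => zr (A n G (b n x)) (nv (g n x)) (nv (y n x)) (nv (t n x)) (u n x : ℕ)) := by
  have hc : ∀ {f : ∀ n : ℕ, E n → S n}, Tm f → Tm (fun n (y : E n × S n) => f n y.1) := fun hf =>
    hf.comp (Tm.fst Tm.id)
  have h0 := defZ_zs hA hb hp hg hy (H := fun n => Fin n) hu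
  have h1 := defZ_zs2 (E := fun n => E n × S n) hA (b := fun n y => b n y.1) (hb.comp (Tm.fst Tm.id)) (hc hp) (hc hg) (hc hy) (H := S) (j := fun n y => y.2) (Tm.snd Tm.id)
  have h2 : DefZ p (fun n G X x => ∑ i : S n, cnd (nv i < nv (t n x))
      (zs (A n G (b n x)) (nv (g n x)) (nv (y n x)) (n + 2 * nv i + 1) *
        zs (A n G (b n x)) (nv (g n x)) (nv (y n x)) (n + 2 * nv i) ^ nv (S := fun n => Fin n) (u n x)) 0) := by
    refine DefZ.sum (F := S) hp (DefZ.ite (E := fun n => E n × S n) (DefP.nLt (F := S) (H := S) (Tm.snd Tm.id) (hc ht))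
      (DefZ.mul (hc hp) h1.2 (DefZ.pow (H := fun n => Fin n) (hc hp) h1.1 (hu.comp (Tm.fst Tm.id))))
      (DefZ.zero (hc hp)))
  refine (DefZ.add hp h0 h2).congr fun n G X x => ?_
  unfold zr
  rw [nv_fin, sum_cnd_nv (t n x) (fun i => zs (A n G (b n x)) (nv (g n x)) (nv (y n x)) (n + 2 * i + 1) *
    zs (A n G (b n x)) (nv (g n x)) (nv (y n x)) (n + 2 * i) ^ (u n x : ℕ))]

/-- a power whose exponent is the remainder of a number modulo `q` -/
theorem defZ_powr {p q : ∀ n : ℕ, E n → S n} (hp : Tm p) (hq : Tm q)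
    {φ ψ : ∀ n : ℕ, SimpleGraph (Fin n) → Ctx n → E n → ℤ} (h1 : DefZ q φ) (h2 : DefZ p ψ) :
    DefZ p (fun n G X x => cnd (nv (q n x) = 0) 0 (ψ n G X x ^ rz (nv (q n x)) (φ n G X x))) := by
  have h3 : DefZ p (fun n G X x => ∑ e : S n, cnd (rsd (q n x) e (φ n G X x)) (ψ n G X x ^ nv e) 0) := by
    refine DefZ.sum (F := S) hp (DefZ.ite (E := fun n => E n × S n) h1 ?_ (DefZ.zero (hp.comp (Tm.fst Tm.id))))
    exact DefZ.pow (E := fun n => E n × S n) (H := S) (hp.comp (Tm.fst Tm.id))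
      (DefZ.comp (E := fun n => E n × S n) h2 (Tm.fst Tm.id)) (Tm.snd Tm.id)
  refine h3.congr fun n G X x => ?_
  by_cases h0 : nv (q n x) = 0
  · rw [cnd_pos h0]
    refine Finset.sum_eq_zero fun e _ => cnd_neg (fun h => ?_) _ _
    have := h.1
    omega
  · rw [cnd_neg h0]
    have hpos : 0 < nv (q n x) := Nat.pos_of_ne_zero h0
    obtain ⟨e, he⟩ := rsd_ex hpos (φ n G X x)
    have hr : nv e = rz (nv (q n x)) (φ n G X x) := by
      have h4 : (nv e : ℤ) = φ n G X x % (nv (q n x) : ℤ) := by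
        have h5 := he.1
        have h6 := he.2
        have h7 : (nv e : ℤ) % (nv (q n x) : ℤ) = φ n G X x % (nv (q n x) : ℤ) :=
          (Int.modEq_iff_dvd).2 h6
        rw [← h7]
        exact (Int.emod_eq_of_lt (by omega) (by omega)).symm
      unfold rz
      omega
    rw [Finset.sum_eq_single e]
    · rw [cnd_pos he, hr]
    · intro e' _ hne
      rw [cnd_neg]
      intro h
      exact hne (rsd_unique h he (by simp))
    · intro h
      exact absurd (Finset.mem_univ _) h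

/-- a power whose exponent is the weight of a pair -/
theorem defZ_powE (hS : 2 ≤ dim S) {p m : ∀ n : ℕ, E n → S n} (hp : Tm p) (hm : Tm m)
    {u v : ∀ n : ℕ, E n → Fin n} (hu : Tm (F := fun n => Fin n) u) (hv : Tm (F := fun n => Fin n) v)
    {ψ : ∀ n : ℕ, SimpleGraph (Fin n) → Ctx n → E n → ℤ} (h2 : DefZ p ψ) :
    DefZ p (fun n G X x => ψ n G X x ^ wE (nv (m n x)) (u n x) (v n x)) := by
  have h3 : DefZ p (fun n G X x => ∑ e : S n, cnd (wE (nv (m n x)) (u n x) (v n x) = nv e) (ψ n G X x ^ nv e) 0) := by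
    refine DefZ.sum (F := S) hp (DefZ.ite (E := fun n => E n × S n) ?_ ?_ (DefZ.zero (hp.comp (Tm.fst Tm.id))))
    · exact DefP.comp (F := fun n => E n × ((Fin n × Fin n) × S n))
        (f := fun n (y : E n × S n) => (y.1, ((u n y.1, v n y.1), y.2))) (DefP.wE hS hm)
        (Tm.pair (Tm.fst Tm.id) (Tm.pair (F := fun n => Fin n × Fin n) (H := S)
          (Tm.pair (F := fun n => Fin n) (H := fun n => Fin n) (hu.comp (Tm.fst Tm.id)) (hv.comp (Tm.fst Tm.id))) (Tm.snd Tm.id)))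
    · exact DefZ.pow (E := fun n => E n × S n) (H := S) (hp.comp (Tm.fst Tm.id))
        (DefZ.comp (E := fun n => E n × S n) h2 (Tm.fst Tm.id)) (Tm.snd Tm.id)
  refine h3.congr fun n G X x => ?_
  obtain ⟨e, he⟩ := nv_down' (b := m n x) (wE_le (nv (m n x)) (u n x) (v n x))
  rw [Finset.sum_eq_single e]
  · rw [cnd_pos he.symm, he]
  · intro e' _ hne
    rw [cnd_neg]
    intro h
    exact hne (nv_injective (by omega))
  · intro h
    exact absurd (Finset.mem_univ _) h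

/-- the entries of the matrix of the test; zero if `q = 0` -/
theorem defZ_zM (hA : DefP (E := fun n => B n × (Fin n × Fin n)) (fun n G X y => (A n G y.1).Adj y.2.1 y.2.2))
    (hT : DefP (E := fun n => B n × (Fin n × Fin n)) (fun n G X y => (T n G y.1).Adj y.2.1 y.2.2))
    {b : ∀ n : ℕ, E n → B n} (hb : Tm b) (hS : 2 ≤ dim S) {m K q g y t p x : ∀ n : ℕ, E n → S n} (hm : Tm m) (hK : Tm K) (hq : Tm q)
    (hg : Tm g) (hy : Tm y) (ht : Tm t) (hp : Tm p) (hx : Tm x)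
    {u v : ∀ n : ℕ, E n → Fin n} (hu : Tm (F := fun n => Fin n) u) (hv : Tm (F := fun n => Fin n) v) :
    DefZ p (fun n G X e => cnd (nv (q n e) = 0) 0 (zM (nv (m n e)) (nv (K n e)) (nv (q n e)) (T n G (b n e)) (A n G (b n e)) (nv (g n e))
      (nv (y n e)) (nv (t n e)) (nv (x n e)) (u n e) (v n e))) := by
  have hX := DefZ.nv' (H := S) hp hx
  have hXK := defZ_powE hS hp hm hu hv (DefZ.pow (H := S) hp hX hK)
  have hXu := defZ_powr hp hq (defZ_zr hA hb hq hg hy ht hv) (DefZ.pow (H := fun n => Fin n) hp hX hu)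
  have hXv := defZ_powr hp hq (defZ_zr hA hb hq hg hy ht hu) (DefZ.pow (H := fun n => Fin n) hp hX hv)
  have hB : DefZ p (fun n G X e => zB (T n G (b n e)) (u n e) (v n e)) := by
    unfold zB
    exact DefZ.ite (DefP.comp (F := fun n => B n × (Fin n × Fin n)) (f := fun n x => (b n x, (u n x, v n x))) hT
      (Tm.pair hb (Tm.pair (F := fun n => Fin n) (H := fun n => Fin n) hu hv))) (DefZ.ite (DefP.lt hu hv) (DefZ.one hp) (DefZ.neg hp (DefZ.one hp))) (DefZ.zero hp)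
  refine (DefZ.mul hp hB (DefZ.mul hp hXK (DefZ.mul hp hXv hXu))).congr fun n G X e => ?_
  by_cases h0 : nv (q n e) = 0
  · rw [cnd_pos h0, cnd_pos h0, cnd_pos h0]
    ring
  · rw [cnd_neg h0, cnd_neg h0, cnd_neg h0, nv_fin, nv_fin]
    unfold zM zW
    rw [pow_add, pow_add, ← pow_mul, ← pow_mul, ← pow_mul, mul_comm (v n e : ℕ), mul_comm (u n e : ℕ)]

theorem defP_accA (hA : DefP (E := fun n => B n × (Fin n × Fin n)) (fun n G X y => (A n G y.1).Adj y.2.1 y.2.2))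
    (hT : DefP (E := fun n => B n × (Fin n × Fin n)) (fun n G X y => (T n G y.1).Adj y.2.1 y.2.2)) (hS : 2 ≤ dim S) :
    DefP (E := fun n => B n × (S n × (S n × (S n × (S n × (S n × (S n × (S n × S n)))))))) (fun n G X e => accA (T n G e.1) (A n G e.1) e.2) := by
  have T1 : Tm (E := fun n => B n × (S n × (S n × (S n × (S n × (S n × (S n × (S n × S n)))))))) (F := S) (fun n e => e.2.1) := Tm.fst (Tm.snd Tm.id)
  have T2 : Tm (E := fun n => B n × (S n × (S n × (S n × (S n × (S n × (S n × (S n × S n)))))))) (F := S) (fun n e => e.2.2.1) := Tm.fst (Tm.snd (Tm.snd Tm.id))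
  have T3 : Tm (E := fun n => B n × (S n × (S n × (S n × (S n × (S n × (S n × (S n × S n)))))))) (F := S) (fun n e => e.2.2.2.1) := Tm.fst (Tm.snd (Tm.snd (Tm.snd Tm.id)))
  have T4 : Tm (E := fun n => B n × (S n × (S n × (S n × (S n × (S n × (S n × (S n × S n)))))))) (F := S) (fun n e => e.2.2.2.2.1) := Tm.fst (Tm.snd (Tm.snd (Tm.snd (Tm.snd Tm.id))))
  have T5 : Tm (E := fun n => B n × (S n × (S n × (S n × (S n × (S n × (S n × (S n × S n)))))))) (F := S) (fun n e => e.2.2.2.2.2.1) := Tm.fst (Tm.snd (Tm.snd (Tm.snd (Tm.snd (Tm.snd Tm.id)))))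
  have T6 : Tm (E := fun n => B n × (S n × (S n × (S n × (S n × (S n × (S n × (S n × S n)))))))) (F := S) (fun n e => e.2.2.2.2.2.2.1) := Tm.fst (Tm.snd (Tm.snd (Tm.snd (Tm.snd (Tm.snd (Tm.snd Tm.id))))))
  have T7 : Tm (E := fun n => B n × (S n × (S n × (S n × (S n × (S n × (S n × (S n × S n)))))))) (F := S) (fun n e => e.2.2.2.2.2.2.2.1) := Tm.fst (Tm.snd (Tm.snd (Tm.snd (Tm.snd (Tm.snd (Tm.snd (Tm.snd Tm.id)))))))
  have T8 : Tm (E := fun n => B n × (S n × (S n × (S n × (S n × (S n × (S n × (S n × S n)))))))) (F := S) (fun n e => e.2.2.2.2.2.2.2.2) := Tm.snd (Tm.snd (Tm.snd (Tm.snd (Tm.snd (Tm.snd (Tm.snd (Tm.snd Tm.id)))))))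
  have hc : ∀ {f : ∀ n : ℕ, (B n × (S n × (S n × (S n × (S n × (S n × (S n × (S n × S n)))))))) → S n}, Tm f →
      Tm (fun n (y : (B n × (S n × (S n × (S n × (S n × (S n × (S n × (S n × S n)))))))) × (Fin n × Fin n)) => f n y.1) :=
    fun hf => hf.comp (Tm.fst Tm.id)
  have hM := defZ_zM (E := fun n => (B n × (S n × (S n × (S n × (S n × (S n × (S n × (S n × S n)))))))) × (Fin n × Fin n)) hA hT
    (b := fun n y => y.1.1) (Tm.fst (Tm.fst Tm.id))
    hS (hc T1) (hc T2) (hc T3) (hc T4) (hc T5) (hc T6) (hc T7) (hc T8) (u := fun n y => y.2.1) (v := fun n y => y.2.2)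
    (Tm.fst (Tm.snd Tm.id)) (Tm.snd (Tm.snd Tm.id))
  have hD := DefZ.det (E := fun n => B n × (S n × (S n × (S n × (S n × (S n × (S n × (S n × S n)))))))) (T := fun n => Fin n)
    (M := fun n G X (e : B n × (S n × (S n × (S n × (S n × (S n × (S n × (S n × S n)))))))) u v =>
      cnd (nv e.2.2.2.1 = 0) 0 (zM (nv e.2.1) (nv e.2.2.1) (nv e.2.2.2.1) (T n G e.1) (A n G e.1) (nv e.2.2.2.2.1)
        (nv e.2.2.2.2.2.1) (nv e.2.2.2.2.2.2.1) (nv e.2.2.2.2.2.2.2.2) u v)) T7 hM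
  refine DefP.congr (DefP.and (DefP.prS T7) (DefP.and (DefP.not (DefP.nZero T3)) (DefZ.ndvd T7 hD))) fun n G X e => ?_
  by_cases h0 : nv e.2.2.2.1 = 0
  · exact ⟨fun h => absurd h0 h.2.1, fun h => absurd h0 h.2.1⟩
  · have hE : (fun u v : Fin n => cnd (nv e.2.2.2.1 = 0) 0 (zM (nv e.2.1) (nv e.2.2.1) (nv e.2.2.2.1) (T n G e.1)
        (A n G e.1) (nv e.2.2.2.2.1) (nv e.2.2.2.2.2.1) (nv e.2.2.2.2.2.2.1) (nv e.2.2.2.2.2.2.2.2) u v)) =
        zM (nv e.2.1) (nv e.2.2.1) (nv e.2.2.2.1) (T n G e.1) (A n G e.1) (nv e.2.2.2.2.1)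
        (nv e.2.2.2.2.2.1) (nv e.2.2.2.2.2.2.1) (nv e.2.2.2.2.2.2.2.2) := by
      funext u v
      exact cnd_neg h0 _ _
    unfold accA nd zdet
    rw [hE]

end def_

end MTC
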