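import Pool.Agent.Lib.MP_0087d5_lcMT.CA
import Pool.Agent.Lib.MP_0087d5_lc.WBridge

/-!
# Block C: the test is sound and complete
-/

set_option autoImplicit false
set_option linter.all false

namespace MTC

open Finset Pool.Agent Pool.Agent.PMNC Pool.Agent.FRC.Uni

section
variable {n : ℕ}

theorem zB_diag (G : SimpleGraph (Fin n)) (v : Fin n) : zB G v v = 0 := cnd_neg G.irrefl _ _

theorem zB_skew (G : SimpleGraph (Fin n)) (u v : Fin n) : zB G u v = - zB G v u := by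
  unfold zB
  by_cases h : G.Adj u v
  · rw [cnd_pos h, cnd_pos h.symm]
    rcases lt_trichotomy u v with h1 | h1 | h1
    · rw [cnd_pos h1, cnd_neg (lt_asymm h1), neg_neg]
    · exact absurd h1 h.ne
    · rw [cnd_neg (lt_asymm h1), cnd_pos h1]
  · rw [cnd_neg h, cnd_neg (fun h' => h h'.symm), neg_zero]

theorem zB_cases (G : SimpleGraph (Fin n)) {u v : Fin n} (h : G.Adj u v) : zB G u v = 1 ∨ zB G u v = -1 := by
  unfold zB
  rw [cnd_pos h]
  by_cases h1 : u < v
  · exact Or.inl (cnd_pos h1 _ _)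
  · exact Or.inr (cnd_neg h1 _ _)

theorem zB_adj (G : SimpleGraph (Fin n)) {u v : Fin n} (h : zB G u v ≠ 0) : G.Adj u v := by
  by_contra hc
  exact h (cnd_neg hc _ _)

theorem zW_symm (m K q : ℕ) (G : SimpleGraph (Fin n)) (g y : ℤ) (t : ℕ) (u v : Fin n) :
    zW m K q G g y t u v = zW m K q G g y t v u := by
  unfold zW
  rw [wE_comm, add_comm (rz q (zr G g y t u) * (v : ℕ))]

theorem accA_sound {S : ℕ → Type} [Env S] [∀ n, Fintype (S n)] (G A : SimpleGraph (Fin n))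
    {e : S n × (S n × (S n × (S n × (S n × (S n × (S n × S n))))))} (h : accA G A e) : HasPM G := by
  classical
  obtain ⟨-, -, -, hd⟩ := h
  rw [zdet_eq (T := fun n => Fin n) inferInstance] at hd
  refine exists_pm_of_det (G := G) (Matrix.of (zM (nv e.1) (nv e.2.1) (nv e.2.2.1) G A (nv e.2.2.2.1)
        (nv e.2.2.2.2.1) (nv e.2.2.2.2.2.1) (nv e.2.2.2.2.2.2.2))) ?_ ?_ ?_ ?_
  · intro v
    show zM _ _ _ _ _ _ _ _ _ v v = 0
    unfold zM
    rw [zB_diag, zero_mul]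
  · intro u v
    show zM _ _ _ _ _ _ _ _ _ u v = - zM _ _ _ _ _ _ _ _ _ v u
    unfold zM
    rw [zB_skew, zW_symm, neg_mul]
  · intro u v huv
    exact zB_adj G (left_ne_zero_of_mul huv)
  · intro h0
    apply hd
    rw [h0]
    exact dvd_zero _

theorem cast_zf (q : ℕ) (G : SimpleGraph (Fin n)) (z : ℤ) : ((zf G z : ℤ) : ZMod q) = fG q G (z : ZMod q) := by
  unfold zf fG
  rw [Int.cast_sum]
  refine Finset.sum_congr rfl fun u _ => ?_
  rw [Int.cast_sum]
  refine Finset.sum_congr rfl fun v _ => ?_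
  by_cases h : u < v ∧ G.Adj u v
  · rw [cnd_pos h, if_pos h, Int.cast_pow]
  · rw [cnd_neg h, if_neg h, Int.cast_zero]

theorem cast_zr (q : ℕ) (G : SimpleGraph (Fin n)) (g y : ℤ) (t u : ℕ) :
    ((zr G g y t u : ℤ) : ZMod q) = wk n (fun j => fG q G ((g : ZMod q) ^ j * (y : ZMod q))) t u := by
  have h : ∀ j, ((zs G g y j : ℤ) : ZMod q) = fG q G ((g : ZMod q) ^ j * (y : ZMod q)) := by
    intro j
    unfold zs
    rw [cast_zf, Int.cast_mul, Int.cast_pow]
  unfold zr wk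
  rw [Int.cast_add, Int.cast_sum, h]
  congr 1
  refine Finset.sum_congr rfl fun i _ => ?_
  rw [Int.cast_mul, Int.cast_pow, h, h]

theorem rz_eq (q : ℕ) [NeZero q] (a : ℤ) : rz q a = ((a : ℤ) : ZMod q).val := by
  have h := ZMod.val_intCast (n := q) a
  unfold rz
  omega

theorem WT_eq (m K q : ℕ) [NeZero q] (G : SimpleGraph (Fin n)) (g y : ZMod q) (t : ℕ) :
    WT m K q G g y t = zW m K q G (g.val : ℤ) (y.val : ℤ) t := by
  funext u v
  unfold WT zW w2 rG
  rw [rz_eq, rz_eq, cast_zr, cast_zr]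
  simp only [Int.cast_natCast, ZMod.natCast_zmod_val]

theorem rz_lt {q : ℕ} (hq : 0 < q) (a : ℤ) : rz q a < q := by
  unfold rz
  have h1 := Int.emod_lt_of_pos a (b := (q : ℤ)) (by omega)
  have h2 := Int.emod_nonneg a (b := (q : ℤ)) (by omega)
  omega

theorem zW_lt {C m K q t : ℕ} (hn : 2 ≤ n) (G : SimpleGraph (Fin n)) (g y : ℤ) (hq0 : 0 < q) (hm : m ≤ n ^ C)
    (hK : K ≤ n ^ C) (hq : q ≤ n ^ C) (u v : Fin n) : zW m K q G g y t u v < n ^ (2 * C + 5) := by
  have h1 : K * wE m u v ≤ n ^ C * n ^ C := Nat.mul_le_mul hK ((wE_le m u v).trans hm)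
  have h2 : ∀ (a : ℤ) (w : Fin n), rz q a * (w : ℕ) ≤ n ^ C * n := fun a w =>
    Nat.mul_le_mul ((rz_lt hq0 a).le.trans hq) w.2.le
  have h3 : zW m K q G g y t u v ≤ n ^ C * n ^ C + (n ^ C * n + n ^ C * n) :=
    Nat.add_le_add h1 (Nat.add_le_add (h2 _ _) (h2 _ _))
  have hC : 1 ≤ n ^ C := Nat.one_le_pow _ _ (by omega)
  have h4 : n ^ C * n ^ C + (n ^ C * n + n ^ C * n) < n ^ (2 * C + 5) := by
    have e : n ^ (2 * C + 5) = n ^ C * n ^ C * (n * n ^ 4) := by ring
    rw [e]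
    have h5 : n ^ C * n ≤ n ^ C * n ^ C * n := Nat.mul_le_mul_right _ (Nat.le_mul_of_pos_left _ (by omega))
    have h6 : 16 ≤ n ^ 4 := by
      calc 16 = 2 ^ 4 := by norm_num
        _ ≤ n ^ 4 := Nat.pow_le_pow_left hn 4
    have h7 : 1 ≤ n ^ C * n ^ C := Nat.one_le_iff_ne_zero.2 (by positivity)
    generalize n ^ C * n ^ C = a at *
    generalize n ^ C * n = b at *
    have h8 : a * (n * n ^ 4) = a * n * n ^ 4 := by ring
    have h9 : a ≤ a * n := Nat.le_mul_of_pos_right _ (by omega)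
    have h10 : a * n * 16 ≤ a * n * n ^ 4 := Nat.mul_le_mul_left _ h6
    omega
  omega

open Classical in
/-- an isolating weight gives a nonsingular matrix -/
theorem det_ne {S : ℕ → Type} [Env S] [∀ n, Fintype (S n)] (p : S n) [Fact (nv p).Prime] (G : SimpleGraph (Fin n))
    (w : Fin n → Fin n → ℕ) (hw : ∀ u v, w u v = w v u) (hi : Iso G w) :
    (wM (T := fun n => Fin n) p w (zB G)).det ≠ 0 := by
  obtain ⟨f, hf, hf2⟩ := hi
  have hF : ForcW G w ∅ f := ⟨⟨hf.1, hf.2⟩, fun v hv => absurd hv (Finset.notMem_empty v),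
    fun f' h1 _ h3 => hf2 f' ⟨h1.invol, h1.adj⟩ h3⟩
  intro hdet
  obtain ⟨z, hz, hz2⟩ := Matrix.exists_mulVec_eq_zero_iff.2 hdet
  apply hz
  refine hX_of_forcW (F := ZMod (nv p)) (K := RatFunc (ZMod (nv p))) (aK_inj p) (G := G)
    (fun u v => ((zB G u v : ℤ) : ZMod (nv p))) (fun v => ?_) (fun u v => ?_) (fun u v => ?_) w hw hF z
    (fun v hv => absurd hv (Finset.notMem_empty v)) (fun v _ => ?_)
  · show ((zB G v v : ℤ) : ZMod (nv p)) = 0
    rw [zB_diag, Int.cast_zero]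
  · show ((zB G u v : ℤ) : ZMod (nv p)) = - ((zB G v u : ℤ) : ZMod (nv p))
    rw [zB_skew, Int.cast_neg]
  · constructor
    · intro h
      apply zB_adj
      intro h0
      apply h
      show ((zB G u v : ℤ) : ZMod (nv p)) = 0
      rw [h0, Int.cast_zero]
    · intro h
      show ((zB G u v : ℤ) : ZMod (nv p)) ≠ 0
      rcases zB_cases G h with h1 | h1
      · rw [h1, Int.cast_one]
        exact one_ne_zero
      · rw [h1, Int.cast_neg, Int.cast_one]
        exact neg_ne_zero.2 one_ne_zero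
  · exact congrFun hz2 v

theorem accA_complete {S : ℕ → Type} [Env S] [∀ n, Fintype (S n)] {C : ℕ} (hS : 2 * C + 12 ≤ dim S) (hn : 2 ≤ n)
    (G A : SimpleGraph (Fin n)) (m K q t : ℕ) (g y : ZMod q) (hq : q.Prime) (hm : m ≤ n ^ C) (hK : K ≤ n ^ C)
    (hqC : q ≤ n ^ C) (ht : t ≤ 2 * n) (hi : Iso G (WT m K q A g y t)) :
    ∃ e : S n × (S n × (S n × (S n × (S n × (S n × (S n × S n)))))), accA G A e := by
  classical
  haveI : NeZero q := ⟨hq.ne_zero⟩
  have hpow : n ^ C < n ^ dim S := Nat.pow_lt_pow_right (by omega) (by omega)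
  obtain ⟨p₀, hp₀, hlt, hle⟩ := Nat.exists_prime_lt_and_le_two_mul (n ^ (2 * C + 8)) (by positivity)
  have hp1 : p₀ < n ^ dim S := by
    calc p₀ ≤ 2 * n ^ (2 * C + 8) := hle
      _ ≤ n * n ^ (2 * C + 8) := Nat.mul_le_mul_right _ hn
      _ = n ^ (2 * C + 9) := by ring
      _ < n ^ dim S := Nat.pow_lt_pow_right (by omega) (by omega)
  obtain ⟨p, rfl⟩ := nv_surj (S := S) hp1
  obtain ⟨m', rfl⟩ := nv_surj (S := S) (n := n) (m := m) (lt_of_le_of_lt hm hpow)
  obtain ⟨K', rfl⟩ := nv_surj (S := S) (n := n) (m := K) (lt_of_le_of_lt hK hpow)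
  obtain ⟨g', hg'⟩ := nv_surj (S := S) (n := n) (m := g.val) (lt_of_lt_of_le (ZMod.val_lt g) (hqC.trans hpow.le))
  obtain ⟨y', hy'⟩ := nv_surj (S := S) (n := n) (m := y.val) (lt_of_lt_of_le (ZMod.val_lt y) (hqC.trans hpow.le))
  obtain ⟨t', rfl⟩ := nv_surj (S := S) (n := n) (m := t) (by
    calc t ≤ n * n := ht.trans (Nat.mul_le_mul_right _ hn)
      _ = n ^ 2 := by ring
      _ < n ^ dim S := Nat.pow_lt_pow_right (by omega) (by omega))
  obtain ⟨q', hq'⟩ := nv_surj (S := S) (n := n) (m := q) (lt_of_le_of_lt hqC hpow)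
  haveI : Fact (nv p).Prime := ⟨hp₀⟩
  have hW : WT (nv m') (nv K') q A g y (nv t') =
      zW (nv m') (nv K') (nv q') A (nv g') (nv y') (nv t') := by
    rw [WT_eq, hg', hy', hq']
  rw [hW] at hi
  have hd := det_ne p G _ (zW_symm _ _ _ A _ _ _) hi
  have hw : Wok (T := fun n => Fin n) p (fun _ => False)
      (zW (nv m') (nv K') (nv q') A (nv g') (nv y') (nv t')) (n ^ (2 * C + 5)) := by
    refine ⟨fun r c h => h.elim False.elim False.elim, zW_symm _ _ _ A _ _ _, fun u v => ?_, ?_⟩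
    · exact zW_lt hn A _ _ (by rw [hq']; exact hq.pos) hm hK (by rw [hq']; exact hqC) u v
    · rw [Fintype.card_fin]
      refine lt_of_le_of_lt ?_ hlt
      calc 2 * n * n ^ (2 * C + 5) ≤ n * n * n ^ (2 * C + 5) := Nat.mul_le_mul_right _ (Nat.mul_le_mul_right _ hn)
        _ = n ^ (2 * C + 7) := by ring
        _ ≤ n ^ (2 * C + 8) := Nat.pow_le_pow_right (by omega) (by omega)
  have h := (det_iff (T := fun n => Fin n) (B := zB G) hw).2 (use_inst (P := fun i => @Matrix.det (Fin n) i _ _ _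
    (wM (T := fun n => Fin n) p (zW (nv m') (nv K') (nv q') A (nv g') (nv y') (nv t')) (zB G)) ≠ 0) _ hd)
  obtain ⟨x, hx⟩ := h
  refine ⟨(m', (K', (q', (g', (y', (t', (p, x))))))), (prS_iff p).2 hp₀, ?_, ?_⟩
  · show ¬ nv q' = 0
    rw [hq']
    exact hq.ne_zero
  · rw [zdet_eq (T := fun n => Fin n) (fun a b => Classical.propDecidable (a = b))]
    exact hx

end

/-- **the test is definable in FO[log^k]**: `T n G e` is the tested graph, `A n G e` is the source of the symbols, `e` are parameters -/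
theorem nc_def (C : ℕ) {B : ℕ → Type} [Env B] {A T : ∀ n : ℕ, SimpleGraph (Fin n) → B n → SimpleGraph (Fin n)}
    (hA : DefP (E := fun n => B n × (Fin n × Fin n)) (fun n G X y => (A n G y.1).Adj y.2.1 y.2.2))
    (hT : DefP (E := fun n => B n × (Fin n × Fin n)) (fun n G X y => (T n G y.1).Adj y.2.1 y.2.2)) :
    ∃ P : ∀ n : ℕ, SimpleGraph (Fin n) → B n → Prop, DefP (fun n G X e => P n G e) ∧ (∀ n G e, P n G e → HasPM (T n G e)) ∧
    ∀ n : ℕ, 2 ≤ n → ∀ (G : SimpleGraph (Fin n)) (e : B n), ∀ (m K q t : ℕ) (g y : ZMod q), q.Prime → m ≤ n ^ C → K ≤ n ^ C →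
      q ≤ n ^ C → t ≤ 2 * n → Iso (T n G e) (WT m K q (A n G e) g y t) → P n G e := by
  obtain ⟨S, i1, i2, hS⟩ := exists_SS (2 * C + 12)
  refine ⟨fun n G e => ∃ a : S n × (S n × (S n × (S n × (S n × (S n × (S n × S n)))))), accA (T n G e) (A n G e) a, ?_, ?_, ?_⟩
  · exact DefP.ex (F := fun n => S n × (S n × (S n × (S n × (S n × (S n × (S n × S n))))))) (defP_accA hA hT (by omega))
  · rintro n G e ⟨a, ha⟩
    exact accA_sound _ _ ha
  · intro n hn G e m K q t g y hq hm hK hqC ht hi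
    exact accA_complete (by omega) hn _ _ m K q t g y hq hm hK hqC ht hi

/-- **the test is in NC**: `T n G` is the tested graph, `A n G` is the source of the symbols -/
theorem nc_defP (C : ℕ) {A T : ∀ n : ℕ, SimpleGraph (Fin n) → SimpleGraph (Fin n)}
    (hA : DefP (E := fun n => Fin n × Fin n) (fun n G X y => (A n G).Adj y.1 y.2))
    (hT : DefP (E := fun n => Fin n × Fin n) (fun n G X y => (T n G).Adj y.1 y.2)) :
    ∃ P : ∀ n : ℕ, SimpleGraph (Fin n) → Prop, PMNC.InNC P ∧ (∀ n G, P n G → HasPM (T n G)) ∧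
    ∀ n : ℕ, 2 ≤ n → ∀ G : SimpleGraph (Fin n), ∀ (m K q t : ℕ) (g y : ZMod q), q.Prime → m ≤ n ^ C → K ≤ n ^ C → q ≤ n ^ C → t ≤ 2 * n →
      Iso (T n G) (WT m K q (A n G) g y t) → P n G := by
  have hc : ∀ {D : ∀ n : ℕ, SimpleGraph (Fin n) → SimpleGraph (Fin n)},
      DefP (E := fun n => Fin n × Fin n) (fun n G X y => (D n G).Adj y.1 y.2) →
      DefP (E := fun n => Unit × (Fin n × Fin n)) (fun n G X y => (D n G).Adj y.2.1 y.2.2) := fun h =>
    DefP.comp (E := fun n => Unit × (Fin n × Fin n)) (F := fun n => Fin n × Fin n) (f := fun n y => y.2) h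
      (Tm.snd (F := fun n => Unit) (H := fun n => Fin n × Fin n) Tm.id)
  obtain ⟨P, h1, h2, h3⟩ := nc_def C (B := fun _ => Unit) (A := fun n G _ => A n G) (T := fun n G _ => T n G) (hc hA) (hc hT)
  refine ⟨fun n G => P n G (), inNC_of_defP (h1.congr fun n G X e => Iff.rfl), fun n G h => h2 n G () h, ?_⟩
  intro n hn G m K q t g y hq hm hK hqC ht hi
  exact h3 n hn G () m K q t g y hq hm hK hqC ht hi

end MTC
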