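import Pool.Agent.Lib.MP_0087d5_lcMT.ADefs
import Pool.Agent.Lib.MP_0087d5_lc.FN.Main

/-!
# Block C: the test in integers
-/

set_option autoImplicit false

namespace MTC

open Finset Pool.Agent Pool.Agent.PMNC

section
variable {n : ℕ}

/-- the symbol as an integer -/
noncomputable def zf (G : SimpleGraph (Fin n)) (z : ℤ) : ℤ :=
  ∑ u : Fin n, ∑ v : Fin n, cnd (u < v ∧ G.Adj u v) (z ^ eid u v) 0

/-- the symbols as integers -/
noncomputable def zs (G : SimpleGraph (Fin n)) (g y : ℤ) (j : ℕ) : ℤ := zf G (g ^ j * y)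

/-- the coordinates of the walk as integers -/
noncomputable def zr (G : SimpleGraph (Fin n)) (g y : ℤ) (t u : ℕ) : ℤ :=
  zs G g y u + ∑ i ∈ range t, zs G g y (n + 2 * i + 1) * zs G g y (n + 2 * i) ^ u

/-- the remainder -/
def rz (q : ℕ) (a : ℤ) : ℕ := (a % (q : ℤ)).toNat

/-- the exponents of the test -/
noncomputable def zW (m K q : ℕ) (G : SimpleGraph (Fin n)) (g y : ℤ) (t : ℕ) (u v : Fin n) : ℕ :=
  K * wE m u v + (rz q (zr G g y t u) * (v : ℕ) + rz q (zr G g y t v) * (u : ℕ))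

/-- the signs of the test -/
noncomputable def zB (G : SimpleGraph (Fin n)) (u v : Fin n) : ℤ := cnd (G.Adj u v) (cnd (u < v) 1 (-1)) 0

/-- the matrix of the test for the graph `G`; the symbols are read off from the graph `A` -/
noncomputable def zM (m K q : ℕ) (G A : SimpleGraph (Fin n)) (g y : ℤ) (t : ℕ) (x : ℤ) (u v : Fin n) : ℤ :=
  zB G u v * x ^ zW m K q A g y t u v

end

section
variable {S : ℕ → Type} [Env S] {n : ℕ}

/-- the test of the graph `G` with the source `A`; the parameters are `m, K, q, g, y, t, p, x` -/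
def accA (G A : SimpleGraph (Fin n)) (e : S n × (S n × (S n × (S n × (S n × (S n × (S n × S n))))))) : Prop :=
  prS e.2.2.2.2.2.2.1 ∧ (¬ nv e.2.2.1 = 0) ∧
    nd e.2.2.2.2.2.2.1 (zdet (T := fun n => Fin n)
      (zM (nv e.1) (nv e.2.1) (nv e.2.2.1) G A (nv e.2.2.2.1) (nv e.2.2.2.2.1) (nv e.2.2.2.2.2.1) (nv e.2.2.2.2.2.2.2)))

end

end MTC
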