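import Pool.Agent.Lib.MP_0087d5_lc.ZPri

/-!
# Leaf D1 (easy+): a small prime that divides none of the given numbers

Proof. Apply `exists_prime_not_dvd` (library, `ZPri`: for `D ≠ 0`, `D ≤ 2 ^ L` there is a prime `p ≤ 64 * (L + 1) ^ 2` with `¬ p ∣ D`) to the product of the `(N i).natAbs`, `i ∈ s`, with
`L := L * s.card`.
-/

set_option autoImplicit false

namespace MTC

open Finset

theorem exists_prime_avoid {ι : Type} (s : Finset ι) (N : ι → ℤ) (hN : ∀ i ∈ s, N i ≠ 0) (L : ℕ) (hL : ∀ i ∈ s, |N i| < 2 ^ L) :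
    ∃ p : ℕ, p.Prime ∧ (∀ i ∈ s, ¬ (p : ℤ) ∣ N i) ∧ p ≤ 64 * (L * s.card + 1) ^ 2 := by
  obtain ⟨p, hp, hnd, hle⟩ := Pool.Agent.PMNC.exists_prime_not_dvd
    (D := ∏ i ∈ s, (N i).natAbs) (L := L * s.card)
    (Finset.prod_ne_zero_iff.2 fun i hi => Int.natAbs_ne_zero.2 (hN i hi)) (by
      rw [pow_mul, ← Finset.prod_const]
      refine Finset.prod_le_prod' fun i hi => ?_
      have h1 := hL i hi
      rw [Int.abs_eq_natAbs] at h1
      exact_mod_cast h1.le)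
  refine ⟨p, hp, fun i hi hd => hnd ?_, hle⟩
  exact (Int.natCast_dvd.1 hd).trans (Finset.dvd_prod_of_mem (fun i => (N i).natAbs) hi)

end MTC
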