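import Mathlib

/-!
# Leaf D2 (medium): the number of sparse vectors

Proof. A symmetric `v` with zero diagonal, values in `{0, 1, -1}` and at most `4 * k` nonzero entries is nonzero on at most `2 * k` pairs `(a, b)` with `a < b`. It is determined by the list of these pairs with
the signs, which is the set of the values `≠ none` of a function `Fin (2 * k) → Option ((Fin n × Fin n) × Bool)`. There are `(2 * n ^ 2 + 1) ^ (2 * k)` functions.
-/

set_option autoImplicit false

namespace MTC

open Finset

/-- the vector given by a list of pairs with signs -/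
private def D2_v {n k : ℕ} (g : Fin (2 * k) → Option ((Fin n × Fin n) × Bool)) (a b : Fin n) : ℤ :=
  if ∃ i, g i = some ((a, b), true) ∨ g i = some ((b, a), true) then 1
  else if ∃ i, g i = some ((a, b), false) ∨ g i = some ((b, a), false) then -1 else 0

/-- a finite set of at most `m` elements is the set of the values `≠ none` of a function on `Fin m` -/
private theorem D2_enum {α : Type} [DecidableEq α] (S : Finset α) (m : ℕ) (h : S.card ≤ m) :
    ∃ g : Fin m → Option α, ∀ x, x ∈ S ↔ ∃ i, g i = some x := by
  let e := S.equivFin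
  refine ⟨fun i => if hi : (i : ℕ) < S.card then some ((e.symm ⟨i, hi⟩ : S) : α) else none, fun x => ?_⟩
  constructor
  · intro hx
    have h1 : ((e ⟨x, hx⟩ : Fin S.card) : ℕ) < S.card := (e ⟨x, hx⟩).2
    refine ⟨⟨(e ⟨x, hx⟩ : Fin S.card), h1.trans_le h⟩, ?_⟩
    simp
  · rintro ⟨i, hi⟩
    dsimp only at hi
    by_cases h1 : (i : ℕ) < S.card
    · rw [dif_pos h1] at hi
      have h2 := Option.some.inj hi
      rw [← h2]
      exact (e.symm ⟨i, h1⟩).2
    · rw [dif_neg h1] at hi
      exact absurd hi (by simp)

theorem card_vec (n k : ℕ) : ∃ s : Finset (Fin n → Fin n → ℤ), s.card ≤ (2 * n ^ 2 + 1) ^ (2 * k) ∧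
    ∀ v : Fin n → Fin n → ℤ, (∀ a b, v a b = v b a) → (∀ a, v a a = 0) → (∀ a b, v a b = 0 ∨ v a b = 1 ∨ v a b = -1) →
      (univ.filter fun q : Fin n × Fin n => v q.1 q.2 ≠ 0).card ≤ 4 * k → v ∈ s := by
  classical
  refine ⟨(univ : Finset (Fin (2 * k) → Option ((Fin n × Fin n) × Bool))).image D2_v, ?_, ?_⟩
  · refine card_image_le.trans ?_
    rw [card_univ]
    simp only [Fintype.card_fun, Fintype.card_option, Fintype.card_prod, Fintype.card_fin, Fintype.card_bool]
    apply Nat.pow_le_pow_left
    nlinarith
  · intro v hs hd hv hc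
    -- the pairs with `a < b` and the signs
    let S1 : Finset (Fin n × Fin n) := univ.filter fun q => q.1 < q.2 ∧ v q.1 q.2 ≠ 0
    let S : Finset ((Fin n × Fin n) × Bool) := S1.image fun q => (q, decide (v q.1 q.2 = 1))
    have hS1 : 2 * S1.card ≤ 4 * k := by
      have h1 : Disjoint S1 (S1.map ⟨Prod.swap, Prod.swap_injective⟩) := by
        rw [disjoint_left]
        intro q hq hq'
        rw [mem_map] at hq'
        obtain ⟨q', hq1, rfl⟩ := hq'
        rw [mem_filter] at hq hq1
        exact absurd hq.2.1 (not_lt.2 hq1.2.1.le)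
      have h2 : S1 ∪ S1.map ⟨Prod.swap, Prod.swap_injective⟩ ⊆ univ.filter fun q : Fin n × Fin n => v q.1 q.2 ≠ 0 := by
        intro q hq
        rw [mem_union, mem_map] at hq
        rw [mem_filter]
        rcases hq with hq | ⟨q', hq, rfl⟩
        · exact ⟨mem_univ _, (mem_filter.1 hq).2.2⟩
        · refine ⟨mem_univ _, ?_⟩
          show v q'.2 q'.1 ≠ 0
          rw [hs]
          exact (mem_filter.1 hq).2.2
      have h3 := card_le_card h2
      rw [card_union_of_disjoint h1, card_map] at h3
      omega
    obtain ⟨g, hg⟩ := D2_enum S (2 * k) (card_image_le.trans (by omega))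
    rw [mem_image]
    refine ⟨g, mem_univ _, ?_⟩
    have key : ∀ a b : Fin n, a < b → ∀ t : Bool, (∃ i, g i = some ((a, b), t)) ↔
        (v a b ≠ 0 ∧ decide (v a b = 1) = t) := by
      intro a b hab t
      rw [← hg, mem_image]
      constructor
      · rintro ⟨q, hq, h1⟩
        have h2 := Prod.ext_iff.1 h1
        have h3 : q = (a, b) := h2.1
        subst h3
        exact ⟨(mem_filter.1 hq).2.2, h2.2⟩
      · rintro ⟨h1, h2⟩
        exact ⟨(a, b), mem_filter.2 ⟨mem_univ _, hab, h1⟩, by rw [← h2]⟩
    have key2 : ∀ a b : Fin n, ¬ a < b → ∀ t : Bool, ¬ ∃ i, g i = some ((a, b), t) := by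
      intro a b hab t h
      rw [← hg, mem_image] at h
      obtain ⟨q, hq, h1⟩ := h
      have h2 := Prod.ext_iff.1 h1
      have h3 : q = (a, b) := h2.1
      subst h3
      exact hab (mem_filter.1 hq).2.1
    have main : ∀ a b : Fin n, a < b → D2_v g a b = v a b ∧ D2_v g b a = v b a := by
      intro a b hab
      have e1 : ∀ t : Bool, (∃ i, g i = some ((a, b), t) ∨ g i = some ((b, a), t)) ↔
          (v a b ≠ 0 ∧ decide (v a b = 1) = t) := by
        intro t
        rw [exists_or, key a b hab t]
        exact or_iff_left (key2 b a (not_lt.2 hab.le) t)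
      have e2 : ∀ t : Bool, (∃ i, g i = some ((b, a), t) ∨ g i = some ((a, b), t)) ↔
          (v a b ≠ 0 ∧ decide (v a b = 1) = t) := by
        intro t
        rw [← e1 t]
        exact exists_congr fun i => or_comm
      have h3 : (if v a b ≠ 0 ∧ decide (v a b = 1) = true then (1 : ℤ)
          else if v a b ≠ 0 ∧ decide (v a b = 1) = false then -1 else 0) = v a b := by
        rcases hv a b with h | h | h
        · simp [h]
        · simp [h]
        · simp [h]
      constructor
      · unfold D2_v
        rw [if_congr (e1 true) rfl (if_congr (e1 false) rfl rfl)]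
        exact h3
      · unfold D2_v
        rw [if_congr (e2 true) rfl (if_congr (e2 false) rfl rfl), hs b a]
        exact h3
    funext a b
    rcases lt_trichotomy a b with hab | hab | hab
    · exact (main a b hab).1
    · subst hab
      unfold D2_v
      have e : ∀ t : Bool, ¬ ∃ i, g i = some ((a, a), t) ∨ g i = some ((a, a), t) := by
        intro t h
        simp only [or_self] at h
        exact key2 a a (lt_irrefl a) t h
      rw [if_neg (e true), if_neg (e false), hd]
    · exact (main b a hab).2

end MTC
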