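import Pool.Agent.Lib.MP_0087d5_lcMT.ADefs
import Pool.Agent.Lib.MP_0087d5_lcMT.D1
import Pool.Agent.Lib.MP_0087d5_lcMT.D2

/-!
# Leaf D3 (medium): the weights `2 ^ eid mod m` are dissociated for some small `m`

Proof. For `v` in the set `s` of `card_vec` which satisfies the conditions of `Diss` and `v ≠ 0` let `N v = ∑ a, ∑ b, if a < b then v a b * 2 ^ eid a b else 0`. It is not zero, because
`eid` is injective on the pairs with `a < b` (`eid a b = nv (a, b)`, `nv_injective`) and a nonzero combination of different powers of 2 with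
coefficients `-1, 0, 1` is not zero (look at the largest exponent: `2 ^ e > ∑ i < e, 2 ^ i`; or the smallest one: divide by `2 ^ e`, the rest is odd). `|N v| < 2 ^ (n ^ 2)` (`eid_lt`). Take the prime `m` of
`exists_prime_avoid` for these `v`, with `L = n ^ 2`. `m ≥ 2`. Then
`∑ a, ∑ b, (wE m a b) * v a b = 2 * ∑ (a < b), (2 ^ eid a b % m) * v a b` (symmetry, zero diagonal), and the last sum is congruent to `N v` modulo `m`, so it is not zero.
-/

set_option autoImplicit false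

namespace MTC

open Finset Pool.Agent.PMNC

private lemma d3_pow {ι : Type} (s : Finset ι) (f : ι → ℕ) (hf : Set.InjOn f s) (c : ι → ℤ)
    (hc : ∀ i ∈ s, c i = 0 ∨ c i = 1 ∨ c i = -1) (hne : ∃ i ∈ s, c i ≠ 0) :
    ∑ i ∈ s, c i * 2 ^ f i ≠ 0 := by
  classical
  intro h0
  obtain ⟨i, hi, hci⟩ := hne
  have hT : (s.filter fun i => c i ≠ 0).Nonempty := ⟨i, Finset.mem_filter.2 ⟨hi, hci⟩⟩
  obtain ⟨i0, hi0, hmin⟩ := Finset.exists_min_image (s.filter fun i => c i ≠ 0) f hT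
  obtain ⟨hi0s, hci0⟩ := Finset.mem_filter.1 hi0
  rw [← Finset.add_sum_erase s _ hi0s] at h0
  have hd : (2 ^ (f i0 + 1) : ℤ) ∣ ∑ x ∈ s.erase i0, c x * 2 ^ f x := by
    refine Finset.dvd_sum fun x hx => ?_
    obtain ⟨hx1, hx2⟩ := Finset.mem_erase.1 hx
    by_cases hcx : c x = 0
    · rw [hcx, zero_mul]
      exact dvd_zero _
    · have h1 : f i0 ≤ f x := hmin x (Finset.mem_filter.2 ⟨hx2, hcx⟩)
      have h2 : f i0 ≠ f x := fun h => hx1 (hf hx2 hi0s h.symm)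
      have h3 : f i0 + 1 ≤ f x := by omega
      exact Dvd.dvd.mul_left (pow_dvd_pow 2 h3) _
  have hd2 : (2 ^ (f i0 + 1) : ℤ) ∣ c i0 * 2 ^ f i0 := by
    have h1 : c i0 * 2 ^ f i0 = -∑ x ∈ s.erase i0, c x * 2 ^ f x := by linarith
    rw [h1]
    exact (dvd_neg).2 hd
  have hd3 : (2 : ℤ) ∣ c i0 := by
    rw [pow_succ, mul_comm (c i0)] at hd2
    exact (mul_dvd_mul_iff_left (pow_ne_zero (f i0) (by norm_num : (2 : ℤ) ≠ 0))).1 hd2
  rcases hc i0 hi0s with h | h | h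
  · exact hci0 h
  · rw [h] at hd3
    norm_num at hd3
  · rw [h] at hd3
    norm_num at hd3

private lemma d3_inj (n : ℕ) : Set.InjOn (fun q : Fin n × Fin n => eid q.1 q.2)
    ((univ.filter fun q : Fin n × Fin n => q.1 < q.2 : Finset (Fin n × Fin n)) : Set (Fin n × Fin n)) := by
  rintro ⟨a, b⟩ h ⟨a', b'⟩ h' he
  have h1 : a < b := (Finset.mem_filter.1 h).2
  have h1' : a' < b' := (Finset.mem_filter.1 h').2
  have he' : eid a b = eid a' b' := he
  unfold eid at he'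
  rw [if_pos h1, if_pos h1'] at he'
  exact nv_injective (S := fun n => Fin n × Fin n) he'

private lemma d3_half (n : ℕ) (F : Fin n → Fin n → ℤ) (hs : ∀ a b, F a b = F b a) (hd : ∀ a, F a a = 0) :
    ∑ a, ∑ b, F a b = 2 * ∑ q ∈ univ.filter (fun q : Fin n × Fin n => q.1 < q.2), F q.1 q.2 := by
  have h0 : ∑ a, ∑ b, F a b = ∑ q : Fin n × Fin n, F q.1 q.2 :=
    (Fintype.sum_prod_type (fun q : Fin n × Fin n => F q.1 q.2)).symm
  have h1 : ∑ q : Fin n × Fin n, F q.1 q.2 =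
      ∑ q ∈ univ.filter (fun q : Fin n × Fin n => q.1 < q.2), F q.1 q.2 +
        ∑ q ∈ univ.filter (fun q : Fin n × Fin n => ¬ q.1 < q.2), F q.1 q.2 :=
    (Finset.sum_filter_add_sum_filter_not univ (fun q : Fin n × Fin n => q.1 < q.2) _).symm
  have h2 : ∑ q ∈ univ.filter (fun q : Fin n × Fin n => ¬ q.1 < q.2), F q.1 q.2 =
      ∑ q ∈ univ.filter (fun q : Fin n × Fin n => q.1 < q.2), F q.1 q.2 := by
    have h3 : ∑ q ∈ univ.filter (fun q : Fin n × Fin n => ¬ q.1 < q.2), F q.1 q.2 =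
        ∑ q ∈ univ.filter (fun q : Fin n × Fin n => q.2 < q.1), F q.1 q.2 := by
      symm
      refine Finset.sum_subset ?_ ?_
      · intro q hq
        rw [Finset.mem_filter] at hq ⊢
        exact ⟨hq.1, not_lt.2 hq.2.le⟩
      · intro q hq hq'
        have h4 : ¬ q.1 < q.2 := (Finset.mem_filter.1 hq).2
        have h5 : ¬ q.2 < q.1 := fun h => hq' (Finset.mem_filter.2 ⟨Finset.mem_univ _, h⟩)
        have h6 : q.1 = q.2 := le_antisymm (not_lt.1 h5) (not_lt.1 h4)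
        rw [h6]
        exact hd _
    rw [h3]
    refine Finset.sum_bij' (fun q _ => (q.2, q.1)) (fun q _ => (q.2, q.1)) ?_ ?_ ?_ ?_ ?_
    · intro q hq
      rw [Finset.mem_filter] at hq ⊢
      exact ⟨Finset.mem_univ _, hq.2⟩
    · intro q hq
      rw [Finset.mem_filter] at hq ⊢
      exact ⟨Finset.mem_univ _, hq.2⟩
    · intro q _
      rfl
    · intro q _
      rfl
    · intro q _
      exact hs _ _
  rw [h0, h1, h2]
  ring

theorem exists_diss (n k : ℕ) (hn : 2 ≤ n) :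
    ∃ m : ℕ, 2 ≤ m ∧ m ≤ 64 * (n ^ 2 * (2 * n ^ 2 + 1) ^ (2 * k) + 1) ^ 2 ∧ Diss (fun u v : Fin n => wE m u v) k := by
  classical
  obtain ⟨S, hSc, hS⟩ := card_vec n k
  set P : Finset (Fin n × Fin n) := univ.filter (fun q : Fin n × Fin n => q.1 < q.2) with hP
  set N : (Fin n → Fin n → ℤ) → ℤ := fun v => ∑ q ∈ P, v q.1 q.2 * 2 ^ eid q.1 q.2 with hN
  set T : Finset (Fin n → Fin n → ℤ) := S.filter fun v => (∀ a b, v a b = v b a) ∧ (∀ a, v a a = 0) ∧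
    (∀ a b, v a b = 0 ∨ v a b = 1 ∨ v a b = -1) ∧ v ≠ 0 with hT
  have hN0 : ∀ v ∈ T, N v ≠ 0 := by
    intro v hv
    obtain ⟨_, h1, h2, h3, h4⟩ := Finset.mem_filter.1 hv
    refine d3_pow P (fun q : Fin n × Fin n => eid q.1 q.2) (d3_inj n) (fun q => v q.1 q.2)
      (fun q _ => h3 q.1 q.2) ?_
    by_contra hcon
    push Not at hcon
    apply h4
    funext a b
    show v a b = 0
    rcases lt_trichotomy a b with h | h | h
    · exact hcon (a, b) (Finset.mem_filter.2 ⟨Finset.mem_univ _, h⟩)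
    · rw [h]
      exact h2 b
    · rw [h1]
      exact hcon (b, a) (Finset.mem_filter.2 ⟨Finset.mem_univ _, h⟩)
  have hNb : ∀ v ∈ T, |N v| < 2 ^ (n ^ 2) := by
    intro v hv
    obtain ⟨_, h1, h2, h3, h4⟩ := Finset.mem_filter.1 hv
    have h5 : |N v| ≤ ∑ q ∈ P, (2 : ℤ) ^ eid q.1 q.2 := by
      refine (Finset.abs_sum_le_sum_abs _ _).trans (Finset.sum_le_sum fun q _ => ?_)
      rw [abs_mul, abs_of_nonneg (by positivity : (0 : ℤ) ≤ 2 ^ eid q.1 q.2)]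
      have h6 : |v q.1 q.2| ≤ 1 := by
        rcases h3 q.1 q.2 with h | h | h <;> rw [h] <;> norm_num
      calc |v q.1 q.2| * 2 ^ eid q.1 q.2 ≤ 1 * 2 ^ eid q.1 q.2 :=
            mul_le_mul_of_nonneg_right h6 (by positivity)
        _ = 2 ^ eid q.1 q.2 := one_mul _
    have h7 : ∑ q ∈ P, (2 : ℕ) ^ eid q.1 q.2 < 2 ^ (n ^ 2) := by
      have h8 : ∑ q ∈ P, (2 : ℕ) ^ eid q.1 q.2 = ∑ e ∈ P.image (fun q : Fin n × Fin n => eid q.1 q.2), 2 ^ e :=
        (Finset.sum_image (d3_inj n)).symm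
      rw [h8]
      refine Nat.geomSum_lt le_rfl fun e he => ?_
      obtain ⟨q, _, rfl⟩ := Finset.mem_image.1 he
      exact eid_lt q.1 q.2
    have h9 : ∑ q ∈ P, (2 : ℤ) ^ eid q.1 q.2 < 2 ^ (n ^ 2) := by exact_mod_cast h7
    exact lt_of_le_of_lt h5 h9
  obtain ⟨m, hm, hmd, hmb⟩ := exists_prime_avoid T N hN0 (n ^ 2) hNb
  refine ⟨m, hm.two_le, ?_, ?_⟩
  · refine hmb.trans ?_
    have h1 : T.card ≤ (2 * n ^ 2 + 1) ^ (2 * k) := (Finset.card_filter_le _ _).trans hSc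
    gcongr
  · intro v h1 h2 h3 h4 h5 h6
    have hvT : v ∈ T := Finset.mem_filter.2 ⟨hS v h1 h2 h3 h5, h1, h2, h3, h4⟩
    apply hmd v hvT
    have h7 : ∑ q ∈ P, ((wE m q.1 q.2 : ℕ) : ℤ) * v q.1 q.2 = 0 := by
      have h8 := d3_half n (fun a b => ((wE m a b : ℕ) : ℤ) * v a b)
        (fun a b => by rw [wE_comm, h1]) (fun a => by rw [h2, mul_zero])
      have h9 : (2 : ℤ) * ∑ q ∈ P, ((wE m q.1 q.2 : ℕ) : ℤ) * v q.1 q.2 = 0 := by
        rw [← h6]
        exact h8.symm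
      have h10 := mul_eq_zero.1 h9
      rcases h10 with h | h
      · norm_num at h
      · exact h
    have h8 : N v = N v - ∑ q ∈ P, ((wE m q.1 q.2 : ℕ) : ℤ) * v q.1 q.2 := by rw [h7, sub_zero]
    rw [h8, hN]
    show (m : ℤ) ∣ ∑ q ∈ P, v q.1 q.2 * 2 ^ eid q.1 q.2 - ∑ q ∈ P, ((wE m q.1 q.2 : ℕ) : ℤ) * v q.1 q.2
    rw [← Finset.sum_sub_distrib]
    refine Finset.dvd_sum fun q _ => ?_
    have h9 : v q.1 q.2 * 2 ^ eid q.1 q.2 - ((wE m q.1 q.2 : ℕ) : ℤ) * v q.1 q.2 =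
        (2 ^ eid q.1 q.2 - ((wE m q.1 q.2 : ℕ) : ℤ)) * v q.1 q.2 := by ring
    rw [h9]
    refine Dvd.dvd.mul_right ?_ _
    unfold wE
    rw [if_pos hm.two_le]
    have h10 : ((2 ^ eid q.1 q.2 : ℕ) : ℤ) - ((2 ^ eid q.1 q.2 % m : ℕ) : ℤ) =
        (m : ℤ) * ((2 ^ eid q.1 q.2 / m : ℕ) : ℤ) := by
      have h11 : m * (2 ^ eid q.1 q.2 / m) + 2 ^ eid q.1 q.2 % m = 2 ^ eid q.1 q.2 := Nat.div_add_mod _ _
      have h12 : ((m * (2 ^ eid q.1 q.2 / m) + 2 ^ eid q.1 q.2 % m : ℕ) : ℤ) = ((2 ^ eid q.1 q.2 : ℕ) : ℤ) := by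
        rw [h11]
      rw [Nat.cast_add, Nat.cast_mul] at h12
      linarith
    have h13 : ((2 ^ eid q.1 q.2 : ℕ) : ℤ) = (2 : ℤ) ^ eid q.1 q.2 := by push_cast; rfl
    rw [← h13, h10]
    exact dvd_mul_right _ _

end MTC
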