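import Pool.Agent.Lib.MP_0087d5_lcMT.MDefs

/-!
# Leaf E1 (medium): the support of a point of the matching polytope has a perfect matching

Proof. Let `G : SimpleGraph V` be the support, `G.Adj u v ↔ x u v ≠ 0` (irreflexive by `diag`, symmetric by `symm`). Tutte's theorem is in
Mathlib (`SimpleGraph.tutte`): `(∃ M : Subgraph G, M.IsPerfectMatching) ↔ ∀ u, ¬ G.IsTutteViolator u`. Let `U : Set V` be a violator:
`U.ncard < ((⊤ : G.Subgraph).deleteVerts U).coe.oddComponents.ncard`. For an odd component `C` (a finite set of vertices outside `U`, of odd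
cardinality; as a `Finset V`), `1 ≤ cut x C` by `odd`, and `x u v ≠ 0` with `u ∈ C`, `v ∉ C` implies `v ∈ U` (otherwise `v` is in the
component). So `#odd components ≤ ∑ C, ∑ u ∈ C, ∑ v ∈ U, x u v ≤ ∑ v ∈ U, ∑ u, x u v = #U` (the components are disjoint, `x` is
symmetric). Contradiction. The perfect matching `M` gives the map `f` (the partner).
-/

set_option autoImplicit false

namespace MTC

open Finset

variable {V : Type} [Fintype V] [DecidableEq V]

/-- the vertices of a component of the graph without `U` -/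
private noncomputable def e1S (G : SimpleGraph V) (U : Set V)
    (C : ((⊤ : G.Subgraph).deleteVerts U).coe.ConnectedComponent) : Finset V :=
  (Set.toFinite (Subtype.val '' C.supp)).toFinset

omit [DecidableEq V] in
private theorem e1_mem (G : SimpleGraph V) (U : Set V)
    (C : ((⊤ : G.Subgraph).deleteVerts U).coe.ConnectedComponent) (v : V) :
    v ∈ e1S G U C ↔ ∃ h : v ∈ ((⊤ : G.Subgraph).deleteVerts U).verts,
      ((⊤ : G.Subgraph).deleteVerts U).coe.connectedComponentMk ⟨v, h⟩ = C := by
  simp only [e1S, Set.Finite.mem_toFinset, Set.mem_image]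
  constructor
  · rintro ⟨⟨w, hw⟩, h1, rfl⟩
    exact ⟨hw, h1⟩
  · rintro ⟨h, h1⟩
    exact ⟨⟨v, h⟩, h1, rfl⟩

omit [DecidableEq V] in
private theorem e1_card (G : SimpleGraph V) (U : Set V)
    (C : ((⊤ : G.Subgraph).deleteVerts U).coe.ConnectedComponent) : (e1S G U C).card = C.supp.ncard := by
  rw [e1S, ← Set.ncard_eq_toFinset_card, Set.ncard_image_of_injective _ Subtype.val_injective]

omit [DecidableEq V] in
private theorem e1_disj (G : SimpleGraph V) (U : Set V)
    (C D : ((⊤ : G.Subgraph).deleteVerts U).coe.ConnectedComponent) (h : C ≠ D) :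
    Disjoint (e1S G U C) (e1S G U D) := by
  rw [Finset.disjoint_left]
  intro v hC hD
  obtain ⟨h1, e1⟩ := (e1_mem G U C v).1 hC
  obtain ⟨h2, e2⟩ := (e1_mem G U D v).1 hD
  exact h (e1.symm.trans e2)

omit [DecidableEq V] in
private theorem e1_adj (G : SimpleGraph V) (U : Set V)
    (C : ((⊤ : G.Subgraph).deleteVerts U).coe.ConnectedComponent) {u v : V} (hu : u ∈ e1S G U C)
    (hv : v ∉ e1S G U C) (h : G.Adj u v) : v ∈ U := by
  by_contra hvU
  apply hv
  obtain ⟨h1, e1⟩ := (e1_mem G U C u).1 hu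
  have h2 : v ∈ ((⊤ : G.Subgraph).deleteVerts U).verts := by
    rw [SimpleGraph.Subgraph.deleteVerts_verts]
    exact ⟨trivial, hvU⟩
  refine (e1_mem G U C v).2 ⟨h2, ?_⟩
  rw [← e1]
  apply SimpleGraph.ConnectedComponent.sound
  apply SimpleGraph.Adj.reachable
  rw [SimpleGraph.Subgraph.coe_adj, SimpleGraph.Subgraph.deleteVerts_adj]
  rw [SimpleGraph.Subgraph.deleteVerts_verts] at h1
  exact ⟨trivial, hvU, trivial, h1.2, h.symm⟩

theorem exists_pm (x : V → V → ℝ) (hx : FP x) : ∃ f : V → V, IsPM (fun u v => x u v ≠ 0) f := by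
  classical
  let G : SimpleGraph V :=
    { Adj := fun u v => x u v ≠ 0
      symm := ⟨fun u v h => by
        rw [← hx.symm u v]
        exact h⟩
      loopless := ⟨fun u h => h (hx.diag u)⟩ }
  have hG : ∃ M : G.Subgraph, M.IsPerfectMatching := by
    rw [SimpleGraph.tutte]
    intro U hU
    rw [SimpleGraph.IsTutteViolator] at hU
    let Uf : Finset V := U.toFinite.toFinset
    have hUf : ∀ v, v ∈ Uf ↔ v ∈ U := fun v => Set.Finite.mem_toFinset _
    let O : Finset ((⊤ : G.Subgraph).deleteVerts U).coe.ConnectedComponent :=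
      (Set.toFinite ((⊤ : G.Subgraph).deleteVerts U).coe.oddComponents).toFinset
    have h1 : U.ncard = Uf.card := Set.ncard_eq_toFinset_card _ _
    have h2 : ((⊤ : G.Subgraph).deleteVerts U).coe.oddComponents.ncard = O.card := Set.ncard_eq_toFinset_card _ _
    have h3 : ∀ C ∈ O, (1 : ℝ) ≤ ∑ u ∈ e1S G U C, ∑ v ∈ Uf, x u v := by
      intro C hC
      have hodd : Odd (e1S G U C).card := by
        rw [e1_card]
        have hC' : C ∈ ((⊤ : G.Subgraph).deleteVerts U).coe.oddComponents := (Set.Finite.mem_toFinset _).1 hC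
        exact hC'
      refine (hx.odd _ hodd).trans ?_
      rw [cut]
      refine Finset.sum_le_sum fun u hu => ?_
      have h4 : ∑ v ∈ (e1S G U C)ᶜ, x u v = ∑ v ∈ (e1S G U C)ᶜ.filter (fun v => v ∈ Uf), x u v := by
        rw [Finset.sum_filter]
        refine Finset.sum_congr rfl fun v hv => ?_
        split_ifs with h5
        · rfl
        · by_contra h6
          exact h5 ((hUf v).2 (e1_adj G U C hu (Finset.mem_compl.1 hv) h6))
      rw [h4]
      exact Finset.sum_le_sum_of_subset_of_nonneg (fun v hv => (Finset.mem_filter.1 hv).2)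
        (fun v _ _ => hx.nonneg u v)
    have h4 : (O.card : ℝ) ≤ Uf.card := by
      calc (O.card : ℝ) = ∑ _C ∈ O, (1 : ℝ) := by simp
        _ ≤ ∑ C ∈ O, ∑ u ∈ e1S G U C, ∑ v ∈ Uf, x u v := Finset.sum_le_sum h3
        _ = ∑ u ∈ O.biUnion (e1S G U), ∑ v ∈ Uf, x u v := by
            rw [Finset.sum_biUnion]
            intro C _ D _ hCD
            exact e1_disj G U C D hCD
        _ ≤ ∑ u, ∑ v ∈ Uf, x u v := Finset.sum_le_sum_of_subset_of_nonneg (Finset.subset_univ _)
            (fun u _ _ => Finset.sum_nonneg fun v _ => hx.nonneg u v)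
        _ = ∑ v ∈ Uf, ∑ u, x u v := Finset.sum_comm
        _ = ∑ v ∈ Uf, (1 : ℝ) := Finset.sum_congr rfl fun v _ => by
            rw [← hx.row v]
            exact Finset.sum_congr rfl fun u _ => hx.symm u v
        _ = Uf.card := by simp
    have h5 : O.card ≤ Uf.card := by exact_mod_cast h4
    omega
  obtain ⟨M, hM⟩ := hG
  rw [SimpleGraph.Subgraph.isPerfectMatching_iff] at hM
  choose f hf hf2 using hM
  refine ⟨f, fun v => (hf2 (f v) v (hf v).symm).symm, fun v => ?_⟩
  exact M.adj_sub (hf v)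

end MTC
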