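import Pool.Agent.Lib.MP_0087d5_lcMT.MDefs

/-!
# Leaf E2 (medium): moving away from a perfect matching until a constraint becomes tight

Proof. For `s ≥ 0` let `x_s = x + s (x - chi f)`. Since `x ≠ chi f` and the rows of both sum to 1, there are `u, v` with
`x u v < chi f u v`, so `f u = v` and `x u v < 1`. `x_s` is symmetric (`f` is an involution), has diagonal 0 and row sums 1. The constraints
that can fail are: `0 ≤ x_s u (f u) = (1 + s) x u (f u) - s` (for the other pairs `x_s = (1 + s) x ≥ 0`) and `1 ≤ cut x_s S = (1 + s) cut x S - s c`,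
`c = cut (chi f) S` = number of `u ∈ S` with `f u ∉ S`. If `S` or its complement has less than three elements and `S` is odd, `card V` even, then
`S` or the complement is a singleton and the cut is a row sum, 1 for all `s` (`card V` is even because `f` is an involution without fixed point,
`diag` and `hf`; `cut x S = cut x Sᶜ` by symmetry). The other odd sets have `1 < cut x S` by `hnt`. The set of all `s ≥ 0` for which all the
constraints hold is closed, contains a neighbourhood of 0 in `[0, ∞)` (finitely many affine functions which are positive at `s = 0`: `x u (f u) > 0`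
by `hf` and `nonneg`, `cut x S - 1 > 0`) and is bounded (`x u v < 1` for one edge of `f`). Take its maximum `s` (simplest: let `s` be the minimum, over the
finitely many affine functions `a - b s` among them with `b > 0`, of `a / b`; there is one such, the edge with `x u (f u) < 1`). Then `s > 0`, `x' = x_s`
satisfies `FP`, and for the function which attains the minimum either `x' u (f u) = 0` for some `u`, or `cut x' S = 1` for some nontrivial odd `S`.
-/

set_option autoImplicit false

namespace MTC

open Finset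

variable {V : Type} [Fintype V] [DecidableEq V]

/-- the maximal step such that finitely many affine functions stay nonnegative -/
private theorem E2_step {ι : Type} [Fintype ι] (a b : ι → ℝ) (ha : ∀ i, 0 < a i) (hb : ∃ i, 0 < b i) :
    ∃ s : ℝ, 0 < s ∧ (∀ i, 0 ≤ a i - s * b i) ∧ ∃ i, a i - s * b i = 0 := by
  classical
  obtain ⟨i1, h1⟩ := hb
  obtain ⟨i0, h0, hmin⟩ := Finset.exists_min_image (univ.filter fun i => 0 < b i)
    (fun i => a i / b i) ⟨i1, Finset.mem_filter.2 ⟨mem_univ _, h1⟩⟩
  have hb0 : 0 < b i0 := (Finset.mem_filter.1 h0).2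
  have hs : 0 < a i0 / b i0 := div_pos (ha i0) hb0
  refine ⟨a i0 / b i0, hs, fun i => ?_, i0, ?_⟩
  · by_cases hi : 0 < b i
    · have h2 := hmin i (Finset.mem_filter.2 ⟨mem_univ _, hi⟩)
      have h3 : a i0 / b i0 * b i ≤ a i / b i * b i := mul_le_mul_of_nonneg_right h2 hi.le
      rw [div_mul_cancel₀ _ hi.ne'] at h3
      linarith
    · have h4 : a i0 / b i0 * b i ≤ 0 := mul_nonpos_of_nonneg_of_nonpos hs.le (not_lt.1 hi)
      have := ha i
      linarith
  · rw [div_mul_cancel₀ _ hb0.ne', sub_self]

private theorem E2_cut_lin (x y : V → V → ℝ) (p q : ℝ) (S : Finset V) :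
    cut (fun u v => p * x u v - q * y u v) S = p * cut x S - q * cut y S := by
  unfold cut
  simp only [Finset.sum_sub_distrib, Finset.mul_sum]

private theorem E2_cut_compl (x : V → V → ℝ) (hx : ∀ u v, x u v = x v u) (S : Finset V) :
    cut x Sᶜ = cut x S := by
  unfold cut
  rw [compl_compl, Finset.sum_comm]
  exact Finset.sum_congr rfl fun u _ => Finset.sum_congr rfl fun v _ => hx v u

private theorem E2_cut_single (x : V → V → ℝ) (a : V) (hd : x a a = 0) (hr : ∑ v, x a v = 1) :
    cut x {a} = 1 := by
  unfold cut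
  rw [Finset.sum_singleton, ← hr, ← Finset.sum_add_sum_compl {a} (fun v => x a v),
    Finset.sum_singleton, hd, zero_add]

private theorem E2_row (f : V → V) (u : V) : ∑ v, chi f u v = 1 := by
  unfold chi
  rw [Finset.sum_ite_eq]
  simp

theorem push (x : V → V → ℝ) (hx : FP x) (f : V → V) (hf : IsPM (fun u v => x u v ≠ 0) f) (hne : x ≠ chi f)
    (hnt : ∀ S : Finset V, Odd S.card → 3 ≤ S.card → 3 ≤ Sᶜ.card → 1 < cut x S) :
    ∃ (s : ℝ) (x' : V → V → ℝ), 0 < s ∧ FP x' ∧ (∀ u v, x u v = (1 + s)⁻¹ * x' u v + (s * (1 + s)⁻¹) * chi f u v) ∧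
      (∀ u v, x' u v ≠ 0 → x u v ≠ 0) ∧
      ((∃ u v, x' u v = 0 ∧ x u v ≠ 0) ∨ ∃ S : Finset V, Odd S.card ∧ 3 ≤ S.card ∧ 3 ≤ Sᶜ.card ∧ cut x' S = 1) := by
  classical
  have hff : ∀ v, f (f v) = v := hf.1
  have hpos : ∀ u, 0 < x u (f u) := fun u => lt_of_le_of_ne (hx.nonneg _ _) (Ne.symm (hf.2 u))
  have hfu : ∀ u, f u ≠ u := fun u h => by
    have h1 := hf.2 u
    rw [h] at h1
    exact h1 (hx.diag u)
  have hle : ∀ u v, x u v ≤ 1 := fun u v => by
    rw [← hx.row u]
    exact Finset.single_le_sum (f := fun v => x u v) (fun w _ => hx.nonneg u w) (mem_univ v)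
  -- one edge of `f` has value less than one
  have hex : ∃ u, 0 < 1 - x u (f u) := by
    by_contra hcon
    push Not at hcon
    apply hne
    funext u v
    unfold chi
    have h1 : x u (f u) = 1 := le_antisymm (hle u (f u)) (by linarith [hcon u])
    by_cases huv : f u = v
    · rw [if_pos huv, ← huv, h1]
    · rw [if_neg huv]
      have h2 := hx.row u
      rw [← Finset.add_sum_erase univ (fun w => x u w) (mem_univ (f u)), h1] at h2
      have h3 : ∑ w ∈ univ.erase (f u), x u w = 0 := by linarith
      have h4 := (Finset.sum_eq_zero_iff_of_nonneg (fun w _ => hx.nonneg u w)).1 h3 v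
        (Finset.mem_erase.2 ⟨fun h => huv h.symm, mem_univ v⟩)
      exact h4
  obtain ⟨s, hs, hall, hatt⟩ := E2_step
    (ι := V ⊕ {S : Finset V // Odd S.card ∧ 3 ≤ S.card ∧ 3 ≤ Sᶜ.card})
    (Sum.elim (fun u => x u (f u)) (fun S => cut x S.1 - 1))
    (Sum.elim (fun u => 1 - x u (f u)) (fun S => cut (chi f) S.1 - cut x S.1))
    (by
      rintro (u | S)
      · exact hpos u
      · have := hnt S.1 S.2.1 S.2.2.1 S.2.2.2
        simp only [Sum.elim_inr]
        linarith)
    (by
      obtain ⟨u, hu⟩ := hex
      exact ⟨Sum.inl u, hu⟩)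
  have hcutS : ∀ S : Finset V, cut (fun u v => (1 + s) * x u v - s * chi f u v) S =
      (1 + s) * cut x S - s * cut (chi f) S := fun S => E2_cut_lin x (chi f) (1 + s) s S
  have hedge : ∀ u, (1 + s) * x u (f u) - s * chi f u (f u) =
      x u (f u) - s * (1 - x u (f u)) := by
    intro u
    unfold chi
    rw [if_pos rfl]
    ring
  have hchis : ∀ u v, chi f u v = chi f v u := by
    intro u v
    unfold chi
    by_cases huv : f u = v
    · rw [if_pos huv, if_pos (by rw [← huv, hff])]
    · rw [if_neg huv, if_neg (fun h => huv (by rw [← h, hff]))]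
  have hsym : ∀ u v, (1 + s) * x u v - s * chi f u v = (1 + s) * x v u - s * chi f v u := by
    intro u v
    rw [hx.symm u v, hchis u v]
  have hdiag : ∀ u, (1 + s) * x u u - s * chi f u u = 0 := by
    intro u
    unfold chi
    rw [if_neg (hfu u), hx.diag u]
    ring
  have hrow : ∀ u, ∑ v, ((1 + s) * x u v - s * chi f u v) = 1 := by
    intro u
    rw [Finset.sum_sub_distrib, ← Finset.mul_sum, ← Finset.mul_sum, hx.row u, E2_row f u]
    ring
  have heven : Even (Fintype.card V) := by
    rw [← Nat.not_odd_iff_even]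
    intro hodd
    have h1 := hx.odd univ (by rwa [Finset.card_univ])
    unfold cut at h1
    simp only [Finset.compl_univ, Finset.sum_empty, Finset.sum_const_zero] at h1
    linarith
  have hodd : ∀ S : Finset V, Odd S.card →
      1 ≤ cut (fun u v => (1 + s) * x u v - s * chi f u v) S := by
    intro S hS
    have hc := Finset.card_add_card_compl S
    by_cases h3 : 3 ≤ S.card
    · by_cases h4 : 3 ≤ Sᶜ.card
      · have h5 := hall (Sum.inr ⟨S, hS, h3, h4⟩)
        simp only [Sum.elim_inr] at h5
        rw [hcutS]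
        linarith
      · have h5 : Sᶜ.card = 1 := by
          obtain ⟨p, hp⟩ := hS
          obtain ⟨q, hq⟩ := heven
          omega
        obtain ⟨a, ha⟩ := Finset.card_eq_one.1 h5
        rw [← E2_cut_compl _ hsym S, ha, E2_cut_single _ a (hdiag a) (hrow a)]
    · have h5 : S.card = 1 := by
        obtain ⟨p, hp⟩ := hS
        omega
      obtain ⟨a, ha⟩ := Finset.card_eq_one.1 h5
      rw [ha, E2_cut_single _ a (hdiag a) (hrow a)]
  refine ⟨s, fun u v => (1 + s) * x u v - s * chi f u v, hs, ⟨?_, hsym, hdiag, hrow, hodd⟩,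
    ?_, ?_, ?_⟩
  · intro u v
    by_cases huv : f u = v
    · rw [← huv, hedge]
      exact hall (Sum.inl u)
    · unfold chi
      rw [if_neg huv, mul_zero, sub_zero]
      exact mul_nonneg (by linarith) (hx.nonneg u v)
  · intro u v
    have h1 : (1 + s) ≠ 0 := by linarith
    field_simp
    ring
  · intro u v h h0
    apply h
    have h1 : f u ≠ v := fun h2 => hf.2 u (by rw [h2]; exact h0)
    change (1 + s) * x u v - s * chi f u v = 0
    unfold chi
    rw [if_neg h1, h0]
    ring
  · obtain ⟨i, hi⟩ := hatt
    rcases i with u | S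
    · left
      exact ⟨u, f u, (hedge u).trans hi, hf.2 u⟩
    · right
      refine ⟨S.1, S.2.1, S.2.2.1, S.2.2.2, ?_⟩
      simp only [Sum.elim_inr] at hi
      rw [hcutS]
      linarith

end MTC
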