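import Pool.Agent.Lib.MP_0087d5_lcMT.MDefs

/-!
# Leaf E3 (medium): contraction of a tight set

`con x S` is the matrix on `Option {v // v ∉ S}` (`none` = the contracted set `S`).

Proof. `row` for `none`: `∑ b ∉ S, ∑ a ∈ S, x a b = cut x S = 1`. `row` for `some a`: `∑ b ∉ S, x a b + ∑ b ∈ S, x a b = 1`.
`odd`: let `T` be an odd set of `Option {v // v ∉ S}`, let `T' ⊆ V` be its preimage (`T' = {v ∉ S | some v ∈ T} ∪ (S if none ∈ T)`). Its cardinality is
odd (`card S` is odd), and `cut (con x S) T = cut x T'`.
-/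

set_option autoImplicit false

namespace MTC

open Finset

variable {V : Type} [Fintype V] [DecidableEq V]

/-- contraction of the set `S` -/
noncomputable def con (x : V → V → ℝ) (S : Finset V) : Option {v // v ∉ S} → Option {v // v ∉ S} → ℝ
  | none, none => 0
  | none, some b => ∑ a ∈ S, x a b
  | some a, none => ∑ b ∈ S, x a b
  | some a, some b => x a b

/-- the contraction map -/
private def E3_pi (S : Finset V) (v : V) : Option {v // v ∉ S} :=
  if h : v ∈ S then none else some ⟨v, h⟩

omit [Fintype V] in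
private theorem E3_pi_none {S : Finset V} {v : V} : E3_pi S v = none ↔ v ∈ S := by
  unfold E3_pi
  by_cases h : v ∈ S
  · simp [h]
  · simp [h]

omit [Fintype V] in
private theorem E3_pi_some {S : Finset V} {v : V} {b : {v // v ∉ S}} :
    E3_pi S v = some b ↔ v = b.1 := by
  unfold E3_pi
  by_cases h : v ∈ S
  · rw [dif_pos h]
    constructor
    · intro h2
      exact absurd h2 (by simp)
    · intro h2
      exact absurd (h2 ▸ h) b.2
  · rw [dif_neg h, Option.some.injEq, Subtype.ext_iff]

private theorem E3_filter_none (S : Finset V) : univ.filter (fun v => E3_pi S v = none) = S := by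
  ext v
  simp [E3_pi_none]

private theorem E3_filter_some (S : Finset V) (b : {v // v ∉ S}) :
    univ.filter (fun v => E3_pi S v = some b) = {b.1} := by
  ext v
  simp [E3_pi_some]

private theorem E3_con (x : V → V → ℝ) (S : Finset V) {i j : Option {v // v ∉ S}} (h : i ≠ j) :
    con x S i j = ∑ u ∈ univ.filter (fun u => E3_pi S u = i),
      ∑ v ∈ univ.filter (fun v => E3_pi S v = j), x u v := by
  rcases i with _ | a <;> rcases j with _ | b
  · exact absurd rfl h
  · rw [E3_filter_none, E3_filter_some]
    simp only [sum_singleton]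
    rfl
  · rw [E3_filter_none, E3_filter_some, sum_singleton]
    rfl
  · rw [E3_filter_some, E3_filter_some, sum_singleton, sum_singleton]
    rfl

private theorem E3_sum (S : Finset V) (T : Finset (Option {v // v ∉ S})) (g : V → ℝ) :
    ∑ i ∈ T, ∑ u ∈ univ.filter (fun u => E3_pi S u = i), g u =
      ∑ u ∈ univ.filter (fun u => E3_pi S u ∈ T), g u := by
  rw [← sum_fiberwise_of_maps_to (s := univ.filter (fun u => E3_pi S u ∈ T)) (t := T)
    (g := E3_pi S) (fun u hu => (mem_filter.1 hu).2)]
  refine sum_congr rfl fun i hi => sum_congr ?_ fun _ _ => rfl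
  ext u
  simp only [mem_filter, mem_univ, true_and]
  exact ⟨fun h => ⟨h ▸ hi, h⟩, fun h => h.2⟩

private theorem E3_cut (x : V → V → ℝ) (S : Finset V) (T : Finset (Option {v // v ∉ S})) :
    cut (con x S) T = cut x (univ.filter (fun u => E3_pi S u ∈ T)) := by
  unfold cut
  have h1 : ∀ i ∈ T, ∑ j ∈ Tᶜ, con x S i j = ∑ u ∈ univ.filter (fun u => E3_pi S u = i),
      ∑ v ∈ (univ.filter (fun u => E3_pi S u ∈ T))ᶜ, x u v := by
    intro i hi
    have h2 : ∀ j ∈ Tᶜ, con x S i j = ∑ u ∈ univ.filter (fun u => E3_pi S u = i),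
        ∑ v ∈ univ.filter (fun v => E3_pi S v = j), x u v := by
      intro j hj
      refine E3_con x S ?_
      rintro rfl
      exact (mem_compl.1 hj) hi
    rw [sum_congr rfl h2, sum_comm]
    refine sum_congr rfl fun u _ => ?_
    rw [E3_sum S Tᶜ (fun v => x u v)]
    refine sum_congr ?_ fun _ _ => rfl
    ext v
    simp
  rw [sum_congr rfl h1]
  exact E3_sum S T (fun u => ∑ v ∈ (univ.filter (fun u => E3_pi S u ∈ T))ᶜ, x u v)

private theorem E3_odd {S : Finset V} (hS : Odd S.card) {T : Finset (Option {v // v ∉ S})}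
    (hT : Odd T.card) : Odd (univ.filter (fun u => E3_pi S u ∈ T)).card := by
  have h1 : (univ.filter (fun u => E3_pi S u ∈ T)).card =
      ∑ i ∈ T, ((univ.filter (fun u => E3_pi S u ∈ T)).filter (fun u => E3_pi S u = i)).card :=
    card_eq_sum_card_fiberwise fun u hu => (mem_filter.1 hu).2
  rw [h1, odd_sum_iff_odd_card_odd]
  have h2 : T.filter (fun i =>
      Odd ((univ.filter (fun u => E3_pi S u ∈ T)).filter (fun u => E3_pi S u = i)).card) = T := by
    refine filter_true_of_mem fun i hi => ?_
    have h3 : (univ.filter (fun u => E3_pi S u ∈ T)).filter (fun u => E3_pi S u = i) =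
        univ.filter (fun u => E3_pi S u = i) := by
      ext u
      simp only [mem_filter, mem_univ, true_and]
      exact ⟨fun h => h.2, fun h => ⟨h ▸ hi, h⟩⟩
    rw [h3]
    rcases i with _ | b
    · rw [E3_filter_none]
      exact hS
    · rw [E3_filter_some, card_singleton]
      exact odd_one
  rw [h2]
  exact hT

private theorem E3_split (S : Finset V) (f : V → ℝ) :
    ∑ a ∈ S, f a + ∑ b : {v // v ∉ S}, f b.1 = ∑ v, f v := by
  rw [← sum_add_sum_compl S f, sum_subtype Sᶜ (fun v => mem_compl) f]

theorem con_fp (x : V → V → ℝ) (hx : FP x) (S : Finset V) (hS : Tight x S) : FP (con x S) := by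
  refine ⟨?_, ?_, ?_, ?_, ?_⟩
  · intro i j
    rcases i with _ | a <;> rcases j with _ | b
    · exact le_rfl
    · exact sum_nonneg fun a _ => hx.nonneg _ _
    · exact sum_nonneg fun b _ => hx.nonneg _ _
    · exact hx.nonneg _ _
  · intro i j
    rcases i with _ | a <;> rcases j with _ | b
    · rfl
    · exact sum_congr rfl fun a _ => hx.symm _ _
    · exact sum_congr rfl fun b _ => hx.symm _ _
    · exact hx.symm _ _
  · intro i
    rcases i with _ | a
    · rfl
    · exact hx.diag _
  · intro i
    rw [Fintype.sum_option]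
    rcases i with _ | a
    · show (0 : ℝ) + ∑ b : {v // v ∉ S}, ∑ a ∈ S, x a b.1 = 1
      rw [zero_add, sum_comm, ← hS.2]
      unfold cut
      refine sum_congr rfl fun a _ => ?_
      rw [sum_subtype Sᶜ (fun v => mem_compl) (fun v => x a v)]
    · show ∑ b ∈ S, x a.1 b + ∑ b : {v // v ∉ S}, x a.1 b.1 = 1
      rw [E3_split S (fun v => x a.1 v)]
      exact hx.row _
  · intro T hT
    rw [E3_cut]
    exact hx.odd _ (E3_odd hS.1 hT)

end MTC
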