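import Pool.Agent.Lib.MP_0087d5_lcMT.E3

/-!
# Leaf E4 (medium+): gluing the decompositions of the two contractions of a tight set

`Dec x`: `x` is a convex combination of perfect matchings.

Proof. Let `x` be symmetric with diagonal 0, nonnegative, `cut x S = 1`. Let `μ` be a decomposition of `con x S` (on `W = Option {v // v ∉ S}`) and `ν` one of
`con x Sᶜ` (on `W' = Option {v // v ∉ Sᶜ}`). For a perfect matching `g` of `W` let `b(g) ∉ S` be the partner of `none` (`g none = some b`; `g none ≠ none`
because `con x S none none = 0`), for a perfect matching `h` of `W'` let `a(h) ∈ S` be the partner of `none`. For a pair `(a, b)`, `a ∈ S`, `b ∉ S`,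
`glue g h` is defined only after the choice of the edge between `S` and its complement, so do it in this way. A pair `(g, h)` with `a(h) = a`,
`b(g) = b` is glued to the perfect matching `f` of `V` with `f a = b`, `f b = a`, `f v = g v` for the other `v ∉ S` (`g (some v) = some (f v)`), `f v = h v`
for the other `v ∈ S`. The marginals: `p(b) := μ {g : b(g) = b} = con x S none (some b) = ∑ a ∈ S, x a b`, `q(a) := ν {h : a(h) = a} = ∑ b ∉ S, x a b`.
The measure on the triples `(g, h)` with weight `x a b * μ g * ν h / (p(b) * q(a))` where `a = a(h)`, `b = b(g)` (zero if `x a b = 0`; then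
`p(b), q(a) > 0` otherwise) has total mass `∑ a ∈ S, ∑ b ∉ S, x a b = 1`, and the probability that the pair `(u, v)` is an edge of the glued matching is
`x u v`: for `u ∈ S, v ∉ S` it is `∑ x u v μ g ν h / (p(v) q(u))` over `a(h) = u`, `b(g) = v`, which is `x u v`; for `u, v ∉ S`, given `g` the sum
over `h` of the weights is `μ g * (∑ a, x a b(g)) / p(b(g)) = μ g`, so the probability is `∑ {g : g (some u) = some v} μ g = x u v`; in the same way for
`u, v ∈ S` with `ν`.
Suggestion: work with functions on `(W → W) × (W' → W')`, and let `glue (g, h) : V → V` be total (junk if `g`, `h` are not matchings): `glue (g, h) v` for `v ∉ S` is `w` if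
`g (some v) = some w`, and `a(h)` if `g (some v) = none`; for `v ∈ S` it is `w` if `h (some v) = some w`, and `b(g)` if `h (some v) = none`.
-/

set_option autoImplicit false

namespace MTC

open Finset

/-- `x` is a convex combination of perfect matchings -/
def Dec {V : Type} [Fintype V] [DecidableEq V] (x : V → V → ℝ) : Prop :=
  ∃ μ : (V → V) → ℝ, (∀ f, 0 ≤ μ f) ∧ (∀ f, μ f ≠ 0 → IsPM (fun u v => u ≠ v) f) ∧ ∑ f, μ f = 1 ∧
    ∀ u v, x u v = ∑ f, μ f * chi f u v

variable {V : Type} [Fintype V] [DecidableEq V]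

private theorem E4_fib {H B : Type} [Fintype H] [Fintype B] [DecidableEq B] (ν : H → ℝ) (α : H → B)
    (k : B → ℝ) :
    ∑ h, ν h * k (α h) = ∑ b, k b * ∑ h, ν h * (if α h = b then (1 : ℝ) else 0) := by
  simp_rw [Finset.mul_sum]
  rw [Finset.sum_comm]
  refine Finset.sum_congr rfl fun h _ => ?_
  rw [Finset.sum_eq_single (α h)]
  · rw [if_pos rfl]
    ring
  · intro b _ hb
    rw [if_neg (Ne.symm hb)]
    ring
  · intro h'
    exact absurd (Finset.mem_univ _) h'

private theorem E4_coup {G H B A : Type} [Fintype G] [Fintype H] [Fintype B] [Fintype A]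
    [DecidableEq B] [DecidableEq A] (μ : G → ℝ) (ν : H → ℝ) (β : G → B) (α : H → A) (X : B → A → ℝ)
    (hμ : ∀ g, 0 ≤ μ g) (hν : ∀ h, 0 ≤ ν h) (hX : ∀ b a, 0 ≤ X b a)
    (h1 : ∀ b, ∑ g, μ g * (if β g = b then (1 : ℝ) else 0) = ∑ a, X b a)
    (h2 : ∀ a, ∑ h, ν h * (if α h = a then (1 : ℝ) else 0) = ∑ b, X b a) :
    ∃ w : G → H → ℝ, (∀ g h, 0 ≤ w g h) ∧ (∀ g h, w g h ≠ 0 → μ g ≠ 0 ∧ ν h ≠ 0) ∧
      (∀ g, ∑ h, w g h = μ g) ∧ (∀ h, ∑ g, w g h = ν h) ∧
      ∀ b a, ∑ g, ∑ h, w g h * ((if β g = b then (1 : ℝ) else 0) * (if α h = a then (1 : ℝ) else 0)) =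
        X b a := by
  set P : B → ℝ := fun b => ∑ a, X b a with hP
  set Q : A → ℝ := fun a => ∑ b, X b a with hQ
  have hP0 : ∀ b, 0 ≤ P b := fun b => Finset.sum_nonneg fun a _ => hX b a
  have hQ0 : ∀ a, 0 ≤ Q a := fun a => Finset.sum_nonneg fun b _ => hX b a
  have hPX : ∀ b a, P b = 0 → X b a = 0 := fun b a h =>
    (Finset.sum_eq_zero_iff_of_nonneg fun a _ => hX b a).1 h a (Finset.mem_univ a)
  have hQX : ∀ b a, Q a = 0 → X b a = 0 := fun b a h =>
    (Finset.sum_eq_zero_iff_of_nonneg fun b _ => hX b a).1 h b (Finset.mem_univ b)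
  have hXP : ∀ b a, X b a / P b * P b = X b a := by
    intro b a
    by_cases h : P b = 0
    · rw [hPX b a h, zero_div, zero_mul]
    · exact div_mul_cancel₀ _ h
  have hXQ : ∀ b a, X b a / Q a * Q a = X b a := by
    intro b a
    by_cases h : Q a = 0
    · rw [hQX b a h, zero_div, zero_mul]
    · exact div_mul_cancel₀ _ h
  have hμP : ∀ g, μ g / P (β g) * P (β g) = μ g := by
    intro g
    by_cases h : P (β g) = 0
    · have h3 := h1 (β g)
      have h4 : ∑ g', μ g' * (if β g' = β g then (1 : ℝ) else 0) = 0 := h3.trans h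
      have h5 := (Finset.sum_eq_zero_iff_of_nonneg (fun g' _ => mul_nonneg (hμ g')
        (by split_ifs <;> norm_num))).1 h4 g (Finset.mem_univ g)
      rw [if_pos rfl, mul_one] at h5
      rw [h5, zero_div, zero_mul]
    · exact div_mul_cancel₀ _ h
  have hνQ : ∀ h', ν h' / Q (α h') * Q (α h') = ν h' := by
    intro g
    by_cases h : Q (α g) = 0
    · have h3 := h2 (α g)
      have h4 : ∑ g', ν g' * (if α g' = α g then (1 : ℝ) else 0) = 0 := h3.trans h
      have h5 := (Finset.sum_eq_zero_iff_of_nonneg (fun g' _ => mul_nonneg (hν g')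
        (by split_ifs <;> norm_num))).1 h4 g (Finset.mem_univ g)
      rw [if_pos rfl, mul_one] at h5
      rw [h5, zero_div, zero_mul]
    · exact div_mul_cancel₀ _ h
  refine ⟨fun g h => μ g * ν h * X (β g) (α h) / (P (β g) * Q (α h)), ?_, ?_, ?_, ?_, ?_⟩
  · intro g h
    exact div_nonneg (mul_nonneg (mul_nonneg (hμ g) (hν h)) (hX _ _)) (mul_nonneg (hP0 _) (hQ0 _))
  · intro g h hne
    refine ⟨fun h0 => hne ?_, fun h0 => hne ?_⟩
    · show μ g * ν h * X (β g) (α h) / (P (β g) * Q (α h)) = 0
      rw [h0, zero_mul, zero_mul, zero_div]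
    · show μ g * ν h * X (β g) (α h) / (P (β g) * Q (α h)) = 0
      rw [h0, mul_zero, zero_mul, zero_div]
  · intro g
    have e1 : ∀ h, μ g * ν h * X (β g) (α h) / (P (β g) * Q (α h)) =
        μ g / P (β g) * (ν h * (X (β g) (α h) / Q (α h))) := by
      intro h
      rw [mul_div_mul_comm, mul_div_assoc]
      ring
    show ∑ h, μ g * ν h * X (β g) (α h) / (P (β g) * Q (α h)) = μ g
    rw [Finset.sum_congr rfl fun h _ => e1 h, ← Finset.mul_sum,
      E4_fib ν α (fun a => X (β g) a / Q a)]
    have e2 : ∑ a, X (β g) a / Q a * ∑ h, ν h * (if α h = a then (1 : ℝ) else 0) = P (β g) := by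
      refine Finset.sum_congr rfl fun a _ => ?_
      rw [h2 a]
      exact hXQ (β g) a
    rw [e2]
    exact hμP g
  · intro h
    have e1 : ∀ g, μ g * ν h * X (β g) (α h) / (P (β g) * Q (α h)) =
        ν h / Q (α h) * (μ g * (X (β g) (α h) / P (β g))) := by
      intro g
      rw [mul_div_mul_comm, mul_div_assoc]
      ring
    show ∑ g, μ g * ν h * X (β g) (α h) / (P (β g) * Q (α h)) = ν h
    rw [Finset.sum_congr rfl fun g _ => e1 g, ← Finset.mul_sum,
      E4_fib μ β (fun b => X b (α h) / P b)]
    have e2 : ∑ b, X b (α h) / P b * ∑ g, μ g * (if β g = b then (1 : ℝ) else 0) = Q (α h) := by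
      refine Finset.sum_congr rfl fun b _ => ?_
      rw [h1 b]
      exact hXP b (α h)
    rw [e2]
    exact hνQ h
  · intro b a
    have e1 : ∀ g h, μ g * ν h * X (β g) (α h) / (P (β g) * Q (α h)) *
        ((if β g = b then (1 : ℝ) else 0) * (if α h = a then (1 : ℝ) else 0)) =
        (μ g * (if β g = b then (1 : ℝ) else 0)) * ((ν h * (if α h = a then (1 : ℝ) else 0)) *
          (X b a / (P b * Q a))) := by
      intro g h
      by_cases hb : β g = b
      · by_cases ha : α h = a
        · rw [hb, ha]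
          ring
        · rw [if_neg ha]
          ring
      · rw [if_neg hb]
        ring
    show ∑ g, ∑ h, μ g * ν h * X (β g) (α h) / (P (β g) * Q (α h)) *
        ((if β g = b then (1 : ℝ) else 0) * (if α h = a then (1 : ℝ) else 0)) = X b a
    rw [Finset.sum_congr rfl fun g _ => Finset.sum_congr rfl fun h _ => e1 g h]
    rw [Finset.sum_congr rfl fun g _ => (Finset.mul_sum _ _ _).symm, ← Finset.sum_mul,
      ← Finset.sum_mul, h1 b, h2 a]
    show P b * (Q a * (X b a / (P b * Q a))) = X b a
    by_cases hb : P b = 0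
    · rw [hPX b a hb, zero_div, mul_zero, mul_zero]
    · by_cases ha : Q a = 0
      · rw [hQX b a ha, zero_div, mul_zero, mul_zero]
      · field_simp

/-- the value of an option, with a default -/
private def E4_out {p : V → Prop} (o : Option {v // p v}) (d : V) : V := o.elim d Subtype.val

private theorem E4_mem {S : Finset V} {v : V} (hv : v ∈ S) : v ∉ Sᶜ := fun h =>
  (Finset.mem_compl.1 h) hv

/-- the glued map -/
private noncomputable def E4_glue (S : Finset V) (g : Option {v // v ∉ S} → Option {v // v ∉ S})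
    (h : Option {v // v ∉ Sᶜ} → Option {v // v ∉ Sᶜ}) (v : V) : V :=
  if hv : v ∈ S then E4_out (h (some ⟨v, E4_mem hv⟩)) (E4_out (g none) v)
  else E4_out (g (some ⟨v, hv⟩)) (E4_out (h none) v)

private theorem E4_in {S : Finset V} {g : Option {v // v ∉ S} → Option {v // v ∉ S}}
    {h : Option {v // v ∉ Sᶜ} → Option {v // v ∉ Sᶜ}} {v : V} (hv : v ∈ S) :
    E4_glue S g h v = E4_out (h (some ⟨v, E4_mem hv⟩)) (E4_out (g none) v) := by
  unfold E4_glue
  rw [dif_pos hv]

private theorem E4_notin {S : Finset V} {g : Option {v // v ∉ S} → Option {v // v ∉ S}}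
    {h : Option {v // v ∉ Sᶜ} → Option {v // v ∉ Sᶜ}} {v : V} (hv : v ∉ S) :
    E4_glue S g h v = E4_out (g (some ⟨v, hv⟩)) (E4_out (h none) v) := by
  unfold E4_glue
  rw [dif_neg hv]

/-- the values of the glued map at the vertices of `S` -/
private theorem E4_in_iff {S : Finset V} {g : Option {v // v ∉ S} → Option {v // v ∉ S}}
    {h : Option {v // v ∉ Sᶜ} → Option {v // v ∉ Sᶜ}} (hg : IsPM (fun u v => u ≠ v) g)
    (hh : IsPM (fun u v => u ≠ v) h) {u v : V} (hu : u ∈ S) :
    E4_glue S g h u = v ↔ (∃ hv : v ∈ S, h (some ⟨u, E4_mem hu⟩) = some ⟨v, E4_mem hv⟩) ∨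
      ∃ hv : v ∉ S, h none = some ⟨u, E4_mem hu⟩ ∧ g none = some ⟨v, hv⟩ := by
  rw [E4_in hu]
  cases h1 : h (some ⟨u, E4_mem hu⟩) with
  | some w =>
    have hw : w.1 ∈ S := by
      by_contra hc
      exact w.2 (Finset.mem_compl.2 hc)
    constructor
    · intro h2
      have h3 : w.1 = v := h2
      subst h3
      exact Or.inl ⟨hw, rfl⟩
    · rintro (⟨hv, h2⟩ | ⟨hv, h2, -⟩)
      · have h3 : w = ⟨v, E4_mem hv⟩ := Option.some.inj h2
        rw [h3]
        rfl
      · exfalso
        have h4 := hh.1 none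
        rw [h2, h1] at h4
        exact Option.some_ne_none _ h4
  | none =>
    have h0 : h none = some ⟨u, E4_mem hu⟩ := by
      have h4 := hh.1 (some ⟨u, E4_mem hu⟩)
      rw [h1] at h4
      exact h4
    cases h5 : g none with
    | none => exact absurd h5.symm (hg.2 none)
    | some b =>
      constructor
      · intro h2
        have h3 : b.1 = v := h2
        subst h3
        exact Or.inr ⟨b.2, h0, rfl⟩
      · rintro (⟨hv, h2⟩ | ⟨hv, -, h2⟩)
        · exact absurd h2.symm (Option.some_ne_none _)
        · have h3 : b = ⟨v, hv⟩ := Option.some.inj h2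
          rw [h3]
          rfl

/-- the values of the glued map at the vertices outside `S` -/
private theorem E4_notin_iff {S : Finset V} {g : Option {v // v ∉ S} → Option {v // v ∉ S}}
    {h : Option {v // v ∉ Sᶜ} → Option {v // v ∉ Sᶜ}} (hg : IsPM (fun u v => u ≠ v) g)
    (hh : IsPM (fun u v => u ≠ v) h) {u v : V} (hu : u ∉ S) :
    E4_glue S g h u = v ↔ (∃ hv : v ∉ S, g (some ⟨u, hu⟩) = some ⟨v, hv⟩) ∨
      ∃ hv : v ∈ S, g none = some ⟨u, hu⟩ ∧ h none = some ⟨v, E4_mem hv⟩ := by
  rw [E4_notin hu]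
  cases h1 : g (some ⟨u, hu⟩) with
  | some w =>
    constructor
    · intro h2
      have h3 : w.1 = v := h2
      subst h3
      exact Or.inl ⟨w.2, rfl⟩
    · rintro (⟨hv, h2⟩ | ⟨hv, h2, -⟩)
      · have h3 : w = ⟨v, hv⟩ := Option.some.inj h2
        rw [h3]
        rfl
      · exfalso
        have h4 := hg.1 none
        rw [h2, h1] at h4
        exact Option.some_ne_none _ h4
  | none =>
    have h0 : g none = some ⟨u, hu⟩ := by
      have h4 := hg.1 (some ⟨u, hu⟩)
      rw [h1] at h4
      exact h4
    cases h5 : h none with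
    | none => exact absurd h5.symm (hh.2 none)
    | some b =>
      have hb : b.1 ∈ S := by
        by_contra hc
        exact b.2 (Finset.mem_compl.2 hc)
      constructor
      · intro h2
        have h3 : b.1 = v := h2
        subst h3
        exact Or.inr ⟨hb, h0, rfl⟩
      · rintro (⟨hv, h2⟩ | ⟨hv, -, h2⟩)
        · exact absurd h2.symm (Option.some_ne_none _)
        · have h3 : b = ⟨v, E4_mem hv⟩ := Option.some.inj h2
          rw [h3]
          rfl

private theorem E4_pm {S : Finset V} {g : Option {v // v ∉ S} → Option {v // v ∉ S}}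
    {h : Option {v // v ∉ Sᶜ} → Option {v // v ∉ Sᶜ}} (hg : IsPM (fun u v => u ≠ v) g)
    (hh : IsPM (fun u v => u ≠ v) h) : IsPM (fun u v => u ≠ v) (E4_glue S g h) := by
  refine ⟨fun u => ?_, fun u => ?_⟩
  · by_cases hu : u ∈ S
    · rcases (E4_in_iff hg hh hu).1 rfl with ⟨hv, h1⟩ | ⟨hv, h1, h2⟩
      · refine (E4_in_iff hg hh hv).2 (Or.inl ⟨hu, ?_⟩)
        have h3 := hh.1 (some ⟨u, E4_mem hu⟩)
        rw [h1] at h3
        exact h3
      · exact (E4_notin_iff hg hh hv).2 (Or.inr ⟨hu, h2, h1⟩)
    · rcases (E4_notin_iff hg hh hu).1 rfl with ⟨hv, h1⟩ | ⟨hv, h1, h2⟩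
      · refine (E4_notin_iff hg hh hv).2 (Or.inl ⟨hu, ?_⟩)
        have h3 := hg.1 (some ⟨u, hu⟩)
        rw [h1] at h3
        exact h3
      · exact (E4_in_iff hg hh hv).2 (Or.inr ⟨hu, h2, h1⟩)
  · show u ≠ E4_glue S g h u
    intro h0
    by_cases hu : u ∈ S
    · rcases (E4_in_iff hg hh hu).1 h0.symm with ⟨hv, h1⟩ | ⟨hv, h1, h2⟩
      · exact hh.2 (some ⟨u, E4_mem hu⟩) h1.symm
      · exact hv hu
    · rcases (E4_notin_iff hg hh hu).1 h0.symm with ⟨hv, h1⟩ | ⟨hv, h1, h2⟩
      · exact hg.2 (some ⟨u, hu⟩) h1.symm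
      · exact hu hv

private theorem E4_ite (p q : Prop) [Decidable p] [Decidable q] :
    (if p then (1 : ℝ) else 0) * (if q then (1 : ℝ) else 0) = if p ∧ q then (1 : ℝ) else 0 := by
  by_cases hp : p
  · by_cases hq : q
    · rw [if_pos hp, if_pos hq, if_pos ⟨hp, hq⟩, mul_one]
    · rw [if_neg hq, if_neg (fun h : p ∧ q => hq h.2), mul_zero]
  · rw [if_neg hp, if_neg (fun h : p ∧ q => hp h.1), zero_mul]

/-- the numbers `x a b` for `a ∈ S`, `b ∉ S` -/
private noncomputable def E4_X (x : V → V → ℝ) (S : Finset V) :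
    Option {v // v ∉ S} → Option {v // v ∉ Sᶜ} → ℝ
  | some b, some a => x a b
  | none, _ => 0
  | some _, none => 0

theorem glue (x : V → V → ℝ) (hx : FP x) (S : Finset V) (hS : Tight x S) (h1 : Dec (con x S)) (h2 : Dec (con x Sᶜ)) : Dec x := by
  obtain ⟨μ, hμ0, hμ1, hμ2, hμ3⟩ := h1
  obtain ⟨ν, hν0, hν1, hν2, hν3⟩ := h2
  have hX0 : ∀ b a, 0 ≤ E4_X x S b a := by
    intro b a
    cases b with
    | none => exact le_refl _
    | some b =>
      cases a with
      | none => exact le_refl _
      | some a => exact hx.nonneg _ _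
  obtain ⟨w, hw0, hw1, hw2, hw3, hw4⟩ := E4_coup μ ν (fun g => g none) (fun h => h none) (E4_X x S)
    hμ0 hν0 hX0 (by
      intro b
      have e1 : ∑ g, μ g * (if g none = b then (1 : ℝ) else 0) = con x S none b := (hμ3 none b).symm
      rw [e1]
      cases b with
      | none =>
        have e2 : ∀ a, E4_X x S none a = 0 := fun a => rfl
        rw [Finset.sum_congr rfl fun a _ => e2 a, Finset.sum_const_zero]
        rfl
      | some b =>
        rw [Fintype.sum_option]
        show ∑ a ∈ S, x a b = 0 + ∑ a : {v // v ∉ Sᶜ}, x a b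
        rw [zero_add]
        exact Finset.sum_subtype S (fun v => ⟨fun hv => E4_mem hv, fun hv => by
          by_contra hc
          exact hv (Finset.mem_compl.2 hc)⟩) fun a => x a b) (by
      intro a
      have e1 : ∑ g, ν g * (if g none = a then (1 : ℝ) else 0) = con x Sᶜ none a := (hν3 none a).symm
      rw [e1]
      cases a with
      | none =>
        have e2 : ∀ b, E4_X x S b none = 0 := by
          intro b
          cases b <;> rfl
        rw [Finset.sum_congr rfl fun a _ => e2 a, Finset.sum_const_zero]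
        rfl
      | some a =>
        rw [Fintype.sum_option]
        show ∑ b ∈ Sᶜ, x b a = 0 + ∑ b : {v // v ∉ S}, x a b
        rw [zero_add, Finset.sum_congr rfl fun b _ => hx.symm b a]
        exact Finset.sum_subtype Sᶜ (fun v => Finset.mem_compl) fun b => x a b)
  have hsum : ∀ F : (V → V) → ℝ,
      ∑ f, (∑ g, ∑ h, if E4_glue S g h = f then w g h else 0) * F f =
        ∑ g, ∑ h, w g h * F (E4_glue S g h) := by
    intro F
    simp_rw [Finset.sum_mul]
    rw [Finset.sum_comm]
    refine Finset.sum_congr rfl fun g _ => ?_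
    rw [Finset.sum_comm]
    refine Finset.sum_congr rfl fun h _ => ?_
    rw [Finset.sum_eq_single (E4_glue S g h)]
    · rw [if_pos rfl]
    · intro f _ hf
      rw [if_neg (Ne.symm hf), zero_mul]
    · intro h'
      exact absurd (Finset.mem_univ _) h'
  refine ⟨fun f => ∑ g, ∑ h, if E4_glue S g h = f then w g h else 0, ?_, ?_, ?_, ?_⟩
  · intro f
    refine Finset.sum_nonneg fun g _ => Finset.sum_nonneg fun h _ => ?_
    split_ifs
    · exact hw0 g h
    · exact le_refl _
  · intro f hf
    obtain ⟨g, -, hg⟩ := Finset.exists_ne_zero_of_sum_ne_zero hf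
    obtain ⟨h, -, hh⟩ := Finset.exists_ne_zero_of_sum_ne_zero hg
    have h3 : E4_glue S g h = f := by
      by_contra hc
      rw [if_neg hc] at hh
      exact hh rfl
    rw [if_pos h3] at hh
    rw [← h3]
    exact E4_pm (hμ1 g (hw1 g h hh).1) (hν1 h (hw1 g h hh).2)
  · have h3 := hsum fun _ => 1
    simp only [mul_one] at h3
    rw [h3, Finset.sum_congr rfl fun g _ => hw2 g, hμ2]
  · intro u v
    rw [hsum fun f => chi f u v]
    by_cases hu : u ∈ S
    · by_cases hv : v ∈ S
      · have e1 : ∀ g h, w g h * chi (E4_glue S g h) u v =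
            w g h * chi h (some ⟨u, E4_mem hu⟩) (some ⟨v, E4_mem hv⟩) := by
          intro g h
          by_cases hz : w g h = 0
          · rw [hz, zero_mul, zero_mul]
          · have hi := E4_in_iff (hμ1 g (hw1 g h hz).1) (hν1 h (hw1 g h hz).2) (v := v) hu
            congr 1
            unfold chi
            refine if_congr ?_ rfl rfl
            rw [hi]
            constructor
            · rintro (⟨_, h5⟩ | ⟨h5, -⟩)
              · exact h5
              · exact absurd hv h5
            · intro h5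
              exact Or.inl ⟨hv, h5⟩
        rw [Finset.sum_congr rfl fun g _ => Finset.sum_congr rfl fun h _ => e1 g h, Finset.sum_comm]
        rw [Finset.sum_congr rfl fun h _ => (Finset.sum_mul _ _ _).symm,
          Finset.sum_congr rfl fun h _ => by rw [hw3 h]]
        exact hν3 (some ⟨u, E4_mem hu⟩) (some ⟨v, E4_mem hv⟩)
      · have e1 : ∀ g h, w g h * chi (E4_glue S g h) u v =
            w g h * ((if g none = some ⟨v, hv⟩ then (1 : ℝ) else 0) *
              (if h none = some ⟨u, E4_mem hu⟩ then (1 : ℝ) else 0)) := by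
          intro g h
          by_cases hz : w g h = 0
          · rw [hz, zero_mul, zero_mul]
          · have hi := E4_in_iff (hμ1 g (hw1 g h hz).1) (hν1 h (hw1 g h hz).2) (v := v) hu
            congr 1
            unfold chi
            rw [E4_ite]
            refine if_congr ?_ rfl rfl
            rw [hi]
            constructor
            · rintro (⟨h5, -⟩ | ⟨_, h5, h6⟩)
              · exact absurd h5 hv
              · exact ⟨h6, h5⟩
            · rintro ⟨h5, h6⟩
              exact Or.inr ⟨hv, h6, h5⟩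
        rw [Finset.sum_congr rfl fun g _ => Finset.sum_congr rfl fun h _ => e1 g h]
        exact (hw4 (some ⟨v, hv⟩) (some ⟨u, E4_mem hu⟩)).symm
    · by_cases hv : v ∈ S
      · have e1 : ∀ g h, w g h * chi (E4_glue S g h) u v =
            w g h * ((if g none = some ⟨u, hu⟩ then (1 : ℝ) else 0) *
              (if h none = some ⟨v, E4_mem hv⟩ then (1 : ℝ) else 0)) := by
          intro g h
          by_cases hz : w g h = 0
          · rw [hz, zero_mul, zero_mul]
          · have hi := E4_notin_iff (hμ1 g (hw1 g h hz).1) (hν1 h (hw1 g h hz).2) (v := v) hu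
            congr 1
            unfold chi
            rw [E4_ite]
            refine if_congr ?_ rfl rfl
            rw [hi]
            constructor
            · rintro (⟨h5, -⟩ | ⟨_, h5, h6⟩)
              · exact absurd hv h5
              · exact ⟨h5, h6⟩
            · rintro ⟨h5, h6⟩
              exact Or.inr ⟨hv, h5, h6⟩
        rw [Finset.sum_congr rfl fun g _ => Finset.sum_congr rfl fun h _ => e1 g h]
        rw [hx.symm u v]
        exact (hw4 (some ⟨u, hu⟩) (some ⟨v, E4_mem hv⟩)).symm
      · have e1 : ∀ g h, w g h * chi (E4_glue S g h) u v =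
            w g h * chi g (some ⟨u, hu⟩) (some ⟨v, hv⟩) := by
          intro g h
          by_cases hz : w g h = 0
          · rw [hz, zero_mul, zero_mul]
          · have hi := E4_notin_iff (hμ1 g (hw1 g h hz).1) (hν1 h (hw1 g h hz).2) (v := v) hu
            congr 1
            unfold chi
            refine if_congr ?_ rfl rfl
            rw [hi]
            constructor
            · rintro (⟨_, h5⟩ | ⟨h5, -⟩)
              · exact h5
              · exact absurd h5 hv
            · intro h5
              exact Or.inl ⟨hv, h5⟩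
        rw [Finset.sum_congr rfl fun g _ => Finset.sum_congr rfl fun h _ => e1 g h]
        rw [Finset.sum_congr rfl fun g _ => (Finset.sum_mul _ _ _).symm,
          Finset.sum_congr rfl fun g _ => by rw [hw2 g]]
        exact hμ3 (some ⟨u, hu⟩) (some ⟨v, hv⟩)

end MTC
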