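import Pool.Agent.Lib.MP_0087d5_lcMT.E1
import Pool.Agent.Lib.MP_0087d5_lcMT.E2
import Pool.Agent.Lib.MP_0087d5_lcMT.E4

/-!
# Leaf E5 (medium, assembly): Edmonds' theorem on the perfect matching polytope

Proof. Strong induction on `card V`, and for fixed `V` strong induction on the number of pairs with `x u v ≠ 0`.
If there is an odd `S` with `3 ≤ card S`, `3 ≤ card Sᶜ`, `cut x S = 1`: `S` and `Sᶜ` are tight (`card V` is even: `exists_pm` gives an involution without fixed
point, so `card Sᶜ` is odd; `cut x Sᶜ = cut x S` by symmetry). `Option {v // v ∉ S}` has `card V - card S + 1 < card V` elements, the other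
contraction too. Use `con_fp`, the induction hypothesis and `glue`.
Otherwise take `f` from `exists_pm`; if `x = chi f`, `μ` is the point mass at `f`. If not, `push` gives `x'`, and `x = (1 + s)⁻¹ x' + s (1 + s)⁻¹ chi f`. If the support of `x'` is
smaller, use the inner induction hypothesis; otherwise `x'` has a nontrivial tight set and the first case applies to `x'` (prove the first case as a
separate `have` for all `x'` on `V`). A convex combination of two `Dec` is `Dec`.
-/

set_option autoImplicit false

namespace MTC

open Finset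

private theorem E5_even {V : Type} [Fintype V] [DecidableEq V] {x : V → V → ℝ} (hx : FP x) :
    Even (Fintype.card V) := by
  obtain ⟨f, hf1, hf2⟩ := exists_pm x hx
  have hinv : Function.Involutive f := hf1
  have h1 : (hinv.toPerm f) ^ 2 = 1 := by
    ext v
    rw [pow_two, Equiv.Perm.mul_apply, Equiv.Perm.one_apply]
    exact hf1 v
  have h2 := Equiv.Perm.two_dvd_card_support h1
  have h3 : (hinv.toPerm f).support = univ := by
    ext v
    rw [Equiv.Perm.mem_support]
    constructor
    · intro _
      exact mem_univ v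
    · intro _ h
      have h4 : f v = v := h
      have h5 := hf2 v
      rw [h4] at h5
      exact h5 (hx.diag v)
  rw [h3, card_univ] at h2
  exact even_iff_two_dvd.2 h2

private theorem E5_cut {V : Type} [Fintype V] [DecidableEq V] {x : V → V → ℝ} (hx : FP x)
    (S : Finset V) : cut x Sᶜ = cut x S := by
  unfold cut
  rw [compl_compl, sum_comm]
  exact sum_congr rfl fun u _ => sum_congr rfl fun v _ => hx.symm v u

private theorem E5_conv {V : Type} [Fintype V] [DecidableEq V] {y z : V → V → ℝ} (hy : Dec y)
    (hz : Dec z) {a b : ℝ} (ha : 0 ≤ a) (hb : 0 ≤ b) (hab : a + b = 1) {x : V → V → ℝ}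
    (hx : ∀ u v, x u v = a * y u v + b * z u v) : Dec x := by
  obtain ⟨μ, h1, h2, h3, h4⟩ := hy
  obtain ⟨ν, k1, k2, k3, k4⟩ := hz
  refine ⟨fun f => a * μ f + b * ν f, fun f => add_nonneg (mul_nonneg ha (h1 f))
    (mul_nonneg hb (k1 f)), ?_, ?_, ?_⟩
  · intro f hf
    by_cases h : μ f = 0
    · refine k2 f fun h' => hf ?_
      change a * μ f + b * ν f = 0
      rw [h, h', mul_zero, mul_zero, add_zero]
    · exact h2 f h
  · rw [sum_add_distrib, ← mul_sum, ← mul_sum, h3, k3, mul_one, mul_one, hab]
  · intro u v
    rw [hx, h4, k4, mul_sum, mul_sum, ← sum_add_distrib]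
    exact sum_congr rfl fun f _ => by ring

private theorem E5_chi {V : Type} [Fintype V] [DecidableEq V] {f : V → V}
    (hf : IsPM (fun u v => u ≠ v) f) : Dec (chi f) := by
  refine ⟨fun g => if g = f then 1 else 0, ?_, ?_, ?_, ?_⟩
  · intro g
    dsimp only
    split_ifs
    · exact zero_le_one
    · exact le_rfl
  · intro g hg
    by_cases h : g = f
    · rw [h]
      exact hf
    · exact absurd (if_neg h) hg
  · rw [sum_ite_eq' univ f (fun _ => (1 : ℝ)), if_pos (mem_univ f)]
  · intro u v
    have h1 : ∀ g : V → V, (if g = f then (1 : ℝ) else 0) * chi g u v =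
        if g = f then chi g u v else 0 := by
      intro g
      split_ifs
      · exact one_mul _
      · exact zero_mul _
    simp only [h1]
    rw [sum_ite_eq' univ f (fun g => chi g u v), if_pos (mem_univ f)]

private theorem E5_card {V : Type} [Fintype V] [DecidableEq V] (S : Finset V) (hS : 3 ≤ S.card) :
    Fintype.card (Option {v // v ∉ S}) < Fintype.card V := by
  rw [Fintype.card_option, Fintype.card_of_subtype Sᶜ (fun v => mem_compl), card_compl]
  have h1 := S.card_le_univ
  omega

private theorem E5_aux (n : ℕ) : ∀ (V : Type) [Fintype V] [DecidableEq V], Fintype.card V = n →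
    ∀ x : V → V → ℝ, FP x → Dec x := by
  induction n using Nat.strong_induction_on with
  | _ n ih =>
    intro V _ _ hn
    have tight : ∀ x : V → V → ℝ, FP x →
        (∃ S : Finset V, Odd S.card ∧ 3 ≤ S.card ∧ 3 ≤ Sᶜ.card ∧ cut x S = 1) → Dec x := by
      rintro x hx ⟨S, hS1, hS2, hS3, hS4⟩
      have hT : Tight x S := ⟨hS1, hS4⟩
      have hodd : Odd Sᶜ.card := by
        have h1 := E5_even hx
        have h2 := S.card_add_card_compl
        rw [← h2] at h1
        rcases Nat.even_or_odd Sᶜ.card with h3 | h3
        · exact absurd ((Nat.even_add.1 h1).2 h3) (Nat.not_even_iff_odd.2 hS1)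
        · exact h3
      have hT' : Tight x Sᶜ := ⟨hodd, by rw [E5_cut hx, hS4]⟩
      refine glue x hx S hT ?_ ?_
      · exact ih _ (hn ▸ E5_card S hS2) _ rfl _ (con_fp x hx S hT)
      · exact ih _ (hn ▸ E5_card Sᶜ hS3) _ rfl _ (con_fp x hx Sᶜ hT')
    classical
    have inner : ∀ k : ℕ, ∀ x : V → V → ℝ, FP x →
        (univ.filter fun q : V × V => x q.1 q.2 ≠ 0).card = k → Dec x := by
      intro k
      induction k using Nat.strong_induction_on with
      | _ k ihk =>
        intro x hx hk
        by_cases hnt : ∃ S : Finset V, Odd S.card ∧ 3 ≤ S.card ∧ 3 ≤ Sᶜ.card ∧ cut x S = 1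
        · exact tight x hx hnt
        · obtain ⟨f, hf⟩ := exists_pm x hx
          have hf' : IsPM (fun u v => u ≠ v) f := by
            refine ⟨hf.1, fun v h => ?_⟩
            have h1 := hf.2 v
            rw [← h] at h1
            exact h1 (hx.diag v)
          by_cases hne : x = chi f
          · rw [hne]
            exact E5_chi hf'
          · obtain ⟨s, x', hs, hx', h1, h2, h3⟩ := push x hx f hf hne (by
              intro S hS1 hS2 hS3
              refine lt_of_le_of_ne (hx.odd S hS1) fun h => hnt ⟨S, hS1, hS2, hS3, h.symm⟩)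
            have hd : Dec x' := by
              rcases h3 with ⟨u, v, huv1, huv2⟩ | h3
              · refine ihk _ ?_ x' hx' rfl
                rw [← hk]
                refine card_lt_card ⟨?_, ?_⟩
                · intro q hq
                  rw [mem_filter] at hq ⊢
                  exact ⟨mem_univ _, h2 _ _ hq.2⟩
                · intro h
                  have h4 : ((u, v) : V × V) ∈ univ.filter fun q : V × V => x q.1 q.2 ≠ 0 :=
                    mem_filter.2 ⟨mem_univ _, huv2⟩
                  exact (mem_filter.1 (h h4)).2 huv1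
              · exact tight x' hx' h3
            have hs1 : 0 < 1 + s := by linarith
            refine E5_conv hd (E5_chi hf') (inv_nonneg.2 hs1.le)
              (mul_nonneg hs.le (inv_nonneg.2 hs1.le)) ?_ h1
            field_simp
    intro x hx
    exact inner _ x hx rfl

theorem edmonds {V : Type} [Fintype V] [DecidableEq V] (x : V → V → ℝ) (hx : FP x) : Dec x := by
  exact E5_aux _ V rfl x hx

/-- the perfect matchings of the decomposition are in the support -/
theorem edmonds' {V : Type} [Fintype V] [DecidableEq V] (x : V → V → ℝ) (hx : FP x) :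
    ∃ μ : (V → V) → ℝ, (∀ f, 0 ≤ μ f) ∧ (∀ f, μ f ≠ 0 → IsPM (fun u v => x u v ≠ 0) f) ∧ ∑ f, μ f = 1 ∧
      ∀ u v, x u v = ∑ f, μ f * chi f u v := by
  obtain ⟨μ, h1, h2, h3, h4⟩ := edmonds x hx
  refine ⟨μ, h1, fun f hf => ⟨(h2 f hf).1, fun v => ?_⟩, h3, h4⟩
  have h5 : 0 < μ f := lt_of_le_of_ne (h1 f) (Ne.symm hf)
  have h6 : μ f * chi f v (f v) ≤ x v (f v) := by
    rw [h4 v (f v)]
    refine single_le_sum (f := fun g => μ g * chi g v (f v)) ?_ (mem_univ f)
    intro g _
    refine mul_nonneg (h1 g) ?_
    unfold chi
    split_ifs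
    · exact zero_le_one
    · exact le_rfl
  have h7 : chi f v (f v) = 1 := if_pos rfl
  rw [h7, mul_one] at h6
  exact (lt_of_lt_of_le h5 h6).ne'

end MTC
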