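import Pool.Agent.Lib.MP_0087d5_lcMT.M1

/-!
# Leaf M2 (medium+): the Moore bound

Proof. Otherwise take `U` from `exists_core`, `r ∈ U`. Claim: for `j ≤ k` the set `P_j` of the paths (`p : H.Walk r b`, `p.IsPath`) of length `j` from `r` inside `U`
(all vertices in `U`) has at least `d ^ j` elements. A path of length `j < k` from `r` to `b` with last but one vertex `c`: `b` has more than `d` neighbours in `U`, at least `d` of them
different from `c` (for `j = 0`: more than `d`); for such a neighbour `b'`, `b'` is not on the path, otherwise the part of the path from `b'` to `b` and the edge `b b'` are a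
cycle of length `≤ j + 1 ≤ k ≤ 2 k` (it has length at least 3 because `b' ≠ c`). So each path of length `j` has at least `d` extensions, and different paths have different extensions.
Two different paths of length `k` from `r` have different end points: otherwise the subgraph formed by their edges is not acyclic (`SimpleGraph.isAcyclic_iff_path_unique` or
`SimpleGraph.IsAcyclic.path_unique`), it contains a cycle, whose length is at most the number of its edges, `2 k` (`IsCycle` has distinct edges; map it to `H`). So `d ^ k ≤ card V`.
Alternatively: work with functions `Fin (j + 1) → V` (`p 0 = r`, adjacent, non-backtracking) instead of walks, and prove injectivity of the end point for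
non-backtracking walks of length `k`.
-/

set_option autoImplicit false

namespace MTC

open Finset

/-- paths of length at most `k` are determined by their ends -/
private theorem M2_unique {V : Type} {H : SimpleGraph V} {k : ℕ}
    (hg : ∀ (u : V) (p : H.Walk u u), p.IsCycle → 2 * k < p.length) {a b : V} (p q : H.Walk a b)
    (hp : p.IsPath) (hq : q.IsPath) (hpk : p.length ≤ k) (hqk : q.length ≤ k) : p = q := by
  classical
  let H' : SimpleGraph V := SimpleGraph.fromEdgeSet {e | e ∈ p.edges ∨ e ∈ q.edges}
  have hle : H' ≤ H := by
    intro x y hxy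
    rw [SimpleGraph.fromEdgeSet_adj] at hxy
    rcases hxy.1 with h | h
    · exact p.adj_of_mem_edges h
    · exact q.adj_of_mem_edges h
  have h1 : ∀ e ∈ p.edges, e ∈ H'.edgeSet := by
    intro e he
    rw [SimpleGraph.edgeSet_fromEdgeSet]
    exact ⟨Or.inl he, fun hd => H.not_isDiag_of_mem_edgeSet (p.edges_subset_edgeSet he) hd⟩
  have h2 : ∀ e ∈ q.edges, e ∈ H'.edgeSet := by
    intro e he
    rw [SimpleGraph.edgeSet_fromEdgeSet]
    exact ⟨Or.inr he, fun hd => H.not_isDiag_of_mem_edgeSet (q.edges_subset_edgeSet he) hd⟩
  have hac : H'.IsAcyclic := by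
    intro v c hc
    have h3 : (c.mapLe hle).IsCycle := (SimpleGraph.Walk.isCycle_mapLe hle).2 hc
    have h4 := hg v _ h3
    rw [SimpleGraph.Walk.length_mapLe] at h4
    have hnd : c.edges.Nodup := hc.edges_nodup
    have hsub : c.edges.toFinset ⊆ p.edges.toFinset ∪ q.edges.toFinset := by
      intro e he
      rw [List.mem_toFinset] at he
      have h5 := c.edges_subset_edgeSet he
      rw [SimpleGraph.edgeSet_fromEdgeSet] at h5
      rw [mem_union, List.mem_toFinset, List.mem_toFinset]
      exact h5.1
    have h5 : c.length ≤ 2 * k := by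
      rw [← SimpleGraph.Walk.length_edges]
      calc c.edges.length = c.edges.toFinset.card := (List.toFinset_card_of_nodup hnd).symm
        _ ≤ (p.edges.toFinset ∪ q.edges.toFinset).card := card_le_card hsub
        _ ≤ p.edges.toFinset.card + q.edges.toFinset.card := card_union_le _ _
        _ ≤ p.edges.length + q.edges.length :=
          add_le_add (List.toFinset_card_le _) (List.toFinset_card_le _)
        _ ≤ 2 * k := by
          rw [SimpleGraph.Walk.length_edges, SimpleGraph.Walk.length_edges]
          omega
    omega
  have h6 := (hac.subsingleton_path a b).elim ⟨p.transfer H' h1, hp.transfer h1⟩ ⟨q.transfer H' h2, hq.transfer h2⟩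
  apply SimpleGraph.Walk.ext_support
  have h7 := congrArg (fun r : H'.Path a b => r.1.support) h6
  simpa only [SimpleGraph.Walk.support_transfer] using h7

open Classical in
/-- the ends of the paths of length `j` from `r` inside `U` -/
private noncomputable def M2_S {V : Type} [Fintype V] (H : SimpleGraph V) (U : Finset V) (r : V) (j : ℕ) : Finset V :=
  univ.filter fun b => ∃ p : H.Walk r b, p.IsPath ∧ p.length = j ∧ ∀ x ∈ p.support, x ∈ U

open Classical in
private theorem M2_step {V : Type} [Fintype V] {H : SimpleGraph V} {k d : ℕ}
    (hg : ∀ (u : V) (p : H.Walk u u), p.IsCycle → 2 * k < p.length) {U : Finset V}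
    (hU : ∀ a ∈ U, d < (U.filter fun b => H.Adj a b).card) (r : V) {j : ℕ} (hj : j + 1 ≤ k) :
    d * (M2_S H U r j).card ≤ (M2_S H U r (j + 1)).card := by
  have hex : ∀ b : {b // b ∈ M2_S H U r j}, ∃ p : H.Walk r b.1, p.IsPath ∧ p.length = j ∧ ∀ x ∈ p.support, x ∈ U :=
    fun b => (mem_filter.1 b.2).2
  choose P hP hl hs using hex
  let N : {b // b ∈ M2_S H U r j} → Finset V := fun b => U.filter fun x => H.Adj b.1 x ∧ x ∉ (P b).support
  have hN : ∀ b, d ≤ (N b).card := by
    intro b
    have hb : b.1 ∈ U := hs b _ (P b).end_mem_support
    have h1 := hU b.1 hb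
    have h2 : (U.filter fun x => H.Adj b.1 x) ⊆ insert ((P b).getVert (j - 1)) (N b) := by
      intro x hx
      rw [mem_filter] at hx
      rw [mem_insert]
      by_cases hxs : x ∈ (P b).support
      · left
        have h3 : (P b).dropUntil x hxs = SimpleGraph.Walk.cons hx.2.symm SimpleGraph.Walk.nil := by
          refine M2_unique hg _ _ ((hP b).dropUntil hxs) ?_ ?_ ?_
          · rw [SimpleGraph.Walk.cons_isPath_iff]
            refine ⟨SimpleGraph.Walk.IsPath.nil, ?_⟩
            rw [SimpleGraph.Walk.support_nil, List.mem_singleton]
            exact hx.2.ne'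
          · have := (P b).length_dropUntil_le_length hxs
            rw [hl b] at this
            omega
          · simp only [SimpleGraph.Walk.length_cons, SimpleGraph.Walk.length_nil]
            omega
        have h4 : ((P b).takeUntil x hxs).length + ((P b).dropUntil x hxs).length = j := by
          rw [← SimpleGraph.Walk.length_append, SimpleGraph.Walk.take_spec, hl b]
        rw [h3] at h4
        simp only [SimpleGraph.Walk.length_cons, SimpleGraph.Walk.length_nil] at h4
        have h5 := (P b).getVert_length_takeUntil hxs
        have h6 : ((P b).takeUntil x hxs).length = j - 1 := by omega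
        rw [h6] at h5
        exact h5.symm
      · right
        exact mem_filter.2 ⟨hx.1, hx.2, hxs⟩
    have h3 := (card_le_card h2).trans (card_insert_le _ _)
    omega
  have hdis : Set.PairwiseDisjoint (((M2_S H U r j).attach : Finset {b // b ∈ M2_S H U r j}) : Set {b // b ∈ M2_S H U r j}) N := by
    intro b1 _ b2 _ hne
    rw [Function.onFun, disjoint_left]
    intro x h1 h2
    rw [mem_filter] at h1 h2
    apply hne
    have h3 : (P b1).concat h1.2.1 = (P b2).concat h2.2.1 := by
      refine M2_unique hg _ _ ((hP b1).concat h1.2.2 h1.2.1) ((hP b2).concat h2.2.2 h2.2.1) ?_ ?_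
      · rw [SimpleGraph.Walk.length_concat, hl b1]
        exact hj
      · rw [SimpleGraph.Walk.length_concat, hl b2]
        exact hj
    obtain ⟨h4, _⟩ := SimpleGraph.Walk.concat_inj h3
    exact Subtype.ext h4
  have hsub : (M2_S H U r j).attach.biUnion N ⊆ M2_S H U r (j + 1) := by
    intro x hx
    rw [mem_biUnion] at hx
    obtain ⟨b, _, hb⟩ := hx
    rw [mem_filter] at hb
    refine mem_filter.2 ⟨mem_univ _, (P b).concat hb.2.1, (hP b).concat hb.2.2 hb.2.1, ?_, ?_⟩
    · rw [SimpleGraph.Walk.length_concat, hl b]
    · intro y hy
      rw [SimpleGraph.Walk.support_concat] at hy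
      simp only [List.mem_append, List.mem_singleton] at hy
      rcases hy with hy | hy
      · exact hs b y hy
      · rw [hy]
        exact hb.1
  calc d * (M2_S H U r j).card = ∑ _b ∈ (M2_S H U r j).attach, d := by
        rw [sum_const, card_attach, smul_eq_mul, mul_comm]
    _ ≤ ∑ b ∈ (M2_S H U r j).attach, (N b).card := sum_le_sum fun b _ => hN b
    _ = ((M2_S H U r j).attach.biUnion N).card := (card_biUnion hdis).symm
    _ ≤ (M2_S H U r (j + 1)).card := card_le_card hsub

open Classical in
theorem moore {V : Type} [Fintype V] (H : SimpleGraph V) (k d : ℕ) (hk : 1 ≤ k)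
    (hg : ∀ (u : V) (p : H.Walk u u), p.IsCycle → 2 * k < p.length) (hd : Fintype.card V < d ^ k) :
    (univ.filter fun q : V × V => H.Adj q.1 q.2).card ≤ 2 * d * Fintype.card V := by
  by_contra hcon
  push Not at hcon
  obtain ⟨U, ⟨r, hr⟩, hU⟩ := exists_core H d hcon
  have key : ∀ j, j ≤ k → d ^ j ≤ (M2_S H U r j).card := by
    intro j
    induction j with
    | zero =>
      intro _
      rw [pow_zero, Nat.one_le_iff_ne_zero, ← Nat.pos_iff_ne_zero, card_pos]
      refine ⟨r, mem_filter.2 ⟨mem_univ _, SimpleGraph.Walk.nil, SimpleGraph.Walk.IsPath.nil,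
        SimpleGraph.Walk.length_nil, ?_⟩⟩
      intro x hx
      rw [SimpleGraph.Walk.support_nil, List.mem_singleton] at hx
      rw [hx]
      exact hr
    | succ j ih =>
      intro hj
      calc d ^ (j + 1) = d * d ^ j := by rw [pow_succ, mul_comm]
        _ ≤ d * (M2_S H U r j).card := Nat.mul_le_mul_left d (ih (by omega))
        _ ≤ (M2_S H U r (j + 1)).card := M2_step hg hU r hj
  have h1 := key k le_rfl
  have h2 : (M2_S H U r k).card ≤ Fintype.card V := card_le_univ _
  omega

end MTC
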