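import Mathlib

/-!
# Leaf N2 (medium): the asymptotic bound

Proof. Take `k ≥ 1` with `1 / k < ε / 2`, and `d = ⌊n ^ (1 / k)⌋ + 1` (real power), so that `n < d ^ k` and `d ≤ 2 n ^ (1 / k)`. The binary logarithm of the left side is at most
`2 d n log₂(n ^ 2) log₂(n ^ 2 + 1) + 5 n log₂ (400 n ^ 11) ≤ C n ^ (1 + 1/k) (log n) ^ 2 ≤ n ^ (1 + ε)` for large `n` (`(log n) ^ 2 = o (n ^ (ε / 2))`:
`isLittleO_log_rpow_atTop`, `Real.isLittleO_pow_log_id_atTop`...).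
-/

set_option autoImplicit false

namespace MTC

private theorem N2_log (ε : ℝ) (hε : 0 < ε) : ∃ n₀ : ℕ, ∀ n : ℕ, n₀ ≤ n →
    84 * (Real.logb 2 n) ^ 2 ≤ (n : ℝ) ^ (ε / 2) := by
  have h1 := isLittleO_log_rpow_atTop (r := ε / 4) (by positivity)
  have hc : (0 : ℝ) < Real.log 2 / 10 := by
    have := Real.log_pos (by norm_num : (1 : ℝ) < 2)
    positivity
  have h2 := h1.def hc
  have h3 := tendsto_natCast_atTop_atTop (R := ℝ) |>.eventually h2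
  obtain ⟨n₀, hn₀⟩ := Filter.eventually_atTop.1 h3
  refine ⟨max n₀ 1, fun n hn => ?_⟩
  have h4 := hn₀ n (le_trans (le_max_left _ _) hn)
  have hn1 : (1 : ℝ) ≤ n := by exact_mod_cast le_trans (le_max_right n₀ 1) hn
  have hlog2 := Real.log_pos (by norm_num : (1 : ℝ) < 2)
  have hl0 : 0 ≤ Real.log n := Real.log_nonneg hn1
  have hp0 : (0 : ℝ) ≤ (n : ℝ) ^ (ε / 4) := Real.rpow_nonneg (by linarith) _
  rw [Real.norm_of_nonneg hl0, Real.norm_of_nonneg hp0] at h4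
  have h5 : Real.logb 2 n ≤ (n : ℝ) ^ (ε / 4) / 10 := by
    unfold Real.logb
    rw [div_le_iff₀ hlog2]
    linarith
  have h6 : 0 ≤ Real.logb 2 n := div_nonneg hl0 hlog2.le
  have h7 : (n : ℝ) ^ (ε / 2) = (n : ℝ) ^ (ε / 4) * (n : ℝ) ^ (ε / 4) := by
    rw [← Real.rpow_add (by linarith)]
    congr 1
    ring
  rw [h7]
  nlinarith [mul_le_mul h5 h5 h6 (by positivity), mul_nonneg hp0 hp0]

theorem asymp (ε : ℝ) (hε : 0 < ε) : ∃ k : ℕ, 1 ≤ k ∧ ∃ n₀ : ℕ, ∀ n : ℕ, n₀ ≤ n → ∃ d : ℕ, n < d ^ k ∧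
    (((n ^ 2 + 1) ^ (2 * d * n * Nat.log 2 (n ^ 2)) * (400 * n ^ 11) ^ (5 * n) : ℕ) : ℝ) ≤ (2 : ℝ) ^ ((n : ℝ) ^ (1 + ε)) := by
  obtain ⟨k, hk⟩ := exists_nat_gt (2 / ε)
  have hk0 : (0 : ℝ) < k := lt_trans (by positivity) hk
  have hk1 : 1 ≤ k := by exact_mod_cast hk0
  obtain ⟨n₁, hn₁⟩ := N2_log ε hε
  refine ⟨k, hk1, max n₁ 400, fun n hn => ?_⟩
  have hlog := hn₁ n (le_trans (le_max_left _ _) hn)
  have hn400 : 400 ≤ n := le_trans (le_max_right _ _) hn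
  have hnR : (400 : ℝ) ≤ n := by exact_mod_cast hn400
  have hn0 : (0 : ℝ) < n := by linarith
  set L : ℝ := Real.logb 2 n with hL
  have hL1 : 1 ≤ L := by
    rw [hL, Real.le_logb_iff_rpow_le (by norm_num) hn0, Real.rpow_one]
    linarith
  have hnL : (n : ℝ) = (2 : ℝ) ^ L := by
    rw [hL, Real.rpow_logb (by norm_num) (by norm_num) hn0]
  have hR0 : (1 : ℝ) ≤ (n : ℝ) ^ (1 / (k : ℝ)) := Real.one_le_rpow (by linarith) (by positivity)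
  refine ⟨⌊(n : ℝ) ^ (1 / (k : ℝ))⌋₊ + 1, ?_, ?_⟩
  · have h1 : (n : ℝ) ^ (1 / (k : ℝ)) < ((⌊(n : ℝ) ^ (1 / (k : ℝ))⌋₊ + 1 : ℕ) : ℝ) := by
      push_cast
      exact Nat.lt_floor_add_one _
    have h2 : (n : ℝ) < ((⌊(n : ℝ) ^ (1 / (k : ℝ))⌋₊ + 1 : ℕ) : ℝ) ^ k := by
      calc (n : ℝ) = ((n : ℝ) ^ (1 / (k : ℝ))) ^ k := by
            rw [← Real.rpow_natCast, ← Real.rpow_mul hn0.le, one_div, inv_mul_cancel₀ hk0.ne', Real.rpow_one]
        _ < _ := pow_lt_pow_left₀ h1 (by linarith) (by omega)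
    exact_mod_cast h2
  · set d : ℕ := ⌊(n : ℝ) ^ (1 / (k : ℝ))⌋₊ + 1 with hd
    have hdle : (d : ℝ) ≤ 2 * (n : ℝ) ^ (1 / (k : ℝ)) := by
      rw [hd]
      push_cast
      have := Nat.floor_le (by linarith : (0 : ℝ) ≤ (n : ℝ) ^ (1 / (k : ℝ)))
      linarith
    have hlogle : ((Nat.log 2 (n ^ 2) : ℕ) : ℝ) ≤ 2 * L := by
      have h1 : (2 : ℝ) ^ ((Nat.log 2 (n ^ 2) : ℕ) : ℝ) ≤ (n : ℝ) ^ 2 := by
        rw [Real.rpow_natCast]
        exact_mod_cast Nat.pow_log_le_self 2 (by positivity : n ^ 2 ≠ 0)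
      have h2 : (n : ℝ) ^ 2 = (2 : ℝ) ^ (2 * L) := by
        rw [hnL, ← Real.rpow_natCast, ← Real.rpow_mul (by norm_num)]
        congr 1
        push_cast
        ring
      rw [h2] at h1
      exact (Real.rpow_le_rpow_left_iff (by norm_num)).1 h1
    have ha : n ^ 2 + 1 ≤ n ^ 3 := by nlinarith [sq_nonneg n]
    have hb : 400 * n ^ 11 ≤ n ^ 12 := by
      calc 400 * n ^ 11 ≤ n * n ^ 11 := Nat.mul_le_mul_right _ hn400
        _ = n ^ 12 := by ring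
    have hc : (n ^ 2 + 1) ^ (2 * d * n * Nat.log 2 (n ^ 2)) * (400 * n ^ 11) ^ (5 * n) ≤
        n ^ (3 * (2 * d * n * Nat.log 2 (n ^ 2)) + 12 * (5 * n)) := by
      calc _ ≤ (n ^ 3) ^ (2 * d * n * Nat.log 2 (n ^ 2)) * (n ^ 12) ^ (5 * n) :=
            Nat.mul_le_mul (Nat.pow_le_pow_left ha _) (Nat.pow_le_pow_left hb _)
        _ = _ := by rw [← pow_mul, ← pow_mul, ← pow_add]
    have hc' : (((n ^ 2 + 1) ^ (2 * d * n * Nat.log 2 (n ^ 2)) * (400 * n ^ 11) ^ (5 * n) : ℕ) : ℝ) ≤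
        (n : ℝ) ^ (3 * (2 * d * n * Nat.log 2 (n ^ 2)) + 12 * (5 * n)) := by
      exact_mod_cast hc
    refine le_trans hc' ?_
    have he : (n : ℝ) ^ (3 * (2 * d * n * Nat.log 2 (n ^ 2)) + 12 * (5 * n)) =
        (2 : ℝ) ^ (L * ((3 * (2 * d * n * Nat.log 2 (n ^ 2)) + 12 * (5 * n) : ℕ) : ℝ)) := by
      rw [Real.rpow_mul (by norm_num), ← hnL, Real.rpow_natCast]
    rw [he]
    refine Real.rpow_le_rpow_of_exponent_le (by norm_num) ?_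
    push_cast
    set R : ℝ := (n : ℝ) ^ (1 / (k : ℝ)) with hR
    have hRe : R ≤ (n : ℝ) ^ (ε / 2) := by
      rw [hR]
      refine Real.rpow_le_rpow_of_exponent_le (by linarith) ?_
      rw [div_lt_iff₀ hε] at hk
      rw [div_le_iff₀ hk0]
      nlinarith
    have hfin : (n : ℝ) ^ (1 + ε) = n * ((n : ℝ) ^ (ε / 2) * (n : ℝ) ^ (ε / 2)) := by
      rw [← Real.rpow_add hn0, Real.rpow_add hn0, Real.rpow_one]
      congr 2
      ring
    rw [hfin]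
    have hd0 : (0 : ℝ) ≤ d := Nat.cast_nonneg d
    have hl0 : (0 : ℝ) ≤ ((Nat.log 2 (n ^ 2) : ℕ) : ℝ) := Nat.cast_nonneg _
    have h1 : (d : ℝ) * ((Nat.log 2 (n ^ 2) : ℕ) : ℝ) ≤ (2 * R) * (2 * L) := mul_le_mul hdle hlogle hl0 (by linarith)
    have h2 : L * (3 * (2 * d * n * ((Nat.log 2 (n ^ 2) : ℕ) : ℝ)) + 12 * (5 * n)) =
        n * (L * (6 * (d * ((Nat.log 2 (n ^ 2) : ℕ) : ℝ)) + 60)) := by ring
    rw [h2]
    refine mul_le_mul_of_nonneg_left ?_ hn0.le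
    calc L * (6 * (d * ((Nat.log 2 (n ^ 2) : ℕ) : ℝ)) + 60)
        ≤ L * (6 * ((2 * R) * (2 * L)) + 60 * (R * L)) := by
          refine mul_le_mul_of_nonneg_left ?_ (by linarith)
          have : (1 : ℝ) ≤ R * L := by nlinarith
          linarith
      _ = R * (84 * L ^ 2) := by ring
      _ ≤ (n : ℝ) ^ (ε / 2) * (n : ℝ) ^ (ε / 2) :=
          mul_le_mul hRe hlog (by positivity) (by positivity)

end MTC
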