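import Mathlib

/-!
# Leaf N3 (easy): the sizes of the parameters are bounded by a fixed power of n

Proof. For `n ≥ 2`: `64 = 2 ^ 6 ≤ n ^ 6`, `2 * n ^ 2 + 1 ≤ n ^ 4`, so `n ^ 2 * (2 * n ^ 2 + 1) ^ (2 * k) + 1 ≤ n ^ (8 * k + 3)`, and the first number is at most `n ^ (6 + 2 * (8 * k + 3))`; the second one is at most
`n ^ 25` (`800 ≤ n ^ 10`). Take `C = 16 * k + 25`.
-/

set_option autoImplicit false

namespace MTC

theorem sizes (k : ℕ) : ∃ C : ℕ, ∀ n : ℕ, 2 ≤ n → 64 * (n ^ 2 * (2 * n ^ 2 + 1) ^ (2 * k) + 1) ^ 2 ≤ n ^ C ∧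
    2 * n ^ 2 * (400 * n ^ 11) + 1 ≤ n ^ C := by
  refine ⟨16 * k + 25, fun n hn => ?_⟩
  have h0 : 1 ≤ n := by omega
  have hpos : ∀ m : ℕ, 1 ≤ n ^ m := fun m => Nat.one_le_pow _ _ h0
  have hsucc : ∀ m : ℕ, n ^ m + 1 ≤ n ^ (m + 1) := by
    intro m
    have h1 := hpos m
    calc n ^ m + 1 ≤ n ^ m * 2 := by omega
      _ ≤ n ^ m * n := Nat.mul_le_mul_left _ hn
      _ = n ^ (m + 1) := (pow_succ n m).symm
  constructor
  · have h1 : 2 * n ^ 2 + 1 ≤ n ^ 4 := by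
      have h2 : 4 ≤ n ^ 2 := Nat.pow_le_pow_left hn 2
      have h3 : n ^ 4 = n ^ 2 * n ^ 2 := by ring
      nlinarith
    have h2 : (2 * n ^ 2 + 1) ^ (2 * k) ≤ n ^ (8 * k) := by
      calc (2 * n ^ 2 + 1) ^ (2 * k) ≤ (n ^ 4) ^ (2 * k) := Nat.pow_le_pow_left h1 _
        _ = n ^ (8 * k) := by rw [← pow_mul]; congr 1; ring
    have h3 : n ^ 2 * (2 * n ^ 2 + 1) ^ (2 * k) + 1 ≤ n ^ (8 * k + 3) := by
      calc n ^ 2 * (2 * n ^ 2 + 1) ^ (2 * k) + 1 ≤ n ^ 2 * n ^ (8 * k) + 1 :=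
            Nat.add_le_add_right (Nat.mul_le_mul_left _ h2) _
        _ = n ^ (8 * k + 2) + 1 := by rw [← pow_add, add_comm 2 (8 * k)]
        _ ≤ n ^ (8 * k + 3) := hsucc _
    have h4 : 64 ≤ n ^ 6 := Nat.pow_le_pow_left hn 6
    calc 64 * (n ^ 2 * (2 * n ^ 2 + 1) ^ (2 * k) + 1) ^ 2 ≤ n ^ 6 * (n ^ (8 * k + 3)) ^ 2 :=
          Nat.mul_le_mul h4 (Nat.pow_le_pow_left h3 2)
      _ = n ^ (16 * k + 12) := by rw [← pow_mul, ← pow_add]; congr 1; ring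
      _ ≤ n ^ (16 * k + 25) := Nat.pow_le_pow_right h0 (by omega)
  · have h1 : 800 ≤ n ^ 10 := le_trans (by norm_num) (Nat.pow_le_pow_left hn 10)
    have h2 : 2 * n ^ 2 * (400 * n ^ 11) = 800 * n ^ 13 := by ring
    rw [h2]
    calc 800 * n ^ 13 + 1 ≤ n ^ 10 * n ^ 13 + 1 := Nat.add_le_add_right (Nat.mul_le_mul_right _ h1) _
      _ = n ^ 23 + 1 := by rw [← pow_add]
      _ ≤ n ^ 24 := hsucc _
      _ ≤ n ^ (16 * k + 25) := Nat.pow_le_pow_right h0 (by omega)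

end MTC
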