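import Pool.Agent.Lib.MP_0087d5_lcMT.CB

/-!
# Block C: the test is in NC
-/

set_option autoImplicit false

namespace MTC

open Finset Pool.Agent Pool.Agent.PMNC

theorem nc_main (C : ℕ) (T S : ∀ n : ℕ, SimpleGraph (Fin n) → SimpleGraph (Fin n))
    (hT : DefP (E := fun n => Fin n × Fin n) (fun n G X y => (T n G).Adj y.1 y.2))
    (hS : DefP (E := fun n => Fin n × Fin n) (fun n G X y => (S n G).Adj y.1 y.2)) :
    ∃ P : ∀ n : ℕ, SimpleGraph (Fin n) → Prop, UPM.InNC P ∧ (∀ n G, P n G → HasPM (T n G)) ∧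
    ∀ n : ℕ, 2 ≤ n → ∀ G : SimpleGraph (Fin n), ∀ (m K q t : ℕ) (g y : ZMod q), q.Prime → m ≤ n ^ C → K ≤ n ^ C → q ≤ n ^ C → t ≤ 2 * n →
      Iso (T n G) (WT m K q (S n G) g y t) → P n G := by
  obtain ⟨P, h1, h2, h3⟩ := nc_defP C hS hT
  exact ⟨P, PMNC.InNC.circuits h1, h2, h3⟩

/-- the identity is definable -/
theorem def_self : DefP (E := fun n => Fin n × Fin n) (fun n (G : SimpleGraph (Fin n)) X y => G.Adj y.1 y.2) :=
  DefP.adj (Tm.fst (F := fun n => Fin n) (H := fun n => Fin n) Tm.id) (Tm.snd (F := fun n => Fin n) (H := fun n => Fin n) Tm.id)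

end MTC
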