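import Pool.Agent.Lib.MP_0087d5_lcMT.BDefs

/-!
# Leaf P1 (medium): Parseval

Proof. `∑ l, ‖FT h l‖ ^ 2 = ∑ l, ∑ v, ∑ v', h v * conj (h v') * χ (∑ u, l u * (v u - v' u))` (`χ = ZMod.stdAddChar`, its values have norm 1, `conj (χ a) = χ (-a)`), and
`∑ l, χ (∑ u, l u * w u) = ∏ u, ∑ a : ZMod q, χ (a * w u)` (`Finset.prod_univ_sum` / `Fintype.piFinset`, `AddChar.map_sum_eq_prod`) is `q ^ n` if `w = 0` and `0` otherwise (for `w u ≠ 0` the
inner sum is zero: `AddChar.sum_mulShift` with `ZMod.isPrimitive_stdAddChar`).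
-/

set_option autoImplicit false

namespace MTC

open Finset

private theorem P1_prod {ι G : Type*} [AddCommMonoid G] (ψ : AddChar G ℂ) (s : Finset ι) (f : ι → G) :
    ψ (∑ i ∈ s, f i) = ∏ i ∈ s, ψ (f i) := by
  classical
  induction s using Finset.induction_on with
  | empty => rw [Finset.sum_empty, Finset.prod_empty, AddChar.map_zero_eq_one]
  | insert a s ha ih => rw [Finset.sum_insert ha, Finset.prod_insert ha, AddChar.map_add_eq_mul, ih]

private theorem P1_sum {n q : ℕ} [Fact q.Prime] (w : Fin n → ZMod q) :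
    ∑ l : Fin n → ZMod q, (ZMod.stdAddChar (∑ u, l u * w u) : ℂ) = if w = 0 then (q : ℂ) ^ n else 0 := by
  classical
  have h1 : ∀ l : Fin n → ZMod q, (ZMod.stdAddChar (∑ u, l u * w u) : ℂ) = ∏ u, ZMod.stdAddChar (l u * w u) :=
    fun l => P1_prod _ _ _
  rw [Finset.sum_congr rfl fun l _ => h1 l]
  have h2 := (Finset.prod_univ_sum (fun _ : Fin n => (Finset.univ : Finset (ZMod q)))
    (fun u a => (ZMod.stdAddChar (a * w u) : ℂ))).symm
  rw [Fintype.piFinset_univ] at h2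
  rw [h2]
  have h3 : ∀ u, ∑ a : ZMod q, (ZMod.stdAddChar (a * w u) : ℂ) = if w u = 0 then (q : ℂ) else 0 := by
    intro u
    rw [AddChar.sum_mulShift (w u) (ZMod.isPrimitive_stdAddChar q), ZMod.card]
    split_ifs <;> simp
  rw [Finset.prod_congr rfl fun u _ => h3 u]
  by_cases hw : w = 0
  · rw [if_pos hw]
    simp [hw]
  · rw [if_neg hw]
    obtain ⟨u, hu⟩ := Function.ne_iff.1 hw
    exact Finset.prod_eq_zero (Finset.mem_univ u) (if_neg hu)

private theorem P1_sq (z : ℂ) : ((‖z‖ ^ 2 : ℝ) : ℂ) = z * (starRingEnd ℂ) z := by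
  rw [Complex.mul_conj, Complex.normSq_eq_norm_sq]

theorem parseval {n q : ℕ} [Fact q.Prime] (h : (Fin n → ZMod q) → ℂ) :
    ∑ l, ‖FT h l‖ ^ 2 = (q : ℝ) ^ n * ∑ v, ‖h v‖ ^ 2 := by
  classical
  have h0 : ((∑ l, ‖FT h l‖ ^ 2 : ℝ) : ℂ) = (((q : ℝ) ^ n * ∑ v, ‖h v‖ ^ 2 : ℝ) : ℂ) := by
    have h1 : ((∑ l, ‖FT h l‖ ^ 2 : ℝ) : ℂ) = ∑ l : Fin n → ZMod q, ∑ v : Fin n → ZMod q, ∑ w : Fin n → ZMod q,
        h v * (starRingEnd ℂ) (h w) * ZMod.stdAddChar (∑ u, l u * (v - w) u) := by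
      rw [Complex.ofReal_sum]
      refine Finset.sum_congr rfl fun l _ => ?_
      rw [P1_sq, FT, map_sum, Finset.sum_mul_sum]
      refine Finset.sum_congr rfl fun v _ => Finset.sum_congr rfl fun w _ => ?_
      have h2 : ∑ u, l u * (v - w) u = ∑ u, l u * v u + -∑ u, l u * w u := by
        rw [← sub_eq_add_neg, ← Finset.sum_sub_distrib]
        exact Finset.sum_congr rfl fun u _ => by rw [Pi.sub_apply, mul_sub]
      rw [map_mul, h2, AddChar.map_add_eq_mul, AddChar.map_neg_eq_conj]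
      ring
    rw [h1, Finset.sum_comm]
    have h3 : ∀ v : Fin n → ZMod q, ∑ l : Fin n → ZMod q, ∑ w : Fin n → ZMod q,
        h v * (starRingEnd ℂ) (h w) * ZMod.stdAddChar (∑ u, l u * (v - w) u) =
        (q : ℂ) ^ n * ((‖h v‖ ^ 2 : ℝ) : ℂ) := by
      intro v
      rw [Finset.sum_comm]
      have h4 : ∀ w : Fin n → ZMod q, ∑ l : Fin n → ZMod q,
          h v * (starRingEnd ℂ) (h w) * ZMod.stdAddChar (∑ u, l u * (v - w) u) =
          if v = w then (q : ℂ) ^ n * ((‖h v‖ ^ 2 : ℝ) : ℂ) else 0 := by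
        intro w
        rw [← Finset.mul_sum, P1_sum]
        by_cases hvw : v = w
        · rw [if_pos (sub_eq_zero.2 hvw), if_pos hvw, ← hvw, P1_sq, mul_comm]
        · rw [if_neg (fun h5 => hvw (sub_eq_zero.1 h5)), if_neg hvw, mul_zero]
      rw [Finset.sum_congr rfl fun w _ => h4 w, Finset.sum_ite_eq, if_pos (Finset.mem_univ v)]
    rw [Finset.sum_congr rfl fun v _ => h3 v, ← Finset.mul_sum, Complex.ofReal_mul, Complex.ofReal_sum,
      Complex.ofReal_pow, Complex.ofReal_natCast]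
  exact Complex.ofReal_injective h0

end MTC
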