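import Pool.Agent.Lib.MP_0087d5_lcMT.BDefs

/-!
# Leaf P2 (medium): the walk in Fourier coordinates

Proof. First claim: substitute `v' = v + c • gd n a`: `FT (PP h) l = q⁻² ∑ a, ∑ c, χ (- c * ∑ u, l u * a ^ u) * FT h l`, and `∑ c, χ (- c * z) = q` if `z = 0`, else 0
(`AddChar.sum_mulShift`, `ZMod.isPrimitive_stdAddChar`). Second claim: the `a` with `∑ u, l u * a ^ u = 0` are roots of the nonzero polynomial
`∑ u, C (l u) * X ^ u` of degree `≤ n - 1`, so they are at most `n` (`Polynomial.card_roots'`).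
-/

set_option autoImplicit false

namespace MTC

open Finset

theorem FT_PP {n q : ℕ} [Fact q.Prime] (h : (Fin n → ZMod q) → ℝ) (l : Fin n → ZMod q) :
    FT (fun v => ((PP h v : ℝ) : ℂ)) l =
      ((univ.filter fun a : ZMod q => ∑ u, l u * a ^ (u : ℕ) = 0).card : ℂ) / (q : ℂ) * FT (fun v => ((h v : ℝ) : ℂ)) l := by
  have hq : (q : ℂ) ≠ 0 := by exact_mod_cast (Fact.out : q.Prime).ne_zero
  have h1 : ∀ w : Fin n → ZMod q, ∑ v, ((h (v + w) : ℝ) : ℂ) * ZMod.stdAddChar (∑ u, l u * v u)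
      = ZMod.stdAddChar (-(∑ u, l u * w u)) * FT (fun v => ((h v : ℝ) : ℂ)) l := by
    intro w
    rw [FT, Finset.mul_sum]
    rw [← Equiv.sum_comp (Equiv.addRight w) (fun v => ZMod.stdAddChar (-(∑ u, l u * w u)) *
      (((h v : ℝ) : ℂ) * ZMod.stdAddChar (∑ u, l u * v u)))]
    refine Finset.sum_congr rfl fun v _ => ?_
    have e1 : ∑ u, l u * v u = -(∑ u, l u * w u) + ∑ u, l u * (v + w) u := by
      simp only [Pi.add_apply, mul_add, Finset.sum_add_distrib]
      ring
    rw [e1, AddChar.map_add_eq_mul]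
    simp only [Equiv.coe_addRight]
    ring
  have h2 : ∀ a : ZMod q, ∑ c : ZMod q, (ZMod.stdAddChar (-(∑ u, l u * (c • gd n a) u)) : ℂ) =
      if ∑ u, l u * a ^ (u : ℕ) = 0 then (q : ℂ) else 0 := by
    intro a
    have e2 : ∀ c : ZMod q, -(∑ u, l u * (c • gd n a) u) = c * (-(∑ u, l u * a ^ (u : ℕ))) := by
      intro c
      rw [mul_neg, Finset.mul_sum]
      congr 1
      refine Finset.sum_congr rfl fun u _ => ?_
      simp only [Pi.smul_apply, smul_eq_mul, gd]
      ring
    simp_rw [e2]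
    rw [AddChar.sum_mulShift _ (ZMod.isPrimitive_stdAddChar q)]
    simp [ZMod.card]
  have h3 : FT (fun v => ((PP h v : ℝ) : ℂ)) l =
      (∑ a : ZMod q, ∑ c : ZMod q, ∑ v : Fin n → ZMod q, ((h (v + c • gd n a) : ℝ) : ℂ) *
        ZMod.stdAddChar (∑ u, l u * v u)) / (q : ℂ) ^ 2 := by
    rw [FT]
    have e3 : ∀ v : Fin n → ZMod q, ((PP h v : ℝ) : ℂ) =
        (∑ a : ZMod q, ∑ c : ZMod q, ((h (v + c • gd n a) : ℝ) : ℂ)) / (q : ℂ) ^ 2 := by
      intro v
      rw [PP]
      push_cast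
      rfl
    simp_rw [e3, div_mul_eq_mul_div, ← Finset.sum_div, Finset.sum_mul]
    congr 1
    rw [Finset.sum_comm]
    refine Finset.sum_congr rfl fun a _ => ?_
    rw [Finset.sum_comm]
  rw [h3]
  simp_rw [h1, ← Finset.sum_mul, h2]
  rw [← Finset.sum_filter, Finset.sum_const, nsmul_eq_mul]
  field_simp

theorem card_zero_le {n q : ℕ} [Fact q.Prime] (l : Fin n → ZMod q) (hl : l ≠ 0) :
    (univ.filter fun a : ZMod q => ∑ u, l u * a ^ (u : ℕ) = 0).card ≤ n := by
  classical
  let P : Polynomial (ZMod q) := ∑ u : Fin n, Polynomial.C (l u) * Polynomial.X ^ (u : ℕ)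
  have hco : ∀ u : Fin n, P.coeff (u : ℕ) = l u := by
    intro u
    simp only [P, Polynomial.finsetSum_coeff, Polynomial.coeff_C_mul, Polynomial.coeff_X_pow]
    rw [Finset.sum_eq_single u]
    · simp
    · intro v _ hv
      rw [if_neg, mul_zero]
      intro h1
      exact hv (Fin.ext h1.symm)
    · intro h1
      exact absurd (Finset.mem_univ u) h1
  have hP : P ≠ 0 := by
    intro h0
    apply hl
    funext u
    rw [← hco u, h0]
    simp
  have hdeg : P.natDegree ≤ n := by
    refine Polynomial.natDegree_sum_le_of_forall_le _ _ fun u _ => ?_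
    exact (Polynomial.natDegree_C_mul_X_pow_le _ _).trans u.2.le
  refine le_trans ?_ ((Polynomial.card_roots' P).trans hdeg)
  refine le_trans (Finset.card_le_card ?_) (Multiset.toFinset_card_le P.roots)
  intro a ha
  rw [Multiset.mem_toFinset, Polynomial.mem_roots hP, Polynomial.IsRoot.def]
  have h1 := (Finset.mem_filter.1 ha).2
  simp only [P, Polynomial.eval_finsetSum, Polynomial.eval_mul, Polynomial.eval_C, Polynomial.eval_pow,
    Polynomial.eval_X]
  exact h1

end MTC
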