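import Pool.Agent.Lib.MP_0087d5_lcMT.P1
import Pool.Agent.Lib.MP_0087d5_lcMT.P2

/-!
# Leaf P3 (easy+): the spectral bound

Proof. By `parseval` for `PP h` and for `h` (as complex functions): `q ^ n * ∑ v, (PP h v) ^ 2 = ∑ l, ‖FT (PP h) l‖ ^ 2`; for `l = 0`, `FT h 0 = ∑ v, h v = 0`, for `l ≠ 0` the factor
in `FT_PP` is at most `n / q` (`card_zero_le`).
-/

set_option autoImplicit false

namespace MTC

open Finset

theorem spectral {n q : ℕ} [Fact q.Prime] (h : (Fin n → ZMod q) → ℝ) (h0 : ∑ v, h v = 0) :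
    ∑ v, (PP h v) ^ 2 ≤ ((n : ℝ) / q) ^ 2 * ∑ v, h v ^ 2 := by
  have hq : (0 : ℝ) < q := by exact_mod_cast (Fact.out : q.Prime).pos
  have hqn : (0 : ℝ) < (q : ℝ) ^ n := pow_pos hq n
  have hn : ∀ x : ℝ, ‖((x : ℝ) : ℂ)‖ ^ 2 = x ^ 2 := fun x => by
    rw [Complex.norm_real, Real.norm_eq_abs, sq_abs]
  have h1 : ∀ l : Fin n → ZMod q, ‖FT (fun v => ((PP h v : ℝ) : ℂ)) l‖ ^ 2 ≤
      ((n : ℝ) / q) ^ 2 * ‖FT (fun v => ((h v : ℝ) : ℂ)) l‖ ^ 2 := by
    intro l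
    rw [FT_PP]
    by_cases hl : l = 0
    · have h2 : FT (fun v => ((h v : ℝ) : ℂ)) l = 0 := by
        subst hl
        unfold FT
        have h3 : ∀ v : Fin n → ZMod q, ((h v : ℝ) : ℂ) * ZMod.stdAddChar (∑ u, (0 : Fin n → ZMod q) u * v u) =
            ((h v : ℝ) : ℂ) := fun v => by
          simp
        rw [Finset.sum_congr rfl fun v _ => h3 v, ← Complex.ofReal_sum, h0, Complex.ofReal_zero]
      rw [h2, mul_zero, norm_zero]
      norm_num
    · rw [norm_mul, mul_pow]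
      refine mul_le_mul_of_nonneg_right ?_ (sq_nonneg _)
      refine pow_le_pow_left₀ (norm_nonneg _) ?_ 2
      rw [norm_div, Complex.norm_natCast, Complex.norm_natCast]
      exact div_le_div_of_nonneg_right (by exact_mod_cast card_zero_le l hl) hq.le
  have h2 := parseval (fun v => ((PP h v : ℝ) : ℂ))
  have h3 := parseval (fun v => ((h v : ℝ) : ℂ))
  simp only [hn] at h2 h3
  have h4 : (q : ℝ) ^ n * ∑ v, (PP h v) ^ 2 ≤ (q : ℝ) ^ n * (((n : ℝ) / q) ^ 2 * ∑ v, h v ^ 2) := by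
    rw [← h2, mul_left_comm, ← h3, Finset.mul_sum]
    exact Finset.sum_le_sum fun l _ => h1 l
  exact le_of_mul_le_mul_left h4 hqn

end MTC
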