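import Pool.Agent.Lib.MP_0087d5_lcMT.P3

/-!
# Leaf P4 (medium): one step of the walk inside a set

Proof. Let `β = card B / q ^ n`, `m = (∑ v, g v) / q ^ n` the mean of `g`, `g = m + k` with `∑ k = 0`. `PP g = m + PP k` (`PP` is linear and fixes the constants). In the norm
`‖h‖ = sqrt (∑ v, h v ^ 2)`: `‖1_B PP g‖ ≤ ‖1_B m‖ + ‖PP k‖ ≤ |m| sqrt (card B) + (n / q) ‖k‖`; `‖k‖ ≤ ‖g‖`; `|∑ v, g v| = |∑ v ∈ B, g v| ≤ sqrt (card B) ‖g‖` (Cauchy-Schwarz, `g` is zero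
outside `B`), so `|m| sqrt (card B) ≤ β ‖g‖`. (Use `EuclideanSpace` norms, or `Real.sqrt` and Minkowski `Real.Lp_add_le`, or avoid roots: for all `a, b ≥ 0` one has
`(x + y) ^ 2 ≤ ...`; simplest: `EuclideanSpace ℝ (Fin n → ZMod q)` and its triangle inequality.)
-/

set_option autoImplicit false

namespace MTC

open Finset

private theorem P4_add {V : Type} [Fintype V] (a b : V → ℝ) {α γ S : ℝ} (hα : 0 ≤ α) (hγ : 0 ≤ γ) (hS : 0 ≤ S)
    (ha : ∑ v, a v ^ 2 ≤ α ^ 2 * S) (hb : ∑ v, b v ^ 2 ≤ γ ^ 2 * S) :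
    ∑ v, (a v + b v) ^ 2 ≤ (α + γ) ^ 2 * S := by
  have h1 : (∑ v, a v * b v) ^ 2 ≤ (α * γ * S) ^ 2 := by
    calc (∑ v, a v * b v) ^ 2 ≤ (∑ v, a v ^ 2) * ∑ v, b v ^ 2 := Finset.sum_mul_sq_le_sq_mul_sq _ _ _
      _ ≤ (α ^ 2 * S) * (γ ^ 2 * S) :=
        mul_le_mul ha hb (Finset.sum_nonneg fun v _ => sq_nonneg _) (by positivity)
      _ = (α * γ * S) ^ 2 := by ring
  have h2 : ∑ v, a v * b v ≤ α * γ * S := by
    have h3 : 0 ≤ α * γ * S := by positivity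
    exact le_trans (le_abs_self _) (abs_le_of_sq_le_sq h1 h3)
  have h4 : ∑ v, (a v + b v) ^ 2 = ∑ v, a v ^ 2 + 2 * ∑ v, a v * b v + ∑ v, b v ^ 2 := by
    rw [Finset.mul_sum, ← Finset.sum_add_distrib, ← Finset.sum_add_distrib]
    refine Finset.sum_congr rfl fun v _ => ?_
    ring
  rw [h4]
  nlinarith

private theorem P4_const {n q : ℕ} [Fact q.Prime] (g : (Fin n → ZMod q) → ℝ) (m : ℝ) (v : Fin n → ZMod q) :
    PP g v = m + PP (fun w => g w - m) v := by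
  have hq : (q : ℝ) ≠ 0 := by exact_mod_cast (Fact.out : q.Prime).ne_zero
  unfold PP
  simp only [Finset.sum_sub_distrib, Finset.sum_const, Finset.card_univ, ZMod.card, nsmul_eq_mul]
  field_simp
  ring

open Classical in
theorem step {n q : ℕ} [Fact q.Prime] (B : Finset (Fin n → ZMod q)) (g : (Fin n → ZMod q) → ℝ) (hg : ∀ v, v ∉ B → g v = 0) :
    ∑ v, (if v ∈ B then PP g v else 0) ^ 2 ≤ ((B.card : ℝ) / (q : ℝ) ^ n + (n : ℝ) / q) ^ 2 * ∑ v, g v ^ 2 := by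
  have hq : 0 < q := (Fact.out : q.Prime).pos
  have hqR : (0 : ℝ) < q := by exact_mod_cast hq
  have hN : (0 : ℝ) < (q : ℝ) ^ n := by positivity
  have hcard : ((Finset.univ : Finset (Fin n → ZMod q)).card : ℝ) = (q : ℝ) ^ n := by
    rw [Finset.card_univ, Fintype.card_fun, ZMod.card, Fintype.card_fin]
    push_cast
    ring
  obtain ⟨m, hm⟩ : ∃ m : ℝ, m = (∑ v, g v) / (q : ℝ) ^ n := ⟨_, rfl⟩
  have hm' : ∑ v, g v = m * (q : ℝ) ^ n := by
    rw [hm]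
    field_simp
  have hS : 0 ≤ ∑ v, g v ^ 2 := Finset.sum_nonneg fun v _ => sq_nonneg _
  have h0 : ∑ v, (g v - m) = 0 := by
    rw [Finset.sum_sub_distrib, Finset.sum_const, nsmul_eq_mul, hcard, hm']
    ring
  have hk : ∑ v, (g v - m) ^ 2 ≤ ∑ v, g v ^ 2 := by
    have e1 : ∑ v, (g v - m) ^ 2 = ∑ v, g v ^ 2 - 2 * m * ∑ v, g v + ∑ _v : Fin n → ZMod q, m ^ 2 := by
      rw [Finset.mul_sum, ← Finset.sum_sub_distrib, ← Finset.sum_add_distrib]
      refine Finset.sum_congr rfl fun v _ => ?_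
      ring
    rw [e1, Finset.sum_const, nsmul_eq_mul, hcard, hm']
    nlinarith [mul_nonneg (sq_nonneg m) hN.le]
  have hB : ∑ v, g v = ∑ v ∈ B, g v := by
    refine (Finset.sum_subset (Finset.subset_univ B) fun v _ hv => hg v hv).symm
  have hB2 : (∑ v, g v) ^ 2 ≤ (B.card : ℝ) * ∑ v, g v ^ 2 := by
    rw [hB]
    refine sq_sum_le_card_mul_sum_sq.trans ?_
    refine mul_le_mul_of_nonneg_left ?_ (Nat.cast_nonneg _)
    exact Finset.sum_le_sum_of_subset_of_nonneg (Finset.subset_univ B) fun v _ _ => sq_nonneg _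
  have ha : ∑ v, (if v ∈ B then m else 0) ^ 2 ≤ ((B.card : ℝ) / (q : ℝ) ^ n) ^ 2 * ∑ v, g v ^ 2 := by
    have e1 : ∑ v, (if v ∈ B then m else 0) ^ 2 = (B.card : ℝ) * m ^ 2 := by
      simp only [ite_pow, ne_eq, OfNat.ofNat_ne_zero, not_false_eq_true, zero_pow]
      rw [Finset.sum_ite_mem, Finset.univ_inter, Finset.sum_const, nsmul_eq_mul]
    have e2 : m ^ 2 = (∑ v, g v) ^ 2 / ((q : ℝ) ^ n) ^ 2 := by
      rw [hm, div_pow]
    rw [e1, e2]
    have e3 : ((B.card : ℝ) / (q : ℝ) ^ n) ^ 2 * ∑ v, g v ^ 2 =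
        (B.card : ℝ) * (((B.card : ℝ) * ∑ v, g v ^ 2) / ((q : ℝ) ^ n) ^ 2) := by
      rw [div_pow]
      ring
    rw [e3]
    exact mul_le_mul_of_nonneg_left (div_le_div_of_nonneg_right hB2 (by positivity)) (Nat.cast_nonneg _)
  have hb : ∑ v, (if v ∈ B then PP (fun w => g w - m) v else 0) ^ 2 ≤ ((n : ℝ) / q) ^ 2 * ∑ v, g v ^ 2 := by
    calc ∑ v, (if v ∈ B then PP (fun w => g w - m) v else 0) ^ 2
        ≤ ∑ v, (PP (fun w => g w - m) v) ^ 2 := by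
          refine Finset.sum_le_sum fun v _ => ?_
          split_ifs
          · exact le_rfl
          · rw [zero_pow two_ne_zero]
            exact sq_nonneg _
      _ ≤ ((n : ℝ) / q) ^ 2 * ∑ v, (g v - m) ^ 2 := spectral _ h0
      _ ≤ _ := mul_le_mul_of_nonneg_left hk (sq_nonneg _)
  have h := P4_add (fun v => if v ∈ B then m else 0) (fun v => if v ∈ B then PP (fun w => g w - m) v else 0)
    (div_nonneg (Nat.cast_nonneg _) hN.le) (div_nonneg (Nat.cast_nonneg _) hqR.le) hS ha hb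
  refine le_of_eq_of_le (Finset.sum_congr rfl fun v _ => ?_) h
  by_cases hv : v ∈ B
  · rw [if_pos hv, if_pos hv, if_pos hv, ← P4_const g m v]
  · rw [if_neg hv, if_neg hv, if_neg hv, add_zero]

end MTC
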