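import Pool.Agent.Lib.MP_0087d5_lcMT.P4

/-!
# Leaf P5 (medium): the number of the walks inside a set

Proof. Let `N t v` be the number of `s : Fin t → ZMod q × ZMod q` such that `v + ∑ i < j, (s i).2 • gd n (s i).1 ∈ B` for all `j ≤ t`. `N 0 v = [v ∈ B]`,
`N (t + 1) v = [v ∈ B] * ∑ (a, c), N t (v + c • gd n a)` (split off the first step, `Fin.consEquiv`) `= [v ∈ B] * q ^ 2 * PP (N t) v`. So by `step`
`∑ v, (N (t + 1) v) ^ 2 ≤ (q ^ 2) ^ 2 * δ ^ 2 * ∑ v, (N t v) ^ 2` with `δ = card B / q ^ n + n / q`, and `∑ v, (N T v) ^ 2 ≤ q ^ (4 T) * δ ^ (2 T) * card B ≤ q ^ (4 T) δ ^ (2 T) q ^ n`. The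
number is `∑ v, N T v ≤ sqrt (q ^ n * ∑ v, (N T v) ^ 2) ≤ q ^ n * q ^ (2 T) * δ ^ T`.
-/

set_option autoImplicit false

namespace MTC

open Finset

/-- the walk from `v` with the steps `s` stays in `B` -/
private def P5C {n q : ℕ} (B : Finset (Fin n → ZMod q)) (T : ℕ) (v : Fin n → ZMod q)
    (s : Fin T → ZMod q × ZMod q) : Prop :=
  ∀ t ≤ T, v + ∑ i : Fin T, (if (i : ℕ) < t then (s i).2 • gd n (s i).1 else 0) ∈ B

private theorem P5_sum {n q : ℕ} (T t : ℕ) (v : Fin n → ZMod q) (x : ZMod q × ZMod q)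
    (s : Fin T → ZMod q × ZMod q) :
    v + ∑ i : Fin (T + 1), (if (i : ℕ) < t + 1 then
      ((Fin.cons x s : Fin (T + 1) → ZMod q × ZMod q) i).2 •
        gd n ((Fin.cons x s : Fin (T + 1) → ZMod q × ZMod q) i).1 else 0) =
    (v + x.2 • gd n x.1) + ∑ i : Fin T, (if (i : ℕ) < t then (s i).2 • gd n (s i).1 else 0) := by
  rw [Fin.sum_univ_succ, add_assoc]
  simp only [Fin.cons_zero, Fin.cons_succ, Fin.val_zero, Fin.val_succ, Nat.zero_lt_succ, if_true,
    add_lt_add_iff_right]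

private theorem P5_cons {n q : ℕ} (B : Finset (Fin n → ZMod q)) (T : ℕ) (v : Fin n → ZMod q)
    (x : ZMod q × ZMod q) (s : Fin T → ZMod q × ZMod q) :
    P5C B (T + 1) v (Fin.cons x s : Fin (T + 1) → ZMod q × ZMod q) ↔
      v ∈ B ∧ P5C B T (v + x.2 • gd n x.1) s := by
  have h0 : ∀ s' : Fin (T + 1) → ZMod q × ZMod q,
      v + ∑ i : Fin (T + 1), (if (i : ℕ) < 0 then (s' i).2 • gd n (s' i).1 else 0) = v := by
    intro s'
    rw [Finset.sum_eq_zero fun i _ => if_neg (Nat.not_lt_zero _), add_zero]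
  constructor
  · intro h
    refine ⟨?_, fun t ht => ?_⟩
    · have h1 := h 0 (Nat.zero_le _)
      rw [h0] at h1
      exact h1
    · have h1 := h (t + 1) (Nat.succ_le_succ ht)
      rw [P5_sum] at h1
      exact h1
  · rintro ⟨hv, h⟩ t ht
    rcases t with _ | t
    · rw [h0]
      exact hv
    · rw [P5_sum]
      exact h t (Nat.le_of_succ_le_succ ht)

private theorem P5_zero {n q : ℕ} [Fact q.Prime] (B : Finset (Fin n → ZMod q)) (v : Fin n → ZMod q) :
    ((Nat.card {s : Fin 0 → ZMod q × ZMod q // P5C B 0 v s} : ℕ) : ℝ) = if v ∈ B then 1 else 0 := by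
  have h0 : ∀ s : Fin 0 → ZMod q × ZMod q, P5C B 0 v s ↔ v ∈ B := by
    intro s
    constructor
    · intro h
      have h1 := h 0 le_rfl
      rw [Fin.sum_univ_zero, add_zero] at h1
      exact h1
    · intro h t _
      rw [Fin.sum_univ_zero, add_zero]
      exact h
  by_cases hv : v ∈ B
  · rw [if_pos hv]
    have h1 : Nat.card {s : Fin 0 → ZMod q × ZMod q // P5C B 0 v s} = 1 := by
      have : Unique {s : Fin 0 → ZMod q × ZMod q // P5C B 0 v s} :=
        ⟨⟨⟨Fin.elim0, (h0 _).2 hv⟩⟩, fun x => Subtype.ext (Subsingleton.elim _ _)⟩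
      exact Nat.card_unique
    rw [h1, Nat.cast_one]
  · rw [if_neg hv]
    have h1 : IsEmpty {s : Fin 0 → ZMod q × ZMod q // P5C B 0 v s} := ⟨fun x => hv ((h0 _).1 x.2)⟩
    rw [Nat.card_of_isEmpty, Nat.cast_zero]

private theorem P5_succ {n q : ℕ} [Fact q.Prime] (B : Finset (Fin n → ZMod q)) (T : ℕ) (v : Fin n → ZMod q) :
    ((Nat.card {s : Fin (T + 1) → ZMod q × ZMod q // P5C B (T + 1) v s} : ℕ) : ℝ) =
      if v ∈ B then ∑ a : ZMod q, ∑ c : ZMod q,
        ((Nat.card {s : Fin T → ZMod q × ZMod q // P5C B T (v + c • gd n a) s} : ℕ) : ℝ) else 0 := by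
  classical
  by_cases hv : v ∈ B
  · rw [if_pos hv]
    have e1 : {z : (ZMod q × ZMod q) × (Fin T → ZMod q × ZMod q) // P5C B T (v + z.1.2 • gd n z.1.1) z.2} ≃
        {s : Fin (T + 1) → ZMod q × ZMod q // P5C B (T + 1) v s} :=
      Equiv.subtypeEquiv (Fin.consEquiv fun _ => ZMod q × ZMod q) fun z => by
        have h1 := P5_cons B T v z.1 z.2
        constructor
        · intro h
          exact h1.2 ⟨hv, h⟩
        · intro h
          exact (h1.1 h).2
    have e2 := Equiv.subtypeProdEquivSigmaSubtype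
      (fun (x : ZMod q × ZMod q) (s : Fin T → ZMod q × ZMod q) => P5C B T (v + x.2 • gd n x.1) s)
    rw [← Nat.card_congr e1, Nat.card_congr e2, Nat.card_sigma, Nat.cast_sum, Fintype.sum_prod_type]
  · rw [if_neg hv]
    have h1 : IsEmpty {s : Fin (T + 1) → ZMod q × ZMod q // P5C B (T + 1) v s} := by
      refine ⟨fun x => hv ?_⟩
      have h2 := x.2 0 (Nat.zero_le _)
      rw [Finset.sum_eq_zero fun i _ => if_neg (Nat.not_lt_zero _), add_zero] at h2
      exact h2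
    rw [Nat.card_of_isEmpty, Nat.cast_zero]

open Classical in
theorem hitting {n q : ℕ} [Fact q.Prime] (T : ℕ) (B : Finset (Fin n → ZMod q)) :
    ((univ.filter fun z : (Fin n → ZMod q) × (Fin T → ZMod q × ZMod q) =>
      ∀ t ≤ T, z.1 + ∑ i : Fin T, (if (i : ℕ) < t then (z.2 i).2 • gd n (z.2 i).1 else 0) ∈ B).card : ℝ) ≤
      (q : ℝ) ^ n * (q : ℝ) ^ (2 * T) * ((B.card : ℝ) / (q : ℝ) ^ n + (n : ℝ) / q) ^ T := by
  have hq : 0 < q := (Fact.out : q.Prime).pos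
  have hq0 : (0 : ℝ) < q := by exact_mod_cast hq
  set δ : ℝ := (B.card : ℝ) / (q : ℝ) ^ n + (n : ℝ) / q with hδ
  have hδ0 : 0 ≤ δ := by
    rw [hδ]
    positivity
  let N : ℕ → (Fin n → ZMod q) → ℝ := fun t v =>
    ((Nat.card {s : Fin t → ZMod q × ZMod q // P5C B t v s} : ℕ) : ℝ)
  have hN0 : ∀ v, N 0 v = if v ∈ B then 1 else 0 := P5_zero B
  have hNs : ∀ t v, N (t + 1) v = if v ∈ B then ∑ a : ZMod q, ∑ c : ZMod q, N t (v + c • gd n a) else 0 :=
    fun t v => P5_succ B t v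
  have hNB : ∀ t v, v ∉ B → N t v = 0 := by
    intro t v hv
    rcases t with _ | t
    · rw [hN0, if_neg hv]
    · rw [hNs, if_neg hv]
  have hNP : ∀ t v, N (t + 1) v = (q : ℝ) ^ 2 * (if v ∈ B then PP (N t) v else 0) := by
    intro t v
    rw [hNs]
    by_cases hv : v ∈ B
    · rw [if_pos hv, if_pos hv]
      unfold PP
      rw [mul_div_cancel₀]
      positivity
    · rw [if_neg hv, if_neg hv, mul_zero]
  have hstep : ∀ t, ∑ v, N (t + 1) v ^ 2 ≤ ((q : ℝ) ^ 4 * δ ^ 2) * ∑ v, N t v ^ 2 := by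
    intro t
    have h1 := step B (N t) (hNB t)
    have h2 : ∑ v, N (t + 1) v ^ 2 = (q : ℝ) ^ 4 * ∑ v, (if v ∈ B then PP (N t) v else 0) ^ 2 := by
      rw [Finset.mul_sum]
      refine Finset.sum_congr rfl fun v _ => ?_
      rw [hNP]
      ring
    rw [h2, mul_assoc]
    exact mul_le_mul_of_nonneg_left h1 (by positivity)
  have hall : ∀ t, ∑ v, N t v ^ 2 ≤ ((q : ℝ) ^ 4 * δ ^ 2) ^ t * (q : ℝ) ^ n := by
    intro t
    induction t with
    | zero =>
      rw [pow_zero, one_mul]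
      calc ∑ v, N 0 v ^ 2 ≤ ∑ _v : Fin n → ZMod q, (1 : ℝ) := by
            refine Finset.sum_le_sum fun v _ => ?_
            rw [hN0]
            split_ifs
            · norm_num
            · norm_num
        _ = (q : ℝ) ^ n := by
            rw [Finset.sum_const, Finset.card_univ, nsmul_eq_mul, mul_one, Fintype.card_fun, ZMod.card, Fintype.card_fin]
            push_cast
            rfl
    | succ t ih =>
      calc ∑ v, N (t + 1) v ^ 2 ≤ ((q : ℝ) ^ 4 * δ ^ 2) * ∑ v, N t v ^ 2 := hstep t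
        _ ≤ ((q : ℝ) ^ 4 * δ ^ 2) * (((q : ℝ) ^ 4 * δ ^ 2) ^ t * (q : ℝ) ^ n) :=
            mul_le_mul_of_nonneg_left ih (by positivity)
        _ = ((q : ℝ) ^ 4 * δ ^ 2) ^ (t + 1) * (q : ℝ) ^ n := by ring
  have hcount : ((univ.filter fun z : (Fin n → ZMod q) × (Fin T → ZMod q × ZMod q) =>
      ∀ t ≤ T, z.1 + ∑ i : Fin T, (if (i : ℕ) < t then (z.2 i).2 • gd n (z.2 i).1 else 0) ∈ B).card : ℝ) =
      ∑ v, N T v := by
    have h1 : (univ.filter fun z : (Fin n → ZMod q) × (Fin T → ZMod q × ZMod q) =>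
        ∀ t ≤ T, z.1 + ∑ i : Fin T, (if (i : ℕ) < t then (z.2 i).2 • gd n (z.2 i).1 else 0) ∈ B).card =
        Nat.card {z : (Fin n → ZMod q) × (Fin T → ZMod q × ZMod q) // P5C B T z.1 z.2} := by
      refine (Nat.subtype_card _ fun z => ?_).symm
      rw [Finset.mem_filter]
      exact ⟨fun h => h.2, fun h => ⟨Finset.mem_univ _, h⟩⟩
    rw [h1, Nat.card_congr (Equiv.subtypeProdEquivSigmaSubtype fun v s => P5C B T v s), Nat.card_sigma, Nat.cast_sum]
  rw [hcount]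
  have hnn : 0 ≤ ∑ v, N T v := Finset.sum_nonneg fun v _ => Nat.cast_nonneg _
  have hrhs : 0 ≤ (q : ℝ) ^ n * (q : ℝ) ^ (2 * T) * δ ^ T := by positivity
  refine (pow_le_pow_iff_left₀ hnn hrhs two_ne_zero).1 ?_
  calc (∑ v, N T v) ^ 2 ≤ (Finset.univ : Finset (Fin n → ZMod q)).card * ∑ v, N T v ^ 2 :=
        sq_sum_le_card_mul_sum_sq
    _ = (q : ℝ) ^ n * ∑ v, N T v ^ 2 := by
        rw [Finset.card_univ, Fintype.card_fun, ZMod.card, Fintype.card_fin]
        push_cast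
        rfl
    _ ≤ (q : ℝ) ^ n * (((q : ℝ) ^ 4 * δ ^ 2) ^ T * (q : ℝ) ^ n) :=
        mul_le_mul_of_nonneg_left (hall T) (by positivity)
    _ = ((q : ℝ) ^ n * (q : ℝ) ^ (2 * T) * δ ^ T) ^ 2 := by
        rw [mul_pow ((q : ℝ) ^ 4)]
        ring_nf

end MTC
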