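import Pool.Agent.Lib.MP_0087d5_lcMT.MDefs

/-!
# Leaf S1 (medium): the alternating vector of a cycle between `X` and its complement

Proof. For `a ∈ X`, `b ∉ X` let `v a b = (number of darts (a, b) of p) - (number of darts (b, a) of p)`, `v b a = v a b`, and `v = 0` on the other pairs
(`p.darts`). A cycle is a trail (`SimpleGraph.Walk.IsCycle.isTrail`), so `p.edges` has no duplicates and for each pair at most one of the two darts occurs, once:
the values are in `{-1, 0, 1}`; nonzero entries are at edges of `p`, 2 for each edge, `2 * p.length` in all; `v ≠ 0` because `p` has an edge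
(`IsCycle` has length `≥ 3`). Row sums: for `a ∈ X` the sum is (darts with first vertex `a`) - (darts with second vertex `a`), which is zero for a closed walk
(by induction on a walk `u → w`: the difference at `a` is `[a = u] - [a = w]`); all the darts go between `X` and its complement by `hX`. For `b ∉ X` it is minus that.
-/

set_option autoImplicit false

namespace MTC

open Finset

variable {V : Type} [Fintype V] [DecidableEq V]

/-- the number of darts `(a, b)` -/
private noncomputable def S1_cnt {H : SimpleGraph V} (D : List H.Dart) (a b : V) : ℤ :=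
  (D.countP (fun d => decide (d.toProd = (a, b))) : ℤ)

omit [Fintype V] in
private lemma S1_cnt_cons {H : SimpleGraph V} (d : H.Dart) (D : List H.Dart) (a b : V) :
    S1_cnt (d :: D) a b = S1_cnt D a b + (if d.toProd = (a, b) then 1 else 0) := by
  unfold S1_cnt
  rw [List.countP_cons]
  by_cases h : d.toProd = (a, b) <;> simp [h]

omit [Fintype V] in
private lemma S1_cnt_nonneg {H : SimpleGraph V} (D : List H.Dart) (a b : V) : 0 ≤ S1_cnt D a b := by
  unfold S1_cnt
  exact Int.natCast_nonneg _

omit [Fintype V] in
private lemma S1_mem {H : SimpleGraph V} (D : List H.Dart) (a b : V) (h : S1_cnt D a b ≠ 0) :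
    ∃ d ∈ D, d.toProd = (a, b) := by
  unfold S1_cnt at h
  have h1 : 0 < D.countP (fun d => decide (d.toProd = (a, b))) := by
    rcases Nat.eq_zero_or_pos (D.countP (fun d => decide (d.toProd = (a, b)))) with h0 | h0
    · rw [h0] at h
      simp at h
    · exact h0
  rw [List.countP_pos_iff] at h1
  obtain ⟨d, hd, h2⟩ := h1
  exact ⟨d, hd, by simpa using h2⟩

omit [Fintype V] in
private lemma S1_le {H : SimpleGraph V} {a b : V} (hab : a ≠ b) (D : List H.Dart) :
    S1_cnt D a b + S1_cnt D b a ≤ ((D.map SimpleGraph.Dart.edge).count s(a, b) : ℤ) := by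
  induction D with
  | nil => simp [S1_cnt]
  | cons d D ih =>
    rw [S1_cnt_cons, S1_cnt_cons, List.map_cons, List.count_cons]
    have h1 : (if d.toProd = (a, b) then (1 : ℤ) else 0) + (if d.toProd = (b, a) then (1 : ℤ) else 0) ≤
        ((if d.edge == s(a, b) then 1 else 0 : ℕ) : ℤ) := by
      by_cases h1 : d.toProd = (a, b)
      · have h2 : ¬ d.toProd = (b, a) := by
          rw [h1]
          intro h
          exact hab (Prod.mk.inj h).1
        have h3 : d.edge = s(a, b) := by
          rw [SimpleGraph.Dart.edge, h1]
        simp [h1, h3, hab]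
      · by_cases h2 : d.toProd = (b, a)
        · have h3 : d.edge = s(a, b) := by
            rw [SimpleGraph.Dart.edge, h2]
            exact Sym2.eq_swap
          simp [h2, h3, Ne.symm hab]
        · simp only [h1, h2, if_false, add_zero]
          exact Int.natCast_nonneg _
    push_cast at h1 ⊢
    linarith

private lemma S1_row {H : SimpleGraph V} (a : V) {x y : V} (q : H.Walk x y) :
    (∑ b, S1_cnt q.darts a b) - ∑ b, S1_cnt q.darts b a =
      (if a = x then 1 else 0) - (if a = y then 1 else 0) := by
  induction q with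
  | nil => simp [S1_cnt]
  | @cons x z y h q ih =>
    rw [SimpleGraph.Walk.darts_cons]
    simp only [S1_cnt_cons, Finset.sum_add_distrib]
    have h1 : ∑ b : V, (if ((⟨(x, z), h⟩ : H.Dart)).toProd = (a, b) then (1 : ℤ) else 0) =
        if a = x then 1 else 0 := by
      by_cases hax : a = x
      · subst hax
        simp [Prod.ext_iff]
      · have h2 : ¬ x = a := fun h => hax h.symm
        simp [Prod.ext_iff, hax, h2]
    have h2 : ∑ b : V, (if ((⟨(x, z), h⟩ : H.Dart)).toProd = (b, a) then (1 : ℤ) else 0) =
        if a = z then 1 else 0 := by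
      by_cases haz : a = z
      · subst haz
        simp [Prod.ext_iff]
      · have h2 : ¬ z = a := fun h => haz h.symm
        simp [Prod.ext_iff, haz, h2]
    rw [h1, h2]
    linarith

theorem cycle_dir (H : SimpleGraph V) (X : Finset V) (hX : ∀ a b, H.Adj a b → (a ∈ X ↔ b ∉ X)) (u : V) (p : H.Walk u u) (hp : p.IsCycle) :
    ∃ v : V → V → ℤ, (∀ a b, v a b = v b a) ∧ (∀ a, v a a = 0) ∧ (∀ a b, v a b = 0 ∨ v a b = 1 ∨ v a b = -1) ∧ v ≠ 0 ∧
      (∀ a b, v a b ≠ 0 → H.Adj a b) ∧ (univ.filter fun q : V × V => v q.1 q.2 ≠ 0).card ≤ 2 * p.length ∧ ∀ a, ∑ b, v a b = 0 := by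
  classical
  have hsame : ∀ a b : V, (a ∈ X ↔ b ∈ X) → S1_cnt p.darts a b = 0 := by
    intro a b hab
    by_contra hc
    obtain ⟨d, -, hd⟩ := S1_mem _ _ _ hc
    have h1 : H.Adj a b := by
      have h2 := d.adj
      rw [hd] at h2
      exact h2
    have h2 := hX a b h1
    tauto
  have hnd : p.edges.Nodup := hp.isTrail.edges_nodup
  have hle : ∀ a b : V, S1_cnt p.darts a b + S1_cnt p.darts b a ≤ 1 := by
    intro a b
    by_cases hab : a = b
    · subst hab
      rw [hsame a a Iff.rfl]
      norm_num
    · have h1 := S1_le hab p.darts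
      have h2 : (p.darts.map SimpleGraph.Dart.edge).count s(a, b) ≤ 1 := by
        have h3 : (p.darts.map SimpleGraph.Dart.edge) = p.edges := rfl
        rw [h3]
        exact List.nodup_iff_count_le_one.1 hnd _
      have h3 : ((p.darts.map SimpleGraph.Dart.edge).count s(a, b) : ℤ) ≤ 1 := by exact_mod_cast h2
      linarith
  have hn := S1_cnt_nonneg p.darts
  refine ⟨fun a b => (if a ∈ X then 1 else -1) * (S1_cnt p.darts a b - S1_cnt p.darts b a), ?_, ?_, ?_,
    ?_, ?_, ?_, ?_⟩
  · intro a b
    by_cases hab : (a ∈ X ↔ b ∈ X)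
    · have h1 := hsame a b hab
      have h2 := hsame b a hab.symm
      simp only [h1, h2, sub_self, mul_zero]
    · by_cases ha : a ∈ X
      · have hb : b ∉ X := by tauto
        simp only [ha, hb, if_true, if_false]
        ring
      · have hb : b ∈ X := by tauto
        simp only [ha, hb, if_true, if_false]
        ring
  · intro a
    simp
  · intro a b
    have h1 := hle a b
    have h2 := hn a b
    have h3 := hn b a
    have h4 : S1_cnt p.darts a b - S1_cnt p.darts b a = 0 ∨ S1_cnt p.darts a b - S1_cnt p.darts b a = 1 ∨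
        S1_cnt p.darts a b - S1_cnt p.darts b a = -1 := by omega
    by_cases ha : a ∈ X
    · simp only [ha, if_true]
      omega
    · simp only [ha, if_false]
      omega
  · intro hv
    have hne : p.darts ≠ [] := by
      intro h
      have h1 := p.length_darts
      rw [h] at h1
      have h2 := hp.three_le_length
      simp at h1
      omega
    obtain ⟨d, D, hD⟩ := List.exists_cons_of_ne_nil hne
    have h1 : 1 ≤ S1_cnt p.darts d.toProd.1 d.toProd.2 := by
      rw [hD, S1_cnt_cons, if_pos rfl]
      have := S1_cnt_nonneg D d.toProd.1 d.toProd.2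
      linarith
    have h2 := hle d.toProd.1 d.toProd.2
    have h3 := hn d.toProd.2 d.toProd.1
    have h4 := congrFun (congrFun hv d.toProd.1) d.toProd.2
    simp only [Pi.zero_apply] at h4
    by_cases ha : d.toProd.1 ∈ X
    · simp only [ha, if_true] at h4
      omega
    · simp only [ha, if_false] at h4
      omega
  · intro a b hv
    by_cases h1 : S1_cnt p.darts a b = 0
    · have h2 : S1_cnt p.darts b a ≠ 0 := by
        intro h2
        exact hv (by simp only [h1, h2, sub_self, mul_zero])
      obtain ⟨d, -, hd⟩ := S1_mem _ _ _ h2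
      have h3 := d.adj
      rw [hd] at h3
      exact h3.symm
    · obtain ⟨d, -, hd⟩ := S1_mem _ _ _ h1
      have h3 := d.adj
      rw [hd] at h3
      exact h3
  · have hsub : (univ.filter fun q : V × V =>
        (if q.1 ∈ X then (1 : ℤ) else -1) * (S1_cnt p.darts q.1 q.2 - S1_cnt p.darts q.2 q.1) ≠ 0) ⊆
        (p.darts.map SimpleGraph.Dart.toProd).toFinset ∪
          (p.darts.map fun d => d.toProd.swap).toFinset := by
      intro q hq
      rw [Finset.mem_filter] at hq
      rw [Finset.mem_union, List.mem_toFinset, List.mem_toFinset, List.mem_map, List.mem_map]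
      by_cases h1 : S1_cnt p.darts q.1 q.2 = 0
      · have h2 : S1_cnt p.darts q.2 q.1 ≠ 0 := by
          intro h2
          exact hq.2 (by simp only [h1, h2, sub_self, mul_zero])
        obtain ⟨d, hd1, hd⟩ := S1_mem _ _ _ h2
        refine Or.inr ⟨d, hd1, ?_⟩
        rw [hd]
        rfl
      · obtain ⟨d, hd1, hd⟩ := S1_mem _ _ _ h1
        exact Or.inl ⟨d, hd1, hd⟩
    refine (Finset.card_le_card hsub).trans ((Finset.card_union_le _ _).trans ?_)
    have h1 := List.toFinset_card_le (p.darts.map SimpleGraph.Dart.toProd)
    have h2 := List.toFinset_card_le (p.darts.map fun d => d.toProd.swap)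
    rw [List.length_map, p.length_darts] at h1 h2
    omega
  · intro a
    rw [← Finset.mul_sum, Finset.sum_sub_distrib, S1_row a p, sub_self, mul_zero]

end MTC
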