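import Pool.Agent.Lib.MP_0087d5_lcMT.MDefs

/-!
# Leaf S2 (easy+): the cut sums of a vector between `X` and `U \ X`

Proof. `v a b ≠ 0` only if one of `a, b` is in `X` and the other in `U \ X`. `cut v S = ∑ a ∈ S, ∑ b ∈ Sᶜ, v a b`.
If `S ∩ U ⊆ X`: for `a ∈ S` with `v a b ≠ 0` we have `a ∈ X`, `b ∈ U \ X`, so `b ∉ S`; so `∑ b ∈ Sᶜ, v a b = ∑ b, v a b = 0`. If `S ∩ X = ∅`: for `a ∈ S` with
`v a b ≠ 0`, `a ∈ U \ X`, `b ∈ X`, so `b ∉ S`; the same. If `X ⊆ S`: `cut v S = ∑ b ∈ Sᶜ, ∑ a ∈ S, v b a` (symmetry), for `b ∉ S` with `v b a ≠ 0` we have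
`b ∈ U \ X`, `a ∈ X ⊆ S`; so it is the sum of the full rows of the `b ∉ S`, zero.
-/

set_option autoImplicit false

namespace MTC

open Finset

variable {V : Type} [Fintype V] [DecidableEq V]

theorem cut_zero (U X S : Finset V) (v : V → V → ℝ) (hs : ∀ a b, v a b = v b a) (hr : ∀ a, ∑ b, v a b = 0)
    (hv : ∀ a b, v a b ≠ 0 → (a ∈ X ∧ b ∈ U \ X) ∨ (b ∈ X ∧ a ∈ U \ X)) (hS : S ∩ U ⊆ X ∨ Disjoint S X ∨ X ⊆ S) : cut v S = 0 := by
  have key : ∀ T : Finset V, (∀ a ∈ T, ∀ b ∈ T, v a b = 0) → ∑ a ∈ T, ∑ b ∈ Tᶜ, v a b = 0 := by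
    intro T hT
    refine sum_eq_zero fun a ha => ?_
    have h1 := sum_add_sum_compl T (fun b => v a b)
    rw [hr a, sum_eq_zero (fun b hb => hT a ha b hb), zero_add] at h1
    exact h1
  unfold cut
  rcases hS with h | h | h
  · refine key S fun a ha b hb => ?_
    by_contra hn
    rcases hv a b hn with ⟨-, h2⟩ | ⟨-, h2⟩
    · rw [mem_sdiff] at h2
      exact h2.2 (h (mem_inter.2 ⟨hb, h2.1⟩))
    · rw [mem_sdiff] at h2
      exact h2.2 (h (mem_inter.2 ⟨ha, h2.1⟩))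
  · refine key S fun a ha b hb => ?_
    by_contra hn
    rcases hv a b hn with ⟨h1, -⟩ | ⟨h1, -⟩
    · exact disjoint_left.1 h ha h1
    · exact disjoint_left.1 h hb h1
  · have h3 := key Sᶜ fun a ha b hb => by
      by_contra hn
      rw [mem_compl] at ha hb
      rcases hv a b hn with ⟨h1, -⟩ | ⟨h1, -⟩
      · exact ha (h h1)
      · exact hb (h h1)
    rw [compl_compl, sum_comm] at h3
    rw [← h3]
    exact sum_congr rfl fun a _ => sum_congr rfl fun b _ => hs a b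

end MTC
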