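import Pool.Agent.Lib.MP_0087d5_lcMT.MDefs

/-!
# Leaf S3 (medium+): balanced separation of a laminar family

Proof. Let `M` be the family of the traces `S ∩ U`, `S ∈ L`, together with `U`; it is laminar. Let `Y ∈ M` be a member with `3 * card Y > 2 * card U` of
least cardinality (`U` is one). Let `C` be the set of the maximal members of `{T ∈ M | T ⊂ Y}` (strict subsets); they are pairwise disjoint, each has `3 * card T ≤ 2 * card U`
by the choice of `Y`, and each member of `M` is contained in some member of `C`, or contains `Y`, or is disjoint from `Y` (laminar).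
If some `T ∈ C` has `3 * card T ≥ card U` take `X = T` (nonempty). Otherwise consider the blocks: the members of `C` (nonempty ones) and the singletons `{y}`, `y ∈ Y` in no member of `C`. They
partition `Y`, each has `3 * card < card U` (for singletons `3 < card U`) or we take a singleton directly if `card U ≤ 3`. Let `X` be a union of blocks with `3 * card X ≥ card U` of least cardinality
(the union of all the blocks is `Y`); removing one block gives `3 * card X < 2 * card U`. In all cases `0 < card X`, `3 * card X ≤ 2 * card U`, `3 * card (U \ X) ≤ 2 * card U`,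
`X ⊆ U`. For `S ∈ L`: `S ∩ U ⊇ Y ⊇ X`, or `S ∩ U` is disjoint from `Y`, or `S ∩ U` is inside a member of `C`, which is contained in `X` or disjoint from `X`.
(For `card U = 2`, `3`: `X` is a singleton outside of `C`, or a member of `C`.)
A way to avoid the blocks: among all `X ⊆ U` with the separation property (`S ∩ U ⊆ X ∨ Disjoint S X ∨ X ⊆ S` for all `S ∈ L`) take one with
`3 * card X ≥ card U` of least cardinality (`U` is one: `S ∩ U ⊆ U`). If `3 * card X ≤ 2 * card U` we are done. Otherwise let `T` be a maximal trace `T = S ∩ U ⊂ X`, or a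
singleton if no nonempty trace is strictly inside `X` (then `X` minus a point works); `X \ T` has the separation property if `T` is a maximal element of the traces strictly inside `X`, or a point of `X` in no such trace;
so `3 * card (X \ T) < card U` by minimality, so `3 * card T > card U` and `T` has the property too: contradiction to minimality unless `T = X`.
-/

set_option autoImplicit false

namespace MTC

open Finset

variable {V : Type} [Fintype V] [DecidableEq V]

theorem exists_sep (L : Finset (Finset V)) (hL : Lam L) (U : Finset V) (hU : 2 ≤ U.card) :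
    ∃ X ⊆ U, X.Nonempty ∧ X ≠ U ∧ 3 * X.card ≤ 2 * U.card ∧ 3 * (U \ X).card ≤ 2 * U.card ∧
      ∀ S ∈ L, S ∩ U ⊆ X ∨ Disjoint S X ∨ X ⊆ S := by
  classical
  have hex : ∃ n : ℕ, ∃ X : Finset V, X ⊆ U ∧ U.card ≤ 3 * X.card ∧
      (∀ S ∈ L, S ∩ U ⊆ X ∨ Disjoint S X ∨ X ⊆ S) ∧ X.card = n :=
    ⟨U.card, U, Finset.Subset.refl U, by omega, fun S _ => Or.inl Finset.inter_subset_right, rfl⟩
  obtain ⟨X, hXU, hXc, hXs, hXn⟩ := Nat.find_spec hex
  have hmin : ∀ Y : Finset V, Y ⊆ U → U.card ≤ 3 * Y.card →
      (∀ S ∈ L, S ∩ U ⊆ Y ∨ Disjoint S Y ∨ Y ⊆ S) → X.card ≤ Y.card := by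
    intro Y h1 h2 h3
    rw [hXn]
    exact Nat.find_min' hex ⟨Y, h1, h2, h3, rfl⟩
  have hsub : (U \ X).card = U.card - X.card := Finset.card_sdiff_of_subset hXU
  have hle : X.card ≤ U.card := Finset.card_le_card hXU
  by_cases hbig : 3 * X.card ≤ 2 * U.card
  · refine ⟨X, hXU, ?_, ?_, hbig, ?_, hXs⟩
    · rw [← Finset.card_pos]; omega
    · rintro rfl; omega
    · rw [hsub]; omega
  · exfalso
    have hbig' : 2 * U.card < 3 * X.card := by omega
    by_cases hT : ∃ S ∈ L, (S ∩ U).Nonempty ∧ S ∩ U ⊂ X
    · -- a maximal trace strictly inside `X`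
      let F : Finset (Finset V) := L.filter fun S => (S ∩ U).Nonempty ∧ S ∩ U ⊂ X
      have hF : F.Nonempty := by
        obtain ⟨S, hS, h1, h2⟩ := hT
        exact ⟨S, Finset.mem_filter.2 ⟨hS, h1, h2⟩⟩
      obtain ⟨S, hSF, hSmax⟩ := Finset.exists_max_image F (fun S => (S ∩ U).card) hF
      obtain ⟨hSL, hSne, hSX⟩ := Finset.mem_filter.1 hSF
      have hTX : S ∩ U ⊆ X := hSX.1
      have hTcard : (S ∩ U).card < X.card := Finset.card_lt_card hSX
      -- `X \ T` has the separation property
      have hsep1 : ∀ S' ∈ L, S' ∩ U ⊆ X \ (S ∩ U) ∨ Disjoint S' (X \ (S ∩ U)) ∨ X \ (S ∩ U) ⊆ S' := by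
        intro S' hS'
        rcases hXs S' hS' with h | h | h
        · by_cases hEq : X ⊆ S'
          · exact Or.inr (Or.inr (Finset.sdiff_subset.trans hEq))
          · have hstrict : S' ∩ U ⊂ X := by
              refine ⟨h, fun hh => hEq (hh.trans Finset.inter_subset_left)⟩
            rcases hL S hSL S' hS' with h1 | h1 | h1
            · -- `S ⊆ S'`: the traces agree
              have hTT : S ∩ U ⊆ S' ∩ U := Finset.inter_subset_inter_right h1
              have hmem : S' ∈ F := Finset.mem_filter.2 ⟨hS', hSne.mono hTT, hstrict⟩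
              have hcle := hSmax S' hmem
              have heq : S ∩ U = S' ∩ U := Finset.eq_of_subset_of_card_le hTT hcle
              refine Or.inr (Or.inl ?_)
              rw [Finset.disjoint_left]
              intro a ha hb
              rw [Finset.mem_sdiff] at hb
              apply hb.2
              rw [heq]
              exact Finset.mem_inter.2 ⟨ha, hXU hb.1⟩
            · refine Or.inr (Or.inl ?_)
              rw [Finset.disjoint_left]
              intro a ha hb
              rw [Finset.mem_sdiff] at hb
              exact hb.2 (Finset.mem_inter.2 ⟨h1 ha, hXU hb.1⟩)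
            · refine Or.inl fun a ha => Finset.mem_sdiff.2 ⟨h ha, fun hb => ?_⟩
              exact (Finset.disjoint_left.1 h1) (Finset.mem_inter.1 hb).1 (Finset.mem_inter.1 ha).1
        · exact Or.inr (Or.inl (h.mono_right Finset.sdiff_subset))
        · exact Or.inr (Or.inr (Finset.sdiff_subset.trans h))
      have hsep2 : ∀ S' ∈ L, S' ∩ U ⊆ S ∩ U ∨ Disjoint S' (S ∩ U) ∨ S ∩ U ⊆ S' := by
        intro S' hS'
        rcases hL S hSL S' hS' with h1 | h1 | h1
        · exact Or.inr (Or.inr (Finset.inter_subset_left.trans h1))
        · exact Or.inl (Finset.inter_subset_inter_right h1)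
        · exact Or.inr (Or.inl (h1.symm.mono_right Finset.inter_subset_left))
      have hc1 : (X \ (S ∩ U)).card = X.card - (S ∩ U).card := Finset.card_sdiff_of_subset hTX
      have hpos : 0 < (S ∩ U).card := Finset.card_pos.2 hSne
      have h3 : 3 * (X \ (S ∩ U)).card < U.card := by
        by_contra hcon
        have := hmin (X \ (S ∩ U)) (Finset.sdiff_subset.trans hXU) (by omega) hsep1
        omega
      have := hmin (S ∩ U) Finset.inter_subset_right (by omega) hsep2
      omega
    · have hXne : X.Nonempty := by rw [← Finset.card_pos]; omega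
      obtain ⟨x, hx⟩ := hXne
      have hsep : ∀ S' ∈ L, S' ∩ U ⊆ X.erase x ∨ Disjoint S' (X.erase x) ∨ X.erase x ⊆ S' := by
        intro S' hS'
        rcases hXs S' hS' with h | h | h
        · by_cases hEq : X ⊆ S'
          · exact Or.inr (Or.inr ((Finset.erase_subset x X).trans hEq))
          · have hstrict : S' ∩ U ⊂ X := ⟨h, fun hh => hEq (hh.trans Finset.inter_subset_left)⟩
            have hemp : ¬ (S' ∩ U).Nonempty := fun hne => hT ⟨S', hS', hne, hstrict⟩
            rw [Finset.not_nonempty_iff_eq_empty] at hemp
            exact Or.inl (by rw [hemp]; exact Finset.empty_subset _)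
        · exact Or.inr (Or.inl (h.mono_right (Finset.erase_subset x X)))
        · exact Or.inr (Or.inr ((Finset.erase_subset x X).trans h))
      have hc : (X.erase x).card = X.card - 1 := Finset.card_erase_of_mem hx
      have := hmin (X.erase x) ((Finset.erase_subset x X).trans hXU) (by omega) hsep
      omega

end MTC
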