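import Pool.Agent.Lib.MP_0087d5_lcMT.W2
import Pool.Agent.Lib.MP_0087d5_lcMT.S1
import Pool.Agent.Lib.MP_0087d5_lcMT.S2
import Pool.Agent.Lib.MP_0087d5_lcMT.M2

/-!
# Leaf S4 (medium): few edges across a separation

Proof. Let `H` be the simple graph on the type `V` with `H.Adj a b ↔ HG A w a b ∧ ((a ∈ X ∧ b ∈ U \ X) ∨ (b ∈ X ∧ a ∈ U \ X))` (`HG` is symmetric: the `f` are
involutions). It has no cycle `p` of length `≤ 2 * k`: `cycle_dir` (with `X`) gives `v`; as a real matrix, `cut v S = 0` for all `S ∈ L` by `cut_zero`, so `hL` gives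
`∑ a, ∑ b, w a b * v a b = 0`, which contradicts `hw : Diss w k`. The vertices outside `U` are isolated; apply `moore` to the graph `H` induced on
the subtype `{a // a ∈ U}` (cardinality `card U < d ^ k`; a cycle of the induced graph maps to a cycle of `H` of the same length, `SimpleGraph.Walk.map`, `IsCycle.map` with an injective map).
-/

set_option autoImplicit false

namespace MTC

open Finset

variable {V : Type} [Fintype V] [DecidableEq V]

private theorem S4_graph {W : Type} (P : W → W → Prop) (hs : ∀ a b, P a b → P b a) (hi : ∀ a, ¬ P a a) :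
    ∃ H : SimpleGraph W, ∀ a b, H.Adj a b ↔ P a b := by
  refine ⟨SimpleGraph.fromRel P, fun a b => ?_⟩
  rw [SimpleGraph.fromRel_adj]
  constructor
  · rintro ⟨-, h | h⟩
    · exact h
    · exact hs _ _ h
  · intro h
    refine ⟨?_, Or.inl h⟩
    rintro rfl
    exact hi _ h

omit [DecidableEq V] in
private theorem S4_symm {A : V → V → Prop} {w : V → V → ℕ} {a b : V} (h : HG A w a b) : HG A w b a := by
  obtain ⟨f, hf, hab⟩ := h
  refine ⟨f, hf, ?_⟩
  rw [← hab]
  exact hf.1.1 a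

open Classical in
theorem across (A : V → V → Prop) (w : V → V → ℕ) (k d : ℕ) (hk : 1 ≤ k) (hw : Diss w k) (L : Finset (Finset V))
    (hL : ∀ v : V → V → ℝ, (∀ a b, v a b = v b a) → (∀ a b, v a b ≠ 0 → HG A w a b) →
      (∀ a, ∑ b, v a b = 0) → (∀ S ∈ L, cut v S = 0) → ∑ a, ∑ b, (w a b : ℝ) * v a b = 0)
    (U X : Finset V) (hXU : X ⊆ U) (hd : U.card < d ^ k) (hS : ∀ S ∈ L, S ∩ U ⊆ X ∨ Disjoint S X ∨ X ⊆ S) :
    (univ.filter fun q : V × V => HG A w q.1 q.2 ∧ ((q.1 ∈ X ∧ q.2 ∈ U \ X) ∨ (q.2 ∈ X ∧ q.1 ∈ U \ X))).card ≤ 2 * d * U.card := by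
  obtain ⟨P, hP⟩ : ∃ P : V → V → Prop, P = fun a b => HG A w a b ∧ ((a ∈ X ∧ b ∈ U \ X) ∨ (b ∈ X ∧ a ∈ U \ X)) := ⟨_, rfl⟩
  have hP' : ∀ a b, P a b ↔ (HG A w a b ∧ ((a ∈ X ∧ b ∈ U \ X) ∨ (b ∈ X ∧ a ∈ U \ X))) := by
    intro a b
    rw [hP]
  have hPs : ∀ a b, P a b → P b a := by
    intro a b h
    rw [hP'] at h ⊢
    exact ⟨S4_symm h.1, h.2.symm⟩
  have hPi : ∀ a, ¬ P a a := by
    intro a h
    rw [hP'] at h
    rcases h.2 with h | h
    · exact (Finset.mem_sdiff.mp h.2).2 h.1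
    · exact (Finset.mem_sdiff.mp h.2).2 h.1
  have hPU : ∀ a b, P a b → a ∈ U ∧ b ∈ U := by
    intro a b h
    rw [hP'] at h
    rcases h.2 with h | h
    · exact ⟨hXU h.1, (Finset.mem_sdiff.mp h.2).1⟩
    · exact ⟨(Finset.mem_sdiff.mp h.2).1, hXU h.1⟩
  obtain ⟨H, hH⟩ := S4_graph P hPs hPi
  obtain ⟨H0, hH0⟩ := S4_graph (fun a b : {a // a ∈ U} => P a.1 b.1) (fun a b h => hPs _ _ h) (fun a h => hPi _ h)
  have hX : ∀ a b, H.Adj a b → (a ∈ X ↔ b ∉ X) := by
    intro a b h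
    rw [hH, hP'] at h
    rcases h.2 with h | h
    · exact ⟨fun _ => (Finset.mem_sdiff.mp h.2).2, fun _ => h.1⟩
    · exact ⟨fun h1 => absurd h1 (Finset.mem_sdiff.mp h.2).2, fun h1 => absurd h.1 h1⟩
  have hg : ∀ (u : {a // a ∈ U}) (p : H0.Walk u u), p.IsCycle → 2 * k < p.length := by
    intro u p hp
    by_contra hlen
    rw [not_lt] at hlen
    obtain ⟨φ, hφ⟩ : ∃ φ : H0 →g H, ∀ a, φ a = a.1 :=
      ⟨⟨Subtype.val, fun {a b} h => (hH _ _).mpr ((hH0 _ _).mp h)⟩, fun a => rfl⟩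
    have hinj : Function.Injective φ := by
      intro a b h
      rw [hφ, hφ] at h
      exact Subtype.ext h
    have hcyc : (p.map φ).IsCycle := hp.map hinj
    obtain ⟨v, hv1, hv2, hv3, hv4, hv5, hv6, hv7⟩ := cycle_dir H X hX _ (p.map φ) hcyc
    have hsum : ∑ a, ∑ b, (w a b : ℝ) * (v a b : ℝ) = 0 := by
      refine hL (fun a b => (v a b : ℝ)) (fun a b => by rw [hv1]) ?_ ?_ ?_
      · intro a b h
        have h1 : v a b ≠ 0 := by
          intro h2
          exact h (by rw [h2, Int.cast_zero])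
        exact ((hP' _ _).mp ((hH _ _).mp (hv5 a b h1))).1
      · intro a
        have h1 := hv7 a
        have h2 : ((∑ b, v a b : ℤ) : ℝ) = 0 := by rw [h1, Int.cast_zero]
        rw [← h2]
        push_cast
        rfl
      · intro S hSL
        refine cut_zero U X S (fun a b => (v a b : ℝ)) (fun a b => by rw [hv1]) ?_ ?_ (hS S hSL)
        · intro a
          have h1 := hv7 a
          have h2 : ((∑ b, v a b : ℤ) : ℝ) = 0 := by rw [h1, Int.cast_zero]
          rw [← h2]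
          push_cast
          rfl
        · intro a b h
          have h1 : v a b ≠ 0 := by
            intro h2
            exact h (by rw [h2, Int.cast_zero])
          exact ((hP' _ _).mp ((hH _ _).mp (hv5 a b h1))).2
    refine hw v hv1 hv2 hv3 hv4 ?_ ?_
    · refine hv6.trans ?_
      rw [SimpleGraph.Walk.length_map]
      omega
    · have h3 : ((∑ a, ∑ b, (w a b : ℤ) * v a b : ℤ) : ℝ) = 0 := by
        rw [← hsum]
        push_cast
        rfl
      exact_mod_cast h3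
  have hmoore := moore H0 k d hk hg (by rw [Fintype.card_coe]; exact hd)
  rw [Fintype.card_coe] at hmoore
  refine le_trans ?_ hmoore
  have hsub : (univ.filter fun q : V × V => HG A w q.1 q.2 ∧ ((q.1 ∈ X ∧ q.2 ∈ U \ X) ∨ (q.2 ∈ X ∧ q.1 ∈ U \ X))) ⊆
      (univ.filter fun q : {a // a ∈ U} × {a // a ∈ U} => H0.Adj q.1 q.2).image
        (fun q => ((q.1 : V), (q.2 : V))) := by
    intro q hq
    rw [Finset.mem_filter] at hq
    have hq2 : P q.1 q.2 := (hP' _ _).mpr hq.2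
    rw [Finset.mem_image]
    refine ⟨(⟨q.1, (hPU _ _ hq2).1⟩, ⟨q.2, (hPU _ _ hq2).2⟩), ?_, rfl⟩
    rw [Finset.mem_filter]
    exact ⟨Finset.mem_univ _, (hH0 _ _).mpr hq2⟩
  exact (Finset.card_le_card hsub).trans Finset.card_image_le

end MTC
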