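import Pool.Agent.Lib.MP_0087d5_lcMT.S3
import Pool.Agent.Lib.MP_0087d5_lcMT.S4

/-!
# Leaf S5 (medium): the union of the perfect matchings of least weight is sparse

Proof. Let `L` be from `key`. Claim: for all `U`, the number of the pairs `(a, b) ∈ U × U` with `HG A w a b` is at most `2 * d * card U * Nat.log 2 (card U ^ 2)`, by strong induction
on `card U`. For `card U ≤ 1` there is no such pair (`HG A w a a` is false: `A` is irreflexive). Otherwise take `X` from `exists_sep`. The pairs of `U` are those of `X`, those of `U \ X`,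
and those across (`across`: at most `2 * d * card U`; `card U ≤ card V < d ^ k`). With `x = card X`, `y = card (U \ X)`, `n = card U = x + y`,
`3 x ≤ 2 n`: `2 x ^ 2 ≤ n ^ 2`, so `Nat.log 2 (x ^ 2) + 1 ≤ Nat.log 2 (n ^ 2)` (`Nat.log_mul_base`, monotonicity; `x ≥ 1`), the same for `y`. The sum is
`≤ 2 d n + 2 d x (l - 1) + 2 d y (l - 1) = 2 d n l` with `l = Nat.log 2 (n ^ 2)`. Finally `U = univ`.
-/

set_option autoImplicit false

namespace MTC

open Finset

private theorem S5_log {x n : ℕ} (hx : 1 ≤ x) (h : 3 * x ≤ 2 * n) : Nat.log 2 (x ^ 2) + 1 ≤ Nat.log 2 (n ^ 2) := by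
  have h1 : x ^ 2 ≠ 0 := (pow_pos hx 2).ne'
  rw [← Nat.log_mul_base (by norm_num) h1]
  refine Nat.log_mono_right ?_
  have h2 : (3 * x) ^ 2 ≤ (2 * n) ^ 2 := Nat.pow_le_pow_left h 2
  have h3 : (3 * x) ^ 2 = 9 * x ^ 2 := by ring
  have h4 : (2 * n) ^ 2 = 4 * n ^ 2 := by ring
  omega

private theorem S5_arith {d x y n lx ly l a b c : ℕ} (hn : n = x + y) (hx : lx + 1 ≤ l) (hy : ly + 1 ≤ l)
    (ha : a ≤ 2 * d * x * lx) (hb : b ≤ 2 * d * y * ly) (hc : c ≤ 2 * d * n) : a + (b + c) ≤ 2 * d * n * l := by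
  obtain ⟨m, rfl⟩ : ∃ m, l = m + 1 := ⟨l - 1, by omega⟩
  have h1 : 2 * d * x * lx ≤ 2 * d * x * m := Nat.mul_le_mul_left _ (by omega)
  have h2 : 2 * d * y * ly ≤ 2 * d * y * m := Nat.mul_le_mul_left _ (by omega)
  have h3 : 2 * d * n * (m + 1) = 2 * d * x * m + (2 * d * y * m + 2 * d * n) := by
    rw [hn]
    ring
  omega

open Classical in
private theorem S5_ind {V : Type} [Fintype V] [DecidableEq V] (A : V → V → Prop) (hA : ∀ a, ¬ A a a) (w : V → V → ℕ)
    (k d : ℕ) (hk : 1 ≤ k) (hw : Diss w k) (hd : Fintype.card V < d ^ k) (L : Finset (Finset V)) (hLam : Lam L)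
    (hL : ∀ v : V → V → ℝ, (∀ a b, v a b = v b a) → (∀ a b, v a b ≠ 0 → HG A w a b) →
      (∀ a, ∑ b, v a b = 0) → (∀ S ∈ L, cut v S = 0) → ∑ a, ∑ b, (w a b : ℝ) * v a b = 0) (U : Finset V) :
    (univ.filter fun q : V × V => HG A w q.1 q.2 ∧ q.1 ∈ U ∧ q.2 ∈ U).card ≤ 2 * d * U.card * Nat.log 2 (U.card ^ 2) := by
  induction U using Finset.strongInduction with
  | H U ih =>
    rcases Nat.lt_or_ge U.card 2 with h | h
    · have h1 : (univ.filter fun q : V × V => HG A w q.1 q.2 ∧ q.1 ∈ U ∧ q.2 ∈ U) = ∅ := by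
        refine filter_eq_empty_iff.2 ?_
        rintro q - ⟨⟨f, hf, hfq⟩, h1, h2⟩
        have h3 : q.1 = q.2 := Finset.card_le_one.1 (by omega) _ h1 _ h2
        have h4 := hf.1.2 q.1
        rw [hfq, ← h3] at h4
        exact hA _ h4
      rw [h1, card_empty]
      exact Nat.zero_le _
    · obtain ⟨X, hXU, hXn, hXne, hX1, hX2, hX3⟩ := exists_sep L hLam U h
      have hX0 : 1 ≤ X.card := hXn.card_pos
      have hs : X ⊂ U := Finset.ssubset_iff_subset_ne.2 ⟨hXU, hXne⟩
      have hY0 : 1 ≤ (U \ X).card := by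
        rw [Finset.card_sdiff_of_subset hXU]
        have := Finset.card_lt_card hs
        omega
      have hYs : U \ X ⊂ U := by
        refine Finset.ssubset_iff_subset_ne.2 ⟨sdiff_subset, fun he => ?_⟩
        have h1 := Finset.card_sdiff_of_subset hXU
        have h2 := Finset.card_lt_card hs
        rw [he] at h1
        omega
      have i1 := ih X hs
      have i2 := ih (U \ X) hYs
      have hdU : U.card < d ^ k := lt_of_le_of_lt (Finset.card_le_univ U) hd
      have i3 := across A w k d hk hw L hL U X hXU hdU hX3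
      have hn : U.card = X.card + (U \ X).card := by
        rw [Finset.card_sdiff_of_subset hXU]
        have := Finset.card_le_card hXU
        omega
      refine le_trans ?_ (S5_arith hn (S5_log hX0 hX1) (S5_log hY0 hX2) i1 i2 i3)
      refine le_trans (Finset.card_le_card ?_) ((Finset.card_union_le _ _).trans (Nat.add_le_add_left (Finset.card_union_le _ _) _))
      intro q hq
      obtain ⟨-, h1, h2, h3⟩ := mem_filter.1 hq
      rw [mem_union, mem_union, mem_filter, mem_filter, mem_filter]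
      by_cases c1 : q.1 ∈ X
      · by_cases c2 : q.2 ∈ X
        · exact Or.inl ⟨mem_univ _, h1, c1, c2⟩
        · exact Or.inr (Or.inr ⟨mem_univ _, h1, Or.inl ⟨c1, mem_sdiff.2 ⟨h3, c2⟩⟩⟩)
      · by_cases c2 : q.2 ∈ X
        · exact Or.inr (Or.inr ⟨mem_univ _, h1, Or.inr ⟨c2, mem_sdiff.2 ⟨h2, c1⟩⟩⟩)
        · exact Or.inr (Or.inl ⟨mem_univ _, h1, mem_sdiff.2 ⟨h2, c1⟩, mem_sdiff.2 ⟨h3, c2⟩⟩)

open Classical in
theorem sparse {V : Type} [Fintype V] [DecidableEq V] (A : V → V → Prop) (hA : ∀ a, ¬ A a a) (w : V → V → ℕ) (hs : ∀ a b, w a b = w b a)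
    (hM : ∃ f, IsPM A f) (k d : ℕ) (hk : 1 ≤ k) (hw : Diss w k) (hd : Fintype.card V < d ^ k) :
    (univ.filter fun q : V × V => HG A w q.1 q.2).card ≤ 2 * d * Fintype.card V * Nat.log 2 (Fintype.card V ^ 2) := by
  obtain ⟨L, hLam, hL⟩ := key A hA w hs hM
  have h := S5_ind A hA w k d hk hw hd L hLam hL univ
  rw [Finset.card_univ] at h
  refine le_trans (Finset.card_le_card fun q hq => ?_) h
  exact mem_filter.2 ⟨mem_univ _, (mem_filter.1 hq).2, mem_univ _, mem_univ _⟩

end MTC
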