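import Pool.Agent.Lib.MP_0087d5_lcMT.MDefs

/-!
# Leaf U1 (medium): uncrossing two tight sets

Proof. `cut x S + cut x T = cut x (S ∩ T) + cut x (S ∪ T) + 2 * ∑ a ∈ S \ T, ∑ b ∈ T \ S, x a b` and
`cut x S + cut x T = cut x (S \ T) + cut x (T \ S) + 2 * ∑ a ∈ S ∩ T, ∑ b ∈ (S ∪ T)ᶜ, x a b` for symmetric `x` (split `V` into the four parts
`S ∩ T, S \ T, T \ S, (S ∪ T)ᶜ`). In the first case `S ∩ T` and `S ∪ T` are odd, so both cuts are at least 1, the sum on the left is 2, and `x ≥ 0`: both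
are tight and `x a b = 0` for `a ∈ S \ T`, `b ∈ T \ S`; so `v a b = 0` there, and the same identity for `v` gives the last claim. In the same
way in the second case.
-/

set_option autoImplicit false

namespace MTC

open Finset

variable {V : Type} [Fintype V] [DecidableEq V]

/-- a double sum as a sum over all pairs -/
private theorem U1_sum (x : V → V → ℝ) (P Q : Finset V) :
    ∑ a ∈ P, ∑ b ∈ Q, x a b = ∑ a, ∑ b, if a ∈ P ∧ b ∈ Q then x a b else 0 := by
  classical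
  have h1 : ∑ a ∈ P, ∑ b ∈ Q, x a b = ∑ a, if a ∈ P then ∑ b ∈ Q, x a b else 0 := by
    rw [← Finset.sum_filter, Finset.filter_univ_mem]
  rw [h1]
  refine Finset.sum_congr rfl fun a _ => ?_
  by_cases ha : a ∈ P
  · rw [if_pos ha]
    have h2 : ∑ b ∈ Q, x a b = ∑ b, if b ∈ Q then x a b else 0 := by
      rw [← Finset.sum_filter, Finset.filter_univ_mem]
    rw [h2]
    refine Finset.sum_congr rfl fun b _ => ?_
    simp only [ha, true_and]
  · rw [if_neg ha]
    symm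
    refine Finset.sum_eq_zero fun b _ => ?_
    rw [if_neg fun h => ha h.1]

private theorem U1_cut (x : V → V → ℝ) (S : Finset V) :
    cut x S = ∑ a, ∑ b, if a ∈ S ∧ b ∉ S then x a b else 0 := by
  rw [cut, U1_sum]
  simp only [mem_compl]

omit [Fintype V] [DecidableEq V] in
private theorem U1_comm (x : V → V → ℝ) (hs : ∀ a b, x a b = x b a) (P Q : Finset V) :
    ∑ a ∈ P, ∑ b ∈ Q, x a b = ∑ a ∈ Q, ∑ b ∈ P, x a b := by
  rw [Finset.sum_comm]
  exact Finset.sum_congr rfl fun a _ => Finset.sum_congr rfl fun b _ => hs b a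

private theorem U1_compl (x : V → V → ℝ) (hs : ∀ a b, x a b = x b a) (S : Finset V) : cut x Sᶜ = cut x S := by
  rw [cut, compl_compl, U1_comm x hs, cut]

private theorem U1_id (x : V → V → ℝ) (hs : ∀ a b, x a b = x b a) (S T : Finset V) :
    cut x S + cut x T = cut x (S ∩ T) + cut x (S ∪ T) + 2 * ∑ a ∈ S \ T, ∑ b ∈ T \ S, x a b := by
  have h1 : cut x S + cut x T =
      cut x (S ∩ T) + cut x (S ∪ T) + (∑ a ∈ S \ T, ∑ b ∈ T \ S, x a b) + ∑ a ∈ T \ S, ∑ b ∈ S \ T, x a b := by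
    rw [U1_cut x S, U1_cut x T, U1_cut x (S ∩ T), U1_cut x (S ∪ T), U1_sum x (S \ T) (T \ S), U1_sum x (T \ S) (S \ T)]
    simp only [← Finset.sum_add_distrib]
    apply Finset.sum_congr rfl
    intro a _
    apply Finset.sum_congr rfl
    intro b _
    simp only [mem_inter, mem_union, mem_sdiff]
    by_cases h1 : a ∈ S <;> by_cases h2 : a ∈ T <;> by_cases h3 : b ∈ S <;> by_cases h4 : b ∈ T <;>
      simp [h1, h2, h3, h4]
  rw [h1, U1_comm x hs (T \ S) (S \ T)]
  ring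

private theorem U1_id' (x : V → V → ℝ) (hs : ∀ a b, x a b = x b a) (S T : Finset V) :
    cut x S + cut x T = cut x (S \ T) + cut x (T \ S) + 2 * ∑ a ∈ S ∩ T, ∑ b ∈ (S ∪ T)ᶜ, x a b := by
  have h1 := U1_id x hs S Tᶜ
  have e1 : S ∩ Tᶜ = S \ T := by
    ext a
    simp only [mem_inter, mem_compl, mem_sdiff]
  have e2 : S ∪ Tᶜ = (T \ S)ᶜ := by
    ext a
    simp only [mem_union, mem_compl, mem_sdiff, not_and, not_not]
    tauto
  have e3 : S \ Tᶜ = S ∩ T := by
    ext a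
    simp only [mem_inter, mem_compl, mem_sdiff, not_not]
  have e4 : Tᶜ \ S = (S ∪ T)ᶜ := by
    ext a
    simp only [mem_union, mem_compl, mem_sdiff]
    tauto
  rw [e1, e2, e3, e4, U1_compl x hs, U1_compl x hs] at h1
  exact h1

/-- the conclusion from the identity -/
private theorem U1_main (x : V → V → ℝ) (hx : FP x) (S T P Q P' Q' : Finset V) (hS : Tight x S) (hT : Tight x T)
    (hP : Odd P.card) (hQ : Odd Q.card) (hid : ∀ v : V → V → ℝ, (∀ a b, v a b = v b a) →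
      cut v S + cut v T = cut v P + cut v Q + 2 * ∑ a ∈ P', ∑ b ∈ Q', v a b) :
    Tight x P ∧ Tight x Q ∧ ∀ v : V → V → ℝ, (∀ a b, v a b = v b a) → (∀ a b, v a b ≠ 0 → x a b ≠ 0) →
      cut v S + cut v T = cut v P + cut v Q := by
  have h1 := hid x hx.symm
  rw [hS.2, hT.2] at h1
  have h2 := hx.odd P hP
  have h3 := hx.odd Q hQ
  have h4 : 0 ≤ ∑ a ∈ P', ∑ b ∈ Q', x a b := Finset.sum_nonneg fun a _ => Finset.sum_nonneg fun b _ => hx.nonneg a b
  have h5 : ∑ a ∈ P', ∑ b ∈ Q', x a b = 0 := by linarith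
  refine ⟨⟨hP, by linarith⟩, ⟨hQ, by linarith⟩, fun v hv hvx => ?_⟩
  have h6 : ∀ a ∈ P', ∀ b ∈ Q', x a b = 0 := fun a ha b hb =>
    (Finset.sum_eq_zero_iff_of_nonneg fun b _ => hx.nonneg a b).1
      ((Finset.sum_eq_zero_iff_of_nonneg fun a _ => Finset.sum_nonneg fun b _ => hx.nonneg a b).1 h5 a ha) b hb
  have h7 : ∑ a ∈ P', ∑ b ∈ Q', v a b = 0 := Finset.sum_eq_zero fun a ha => Finset.sum_eq_zero fun b hb => by
    by_contra h
    exact hvx a b h (h6 a ha b hb)
  rw [hid v hv, h7, mul_zero, add_zero]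

theorem uncross_odd (x : V → V → ℝ) (hx : FP x) (S T : Finset V) (hS : Tight x S) (hT : Tight x T) (ho : Odd (S ∩ T).card) :
    Tight x (S ∩ T) ∧ Tight x (S ∪ T) ∧ ∀ v : V → V → ℝ, (∀ a b, v a b = v b a) → (∀ a b, v a b ≠ 0 → x a b ≠ 0) →
      cut v S + cut v T = cut v (S ∩ T) + cut v (S ∪ T) := by
  refine U1_main x hx S T _ _ _ _ hS hT ho ?_ fun v hv => U1_id v hv S T
  have h1 := Finset.card_union_add_card_inter S T
  have h2 := hS.1
  have h3 := hT.1
  rw [Nat.odd_iff] at ho h2 h3 ⊢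
  omega

theorem uncross_even (x : V → V → ℝ) (hx : FP x) (S T : Finset V) (hS : Tight x S) (hT : Tight x T) (he : Even (S ∩ T).card) :
    Tight x (S \ T) ∧ Tight x (T \ S) ∧ ∀ v : V → V → ℝ, (∀ a b, v a b = v b a) → (∀ a b, v a b ≠ 0 → x a b ≠ 0) →
      cut v S + cut v T = cut v (S \ T) + cut v (T \ S) := by
  have h1 := Finset.card_sdiff_add_card_inter S T
  have h4 := Finset.card_sdiff_add_card_inter T S
  rw [Finset.inter_comm] at h4
  have h2 := hS.1
  have h3 := hT.1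
  rw [Nat.odd_iff] at h2 h3
  rw [Nat.even_iff] at he
  refine U1_main x hx S T _ _ _ _ hS hT ?_ ?_ fun v hv => U1_id' v hv S T
  · rw [Nat.odd_iff]
    omega
  · rw [Nat.odd_iff]
    omega

end MTC
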