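import Pool.Agent.Lib.MP_0087d5_lcMT.MDefs

/-!
# Leaf U2 (easy+): the number of crossing members goes down

`Cr S T`: the sets cross. Proof of `cross_lt`: every `R ∈ L` which crosses `T'` crosses `T`, and `S ∈ L` crosses `T` but not `T'`; so the filter for
`T'` is a strict subset of the filter for `T`. `R` and `S` are nested or disjoint. `T' = S ∩ T`: then `R ⊆ S` (if `S ⊆ R` then `T' ⊆ R`), etc. Each case is a
small set theoretic argument (`Finset.not_subset`, `Finset.mem_inter` ...; automation: `grind` or `aesop` after `simp only [Cr, Finset.subset_iff, ...]`).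
-/

set_option autoImplicit false

namespace MTC

open Finset

variable {V : Type} [Fintype V] [DecidableEq V]

/-- the sets `S` and `T` cross -/
def Cr (S T : Finset V) : Prop := ¬ S ⊆ T ∧ ¬ T ⊆ S ∧ ¬ Disjoint S T

private theorem U2_cr {R S T T' : Finset V} (hRS : R ⊆ S ∨ S ⊆ R ∨ Disjoint R S) (hc : Cr S T)
    (hT' : T' = S ∩ T ∨ T' = S ∪ T ∨ T' = S \ T ∨ T' = T \ S) (hR : Cr R T') : Cr R T := by
  obtain ⟨c1, c2, c3⟩ := hc
  obtain ⟨r1, r2, r3⟩ := hR
  rw [Finset.not_disjoint_iff] at c3 r3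
  obtain ⟨z, hz1, hz2⟩ := c3
  obtain ⟨y, hy1, hy2⟩ := r3
  rw [Finset.disjoint_left] at hRS
  rcases hT' with h | h | h | h
  · subst h
    rw [Finset.mem_inter] at hy2
    have hRS' : R ⊆ S := by
      rcases hRS with h1 | h1 | h1
      · exact h1
      · exact absurd (Finset.inter_subset_left.trans h1) r2
      · exact absurd hy2.1 (h1 hy1)
    refine ⟨fun h => r1 (Finset.subset_inter hRS' h), fun h => r2 (Finset.inter_subset_right.trans h), ?_⟩
    rw [Finset.not_disjoint_iff]
    exact ⟨y, hy1, hy2.2⟩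
  · subst h
    rw [Finset.mem_union] at hy2
    have h0 : ¬ R ⊆ T := fun h => r1 (h.trans Finset.subset_union_right)
    rcases hRS with h1 | h1 | h1
    · exact absurd (h1.trans Finset.subset_union_left) r1
    · refine ⟨h0, fun h => r2 (Finset.union_subset h1 h), ?_⟩
      rw [Finset.not_disjoint_iff]
      exact ⟨z, h1 hz1, hz2⟩
    · refine ⟨h0, fun h => h1 (h hz2) hz1, ?_⟩
      rw [Finset.not_disjoint_iff]
      exact ⟨y, hy1, hy2.resolve_left (h1 hy1)⟩
  · subst h
    rw [Finset.mem_sdiff] at hy2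
    have hRS' : R ⊆ S := by
      rcases hRS with h1 | h1 | h1
      · exact h1
      · exact absurd (Finset.sdiff_subset.trans h1) r2
      · exact absurd hy2.1 (h1 hy1)
    refine ⟨fun h => hy2.2 (h hy1), fun h => c2 (h.trans hRS'), fun h => r1 fun a ha => ?_⟩
    rw [Finset.mem_sdiff]
    exact ⟨hRS' ha, fun hb => Finset.disjoint_left.1 h ha hb⟩
  · subst h
    rw [Finset.mem_sdiff] at hy2
    have h3 : ¬ Disjoint R T := by
      rw [Finset.not_disjoint_iff]
      exact ⟨y, hy1, hy2.1⟩
    rcases hRS with h1 | h1 | h1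
    · exact absurd (h1 hy1) hy2.2
    · exact ⟨fun h => c1 (h1.trans h), fun h => r2 (Finset.sdiff_subset.trans h), h3⟩
    · refine ⟨fun h => r1 fun a ha => ?_, fun h => h1 (h hz2) hz1, h3⟩
      rw [Finset.mem_sdiff]
      exact ⟨h ha, h1 ha⟩

private theorem U2_not {S T T' : Finset V}
    (hT' : T' = S ∩ T ∨ T' = S ∪ T ∨ T' = S \ T ∨ T' = T \ S) : ¬ Cr S T' := by
  rintro ⟨r1, r2, r3⟩
  rcases hT' with h | h | h | h
  · subst h
    exact r2 Finset.inter_subset_left
  · subst h
    exact r1 Finset.subset_union_left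
  · subst h
    exact r2 Finset.sdiff_subset
  · subst h
    exact r3 Finset.disjoint_sdiff

open Classical in
theorem cross_lt (L : Finset (Finset V)) (hL : Lam L) (S T : Finset V) (hS : S ∈ L) (hc : Cr S T) (T' : Finset V)
    (hT' : T' = S ∩ T ∨ T' = S ∪ T ∨ T' = S \ T ∨ T' = T \ S) :
    (L.filter fun R => Cr R T').card < (L.filter fun R => Cr R T).card := by
  apply Finset.card_lt_card
  rw [Finset.ssubset_iff_of_subset]
  · refine ⟨S, Finset.mem_filter.2 ⟨hS, hc⟩, fun h => ?_⟩
    exact U2_not hT' (Finset.mem_filter.1 h).2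
  · intro R hR
    rw [Finset.mem_filter] at hR ⊢
    exact ⟨hR.1, U2_cr (hL R hR.1 S hS) hc hT' hR.2⟩

end MTC
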