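import Pool.Agent.Lib.MP_0087d5_lcMT.U1
import Pool.Agent.Lib.MP_0087d5_lcMT.U2

/-!
# Leaf U3 (medium): a laminar family of tight sets which controls all the tight sets

Proof. Let `L` be a laminar family of tight sets of maximal cardinality (finite, `∅` is one). Fix `v`. Claim: `cut v T = 0` for all tight `T`, by strong
induction on the number of members of `L` that cross `T`. If `T ∈ L` this is the hypothesis. If no member of `L` crosses `T` and `T ∉ L`, then `insert T L` is laminar: it
contradicts the maximality. Otherwise some `S ∈ L` crosses `T`. `cut v S = 0`. If `card (S ∩ T)` is odd, `uncross_odd` gives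
`cut v T = cut v (S ∩ T) + cut v (S ∪ T) - cut v S`, and `S ∩ T`, `S ∪ T` are tight with fewer crossing members (`cross_lt`): all zero. In the same
way for even `card (S ∩ T)`, with `uncross_even`.
-/

set_option autoImplicit false

namespace MTC

open Finset

variable {V : Type} [Fintype V] [DecidableEq V]

private theorem U3_max (x : V → V → ℝ) : ∃ L : Finset (Finset V), (∀ S ∈ L, Tight x S) ∧ Lam L ∧
    ∀ T, Tight x T → (∀ S ∈ L, ¬ Cr S T) → T ∈ L := by
  classical
  obtain ⟨L, hL, hmax⟩ := Finset.exists_max_image
    ((Finset.univ : Finset (Finset (Finset V))).filter fun L => (∀ S ∈ L, Tight x S) ∧ Lam L) Finset.card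
    ⟨∅, by simp [Lam]⟩
  obtain ⟨h1, h2⟩ := (Finset.mem_filter.1 hL).2
  refine ⟨L, h1, h2, fun T hT hc => ?_⟩
  by_contra hn
  have hcr : ∀ S ∈ L, S ⊆ T ∨ T ⊆ S ∨ Disjoint S T := by
    intro S hS
    by_contra h0
    push Not at h0
    exact hc S hS ⟨h0.1, h0.2.1, h0.2.2⟩
  have hlam : Lam (insert T L) := by
    intro A hA B hB
    rcases Finset.mem_insert.1 hA with hA1 | hA1
    · rcases Finset.mem_insert.1 hB with hB1 | hB1
      · rw [hA1, hB1]
        exact Or.inl (Finset.Subset.refl _)
      · rw [hA1]
        rcases hcr B hB1 with h | h | h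
        · exact Or.inr (Or.inl h)
        · exact Or.inl h
        · exact Or.inr (Or.inr h.symm)
    · rcases Finset.mem_insert.1 hB with hB1 | hB1
      · rw [hB1]
        exact hcr A hA1
      · exact h2 A hA1 B hB1
  have hti : ∀ S ∈ insert T L, Tight x S := by
    intro A hA
    rcases Finset.mem_insert.1 hA with rfl | hA
    · exact hT
    · exact h1 A hA
  have h3 := hmax (insert T L) (Finset.mem_filter.2 ⟨Finset.mem_univ _, hti, hlam⟩)
  rw [Finset.card_insert_of_notMem hn] at h3
  omega

theorem laminar_span (x : V → V → ℝ) (hx : FP x) : ∃ L : Finset (Finset V), (∀ S ∈ L, Tight x S) ∧ Lam L ∧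
    ∀ v : V → V → ℝ, (∀ a b, v a b = v b a) → (∀ a b, v a b ≠ 0 → x a b ≠ 0) → (∀ S ∈ L, cut v S = 0) →
      ∀ T, Tight x T → cut v T = 0 := by
  classical
  obtain ⟨L, h1, h2, h3⟩ := U3_max x
  refine ⟨L, h1, h2, fun v hv hs hc => ?_⟩
  have key : ∀ (n : ℕ) (T : Finset V), Tight x T → (L.filter fun R => Cr R T).card = n → cut v T = 0 := by
    intro n
    induction n using Nat.strong_induction_on with
    | _ n ih =>
      intro T hT hn
      by_cases hex : ∃ S ∈ L, Cr S T
      · obtain ⟨S, hS, hcr⟩ := hex
        have hlt : ∀ T' : Finset V, (T' = S ∩ T ∨ T' = S ∪ T ∨ T' = S \ T ∨ T' = T \ S) → Tight x T' → cut v T' = 0 := by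
          intro T' hT' hti
          have h4 := cross_lt L h2 S T hS hcr T' hT'
          refine ih ((L.filter fun R => Cr R T').card) ?_ T' hti rfl
          rw [← hn]
          exact h4
        rcases Nat.even_or_odd (S ∩ T).card with he | ho
        · obtain ⟨a1, a2, a3⟩ := uncross_even x hx S T (h1 S hS) hT he
          have a4 := a3 v hv hs
          have a5 := hlt (S \ T) (Or.inr (Or.inr (Or.inl rfl))) a1
          have a6 := hlt (T \ S) (Or.inr (Or.inr (Or.inr rfl))) a2
          have a7 := hc S hS
          linarith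
        · obtain ⟨a1, a2, a3⟩ := uncross_odd x hx S T (h1 S hS) hT ho
          have a4 := a3 v hv hs
          have a5 := hlt (S ∩ T) (Or.inl rfl) a1
          have a6 := hlt (S ∪ T) (Or.inr (Or.inl rfl)) a2
          have a7 := hc S hS
          linarith
      · push Not at hex
        exact hc T (h3 T hT hex)
  intro T hT
  exact key _ T hT rfl

end MTC
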