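import Pool.Agent.Lib.MP_0087d5_lcMT.MDefs

/-!
# Leaf W1 (easy+): averages of perfect matchings

Proof. `chi f` is symmetric (`f` is an involution), has diagonal 0 (`A` is irreflexive) and row sums 1; `cut (chi f) S` is the number of `u ∈ S` with `f u ∉ S`; if `S` is odd it
is at least 1 (`f` restricted to `{u ∈ S | f u ∈ S}` is an involution without fixed point, so this set has even cardinality:
`Finset.card_involution`-type lemmas, e.g. `Finset.sum_involution` in `ZMod 2`, `Equiv.Perm.two_dvd_card_support`). All the conditions of `FP` pass to convex combinations.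
-/

set_option autoImplicit false

namespace MTC

open Finset

variable {V : Type} [Fintype V] [DecidableEq V]

omit [Fintype V] [DecidableEq V] in
private lemma w1_even (f : V → V) (S : Finset V) (hi : ∀ v, f (f v) = v) (hn : ∀ v, f v ≠ v) (hS : ∀ u ∈ S, f u ∈ S) :
    Even S.card := by
  have h : ∑ x ∈ S, (1 : ZMod 2) = 0 := by
    refine Finset.sum_involution (fun a _ => f a) ?_ ?_ ?_ ?_
    · intro a _
      decide
    · intro a _ _
      exact hn a
    · intro a ha
      exact hS a ha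
    · intro a _
      exact hi a
  rw [Finset.sum_const, nsmul_eq_mul, mul_one] at h
  have h2 : 2 ∣ S.card := (ZMod.natCast_eq_zero_iff S.card 2).1 h
  exact even_iff_two_dvd.2 h2

private lemma w1_chi (A : V → V → Prop) (hA : ∀ a, ¬ A a a) (f : V → V) (hf : IsPM A f) : FP (chi f) := by
  obtain ⟨hi, ha⟩ := hf
  have hn : ∀ v, f v ≠ v := by
    intro v hv
    have := ha v
    rw [hv] at this
    exact hA v this
  refine ⟨?_, ?_, ?_, ?_, ?_⟩
  · intro u v
    unfold chi
    split_ifs <;> norm_num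
  · intro u v
    unfold chi
    have : (f u = v) ↔ (f v = u) := by
      constructor
      · intro h
        rw [← h, hi]
      · intro h
        rw [← h, hi]
    simp only [this]
  · intro u
    unfold chi
    rw [if_neg (hn u)]
  · intro u
    unfold chi
    simp
  · intro S hS
    have h0 : ∃ u ∈ S, f u ∉ S := by
      by_contra hcon
      push Not at hcon
      have he := w1_even f S hi hn hcon
      exact (Nat.not_even_iff_odd.2 hS) he
    obtain ⟨u, hu, hfu⟩ := h0
    unfold cut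
    have hnn : ∀ a b, 0 ≤ chi f a b := by
      intro a b
      unfold chi
      split_ifs <;> norm_num
    have h1 : (1 : ℝ) ≤ ∑ v ∈ Sᶜ, chi f u v := by
      have h2 : chi f u (f u) ≤ ∑ v ∈ Sᶜ, chi f u v :=
        Finset.single_le_sum (f := fun v => chi f u v) (fun v _ => hnn u v) (Finset.mem_compl.2 hfu)
      have h3 : chi f u (f u) = 1 := by
        unfold chi
        rw [if_pos rfl]
      linarith
    have h4 : ∑ v ∈ Sᶜ, chi f u v ≤ ∑ a ∈ S, ∑ v ∈ Sᶜ, chi f a v :=
      Finset.single_le_sum (f := fun a => ∑ v ∈ Sᶜ, chi f a v)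
        (fun a _ => Finset.sum_nonneg (fun v _ => hnn a v)) hu
    linarith

theorem avg_fp (A : V → V → Prop) (hA : ∀ a, ¬ A a a) (F : Finset (V → V)) (hF : F.Nonempty) (hM : ∀ f ∈ F, IsPM A f) :
    FP (fun u v => (F.card : ℝ)⁻¹ * ∑ f ∈ F, chi f u v) := by
  have hP : ∀ f ∈ F, FP (chi f) := fun f hf => w1_chi A hA f (hM f hf)
  have hc : (0 : ℝ) < F.card := by exact_mod_cast hF.card_pos
  have hci : (0 : ℝ) ≤ (F.card : ℝ)⁻¹ := by positivity
  refine ⟨?_, ?_, ?_, ?_, ?_⟩
  · intro u v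
    exact mul_nonneg hci (Finset.sum_nonneg fun f hf => (hP f hf).nonneg u v)
  · intro u v
    show (F.card : ℝ)⁻¹ * ∑ f ∈ F, chi f u v = (F.card : ℝ)⁻¹ * ∑ f ∈ F, chi f v u
    rw [Finset.sum_congr rfl fun f hf => (hP f hf).symm u v]
  · intro u
    show (F.card : ℝ)⁻¹ * ∑ f ∈ F, chi f u u = 0
    rw [Finset.sum_congr rfl fun f hf => (hP f hf).diag u]
    simp
  · intro u
    show ∑ v, (F.card : ℝ)⁻¹ * ∑ f ∈ F, chi f u v = 1
    rw [← Finset.mul_sum, Finset.sum_comm, Finset.sum_congr rfl fun f hf => (hP f hf).row u,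
      Finset.sum_const, nsmul_eq_mul, mul_one, inv_mul_cancel₀ hc.ne']
  · intro S hS
    have hcut : cut (fun u v => (F.card : ℝ)⁻¹ * ∑ f ∈ F, chi f u v) S = (F.card : ℝ)⁻¹ * ∑ f ∈ F, cut (chi f) S := by
      unfold cut
      simp_rw [← Finset.mul_sum]
      congr 1
      have h1 : ∀ u ∈ S, ∑ v ∈ Sᶜ, ∑ f ∈ F, chi f u v = ∑ f ∈ F, ∑ v ∈ Sᶜ, chi f u v :=
        fun u _ => Finset.sum_comm
      rw [Finset.sum_congr rfl h1, Finset.sum_comm]
    rw [hcut]
    have h2 : (F.card : ℝ) ≤ ∑ f ∈ F, cut (chi f) S := by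
      have h3 : ∑ f ∈ F, (1 : ℝ) ≤ ∑ f ∈ F, cut (chi f) S :=
        Finset.sum_le_sum fun f hf => (hP f hf).odd S hS
      rw [Finset.sum_const, nsmul_eq_mul, mul_one] at h3
      exact h3
    have h4 : (F.card : ℝ)⁻¹ * (F.card : ℝ) ≤ (F.card : ℝ)⁻¹ * ∑ f ∈ F, cut (chi f) S :=
      mul_le_mul_of_nonneg_left h2 hci
    rw [inv_mul_cancel₀ hc.ne'] at h4
    exact h4

end MTC
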