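import Pool.Agent.Lib.MP_0087d5_lcMT.E5
import Pool.Agent.Lib.MP_0087d5_lcMT.U3
import Pool.Agent.Lib.MP_0087d5_lcMT.W1

/-!
# Leaf W2 (medium): the structure of the perfect matchings of least weight

Proof. `F` = the finite set of the `f` with `IsMin A w f` (nonempty: `hM`, a minimum over a finite nonempty set), `x` = their average, `FP x` by `avg_fp`;
`x a b ≠ 0 ↔ HG A w a b`. `L` from `laminar_span`. Let `v` be as in the statement; `cut v T = 0` for all tight `T`. Suppose
`σ := ∑ a, ∑ b, w a b * v a b ≠ 0`; replacing `v` by `- v` we may assume `σ < 0`. For small `ε > 0` the matrix `y = x + ε v` satisfies `FP`: symmetric,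
diagonal 0 (`x a a = 0` so `v a a = 0`), row sums 1, nonnegative (finitely many pairs, `v a b ≠ 0 → x a b > 0`), `cut y S = 1` for tight `S`, `cut y S ≥ 1` for the other
odd `S` (finitely many, `cut x S > 1`). By `edmonds'` it is a convex combination of perfect matchings `g` of its support; the support of `y` is contained in that
of `x`, so `IsPM A g`, and `tw w g ≥ c`, the least value. So `∑ a, ∑ b, w a b * y a b = ∑ g, μ g * tw w g ≥ c`. But it is `c + ε σ < c` (the average `x` gives `c`).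
-/

set_option autoImplicit false

namespace MTC

open Finset

variable {V : Type} [Fintype V] [DecidableEq V]

private theorem W2_ev {r p q : ℝ} (h : r < p) : ∀ᶠ e in nhdsWithin (0 : ℝ) (Set.Ioi 0), r ≤ p + e * q := by
  have hc : Filter.Tendsto (fun e : ℝ => p + e * q) (nhdsWithin (0 : ℝ) (Set.Ioi 0)) (nhds (p + 0 * q)) := by
    have : Continuous (fun e : ℝ => p + e * q) := by fun_prop
    exact (this.tendsto 0).mono_left nhdsWithin_le_nhds
  have h2 : r < p + 0 * q := by simpa using h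
  exact (hc.eventually (lt_mem_nhds h2)).mono fun e he => he.le

private theorem W2_cut (x v : V → V → ℝ) (e : ℝ) (S : Finset V) :
    cut (fun a b => x a b + e * v a b) S = cut x S + e * cut v S := by
  unfold cut
  rw [mul_sum, ← sum_add_distrib]
  refine sum_congr rfl fun u _ => ?_
  rw [mul_sum, ← sum_add_distrib]

/-- the weight of a combination of matrices of matchings -/
private theorem W2_comb (w : V → V → ℕ) (F : Finset (V → V)) (μ : (V → V) → ℝ) :
    ∑ a, ∑ b, (w a b : ℝ) * (∑ f ∈ F, μ f * chi f a b) = ∑ f ∈ F, μ f * (tw w f : ℝ) := by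
  have h1 : ∀ a b, (w a b : ℝ) * (∑ f ∈ F, μ f * chi f a b) = ∑ f ∈ F, μ f * ((w a b : ℝ) * chi f a b) := by
    intro a b
    rw [mul_sum]
    exact sum_congr rfl fun f _ => by ring
  simp_rw [h1]
  have h2 : ∀ a, ∑ b, ∑ f ∈ F, μ f * ((w a b : ℝ) * chi f a b) = ∑ f ∈ F, μ f * (w a (f a) : ℝ) := by
    intro a
    rw [sum_comm]
    refine sum_congr rfl fun f _ => ?_
    rw [← mul_sum]
    congr 1
    rw [sum_eq_single (f a)]
    · simp [chi]
    · intro b _ hb
      have : ¬ f a = b := fun h => hb h.symm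
      simp [chi, this]
    · intro h
      exact absurd (mem_univ _) h
  simp_rw [h2]
  rw [sum_comm]
  refine sum_congr rfl fun f _ => ?_
  rw [← mul_sum]
  congr 1
  unfold tw
  push_cast
  rfl

private theorem W2_neg (A : V → V → Prop) (w : V → V → ℕ) (c : ℕ) (hc : ∀ f, IsPM A f → c ≤ tw w f)
    (x : V → V → ℝ) (hx : FP x) (hxc : ∑ a, ∑ b, (w a b : ℝ) * x a b = c) (hxA : ∀ a b, x a b ≠ 0 → A a b)
    (v : V → V → ℝ) (hs : ∀ a b, v a b = v b a) (hv : ∀ a b, v a b ≠ 0 → x a b ≠ 0) (hr : ∀ a, ∑ b, v a b = 0)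
    (hT : ∀ T, Tight x T → cut v T = 0) : ¬ ∑ a, ∑ b, (w a b : ℝ) * v a b < 0 := by
  classical
  intro hneg
  have e1 : ∀ᶠ e in nhdsWithin (0 : ℝ) (Set.Ioi 0), ∀ a b : V, 0 ≤ x a b + e * v a b := by
    rw [Filter.eventually_all]
    intro a
    rw [Filter.eventually_all]
    intro b
    by_cases h : v a b = 0
    · exact Filter.Eventually.of_forall fun e => by rw [h, mul_zero, add_zero]; exact hx.nonneg a b
    · exact W2_ev (lt_of_le_of_ne (hx.nonneg a b) (hv a b h).symm)
  have e2 : ∀ᶠ e in nhdsWithin (0 : ℝ) (Set.Ioi 0), ∀ S : Finset V, Odd S.card → 1 ≤ cut x S + e * cut v S := by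
    rw [Filter.eventually_all]
    intro S
    by_cases h : Odd S.card
    · by_cases h' : cut x S = 1
      · exact Filter.Eventually.of_forall fun e _ => by rw [hT S ⟨h, h'⟩, h', mul_zero, add_zero]
      · exact (W2_ev (q := cut v S) (lt_of_le_of_ne (hx.odd S h) (Ne.symm h'))).mono fun e he _ => he
    · exact Filter.Eventually.of_forall fun e h'' => absurd h'' h
  have e3 : ∀ᶠ e in nhdsWithin (0 : ℝ) (Set.Ioi 0), 0 < e := self_mem_nhdsWithin
  obtain ⟨e, ⟨he1, he2⟩, he3⟩ := ((e1.and e2).and e3).exists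
  have hy : FP (fun a b => x a b + e * v a b) := by
    refine ⟨he1, fun u u' => ?_, fun u => ?_, fun u => ?_, fun S hS => ?_⟩
    · change x u u' + e * v u u' = x u' u + e * v u' u
      rw [hx.symm u u', hs u u']
    · change x u u + e * v u u = 0
      have h1 : v u u = 0 := by
        by_contra h
        exact hv u u h (hx.diag u)
      rw [h1, hx.diag u, mul_zero, add_zero]
    · change ∑ b, (x u b + e * v u b) = 1
      rw [sum_add_distrib, ← mul_sum, hx.row u, hr u, mul_zero, add_zero]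
    · rw [W2_cut]
      exact he2 S hS
  obtain ⟨μ, hμ0, hμ1, hμ2, hμ3⟩ := edmonds' _ hy
  have hPM : ∀ f, μ f ≠ 0 → IsPM A f := by
    intro f hf
    obtain ⟨h1, h2⟩ := hμ1 f hf
    refine ⟨h1, fun u => hxA _ _ fun h => h2 u ?_⟩
    change x u (f u) + e * v u (f u) = 0
    have h3 : v u (f u) = 0 := by
      by_contra h'
      exact hv _ _ h' h
    rw [h, h3, mul_zero, add_zero]
  have hsum : ∑ a, ∑ b, (w a b : ℝ) * (x a b + e * v a b) = ∑ f, μ f * (tw w f : ℝ) := by
    rw [← W2_comb w univ μ]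
    refine sum_congr rfl fun a _ => sum_congr rfl fun b _ => ?_
    rw [← hμ3 a b]
  have hge : (c : ℝ) ≤ ∑ f, μ f * (tw w f : ℝ) := by
    calc (c : ℝ) = ∑ f, μ f * (c : ℝ) := by rw [← sum_mul, hμ2, one_mul]
      _ ≤ ∑ f, μ f * (tw w f : ℝ) := by
          refine sum_le_sum fun f _ => ?_
          by_cases hf : μ f = 0
          · rw [hf, zero_mul, zero_mul]
          · exact mul_le_mul_of_nonneg_left (by exact_mod_cast hc f (hPM f hf)) (hμ0 f)
  have hlin : ∑ a, ∑ b, (w a b : ℝ) * (x a b + e * v a b) = c + e * ∑ a, ∑ b, (w a b : ℝ) * v a b := by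
    rw [← hxc, mul_sum, ← sum_add_distrib]
    refine sum_congr rfl fun a _ => ?_
    rw [mul_sum, ← sum_add_distrib]
    exact sum_congr rfl fun b _ => by ring
  have : e * ∑ a, ∑ b, (w a b : ℝ) * v a b < 0 := mul_neg_of_pos_of_neg he3 hneg
  linarith

theorem key (A : V → V → Prop) (hA : ∀ a, ¬ A a a) (w : V → V → ℕ) (hw : ∀ a b, w a b = w b a) (hM : ∃ f, IsPM A f) :
    ∃ L : Finset (Finset V), Lam L ∧ ∀ v : V → V → ℝ, (∀ a b, v a b = v b a) → (∀ a b, v a b ≠ 0 → HG A w a b) →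
      (∀ a, ∑ b, v a b = 0) → (∀ S ∈ L, cut v S = 0) → ∑ a, ∑ b, (w a b : ℝ) * v a b = 0 := by
  classical
  obtain ⟨f0, hf0⟩ := hM
  obtain ⟨f1, hf1, hmin⟩ := Finset.exists_min_image (univ.filter fun f : V → V => IsPM A f) (tw w)
    ⟨f0, mem_filter.2 ⟨mem_univ _, hf0⟩⟩
  have hf1' : IsPM A f1 := (mem_filter.1 hf1).2
  have hmin' : ∀ g, IsPM A g → tw w f1 ≤ tw w g := fun g hg => hmin g (mem_filter.2 ⟨mem_univ _, hg⟩)
  set F : Finset (V → V) := univ.filter fun f : V → V => IsMin A w f with hF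
  have hFm : ∀ f, f ∈ F ↔ IsMin A w f := fun f => by rw [hF, mem_filter]; exact and_iff_right (mem_univ _)
  have hf1F : f1 ∈ F := (hFm f1).2 ⟨hf1', hmin'⟩
  have hFne : F.Nonempty := ⟨f1, hf1F⟩
  have htw : ∀ f ∈ F, tw w f = tw w f1 := fun f hf =>
    le_antisymm (((hFm f).1 hf).2 f1 hf1') (hmin' f ((hFm f).1 hf).1)
  have hcard : (0 : ℝ) < F.card := by exact_mod_cast hFne.card_pos
  have hx := avg_fp A hA F hFne (fun f hf => ((hFm f).1 hf).1)
  set x : V → V → ℝ := fun u v => (F.card : ℝ)⁻¹ * ∑ f ∈ F, chi f u v with hxdef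
  have hxc : ∑ a, ∑ b, (w a b : ℝ) * x a b = (tw w f1 : ℕ) := by
    have h1 : ∑ a, ∑ b, (w a b : ℝ) * x a b = ∑ f ∈ F, (F.card : ℝ)⁻¹ * (tw w f : ℝ) := by
      rw [← W2_comb w F (fun _ => (F.card : ℝ)⁻¹)]
      refine sum_congr rfl fun a _ => sum_congr rfl fun b _ => ?_
      rw [hxdef]
      change (w a b : ℝ) * ((F.card : ℝ)⁻¹ * ∑ f ∈ F, chi f a b) = _
      rw [mul_sum F (fun f => chi f a b)]
    rw [h1, sum_congr rfl (g := fun _ => (F.card : ℝ)⁻¹ * (tw w f1 : ℝ)) (fun f hf => by rw [htw f hf]), sum_const,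
      nsmul_eq_mul, ← mul_assoc, mul_inv_cancel₀ hcard.ne', one_mul]
  have hxHG : ∀ a b, x a b ≠ 0 → HG A w a b := by
    intro a b hab
    rw [hxdef] at hab
    have h1 : ∑ f ∈ F, chi f a b ≠ 0 := fun h => hab (by change (F.card : ℝ)⁻¹ * ∑ f ∈ F, chi f a b = 0; rw [h, mul_zero])
    obtain ⟨f, hf, hfab⟩ := Finset.exists_ne_zero_of_sum_ne_zero h1
    refine ⟨f, (hFm f).1 hf, ?_⟩
    by_contra h
    exact hfab (by simp [chi, h])
  have hHGx : ∀ a b, HG A w a b → x a b ≠ 0 := by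
    rintro a b ⟨f, hf, hfab⟩
    have h1 : (1 : ℝ) ≤ ∑ f ∈ F, chi f a b := by
      calc (1 : ℝ) = chi f a b := by simp [chi, hfab]
        _ ≤ ∑ f ∈ F, chi f a b := single_le_sum (f := fun f => chi f a b)
            (fun g _ => by change 0 ≤ chi g a b; unfold chi; split_ifs <;> norm_num) ((hFm f).2 hf)
    have h2 : 0 < x a b := by
      rw [hxdef]
      change 0 < (F.card : ℝ)⁻¹ * ∑ f ∈ F, chi f a b
      have := inv_pos.2 hcard
      positivity
    exact h2.ne'
  obtain ⟨L, -, hLam, hspan⟩ := laminar_span x hx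
  refine ⟨L, hLam, fun v hs hv hr hcut => ?_⟩
  have hxA : ∀ a b, x a b ≠ 0 → A a b := by
    intro a b hab
    obtain ⟨f, hf, hfab⟩ := hxHG a b hab
    rw [← hfab]
    exact hf.1.2 a
  have hvx : ∀ a b, v a b ≠ 0 → x a b ≠ 0 := fun a b h => hHGx a b (hv a b h)
  have hTv := hspan v hs hvx hcut
  have h1 := W2_neg A w (tw w f1) hmin' x hx hxc hxA v hs hvx hr hTv
  have h2 := W2_neg A w (tw w f1) hmin' x hx hxc hxA (fun a b => - v a b) (fun a b => by rw [hs a b])
    (fun a b h => hvx a b (fun h' => h (by rw [h', neg_zero]))) (fun a => by rw [sum_neg_distrib, hr a, neg_zero])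
    (fun T hT => by
      have := hTv T hT
      unfold cut at this ⊢
      simp only [sum_neg_distrib]
      rw [this, neg_zero])
  have h3 : ∑ a, ∑ b, (w a b : ℝ) * (- v a b) = - ∑ a, ∑ b, (w a b : ℝ) * v a b := by
    rw [← sum_neg_distrib]
    refine sum_congr rfl fun a _ => ?_
    rw [← sum_neg_distrib]
    exact sum_congr rfl fun b _ => by ring
  rw [h3] at h2
  linarith [not_lt.1 h1, not_lt.1 h2]

end MTC
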