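import Pool.Agent.Lib.MP_0087d5_lcMT.ADefs
import Pool.Agent.Lib.MP_0087d5_lcMT.I1
import Pool.Agent.Lib.MP_0087d5_lcMT.P6
import Pool.Agent.Lib.MP_0087d5_lcMT.R1

/-!
# Leaf X2 (medium+): few graphs have only bad points for a given family

Proof. `B` = the set of the `r` with `BadR F r`, `card B ≤ n ^ 3 * q ^ (n - 1)` by `isolation`; `Bad : Finset (Fin (5 * n) → ZMod q)` = the set in `bad_seq` for `B`,
`card Bad ≤ q ^ (3 * n) * (2 * n ^ 3) ^ (2 * n) < h ^ (5 * n)`. To a graph `G` assign its coefficient vector `c_G : Fin (n ^ 2) → ZMod q`, `c_G i = 1` if `i = eid u v` for some `u < v` with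
`G.Adj u v`, otherwise 0. `eid` is injective on the pairs with `u < v` (`eid u v = nv (u, v)`, `nv_injective`), so `G ↦ c_G` is injective and
`∑ i, c_G i * z ^ i = fG q G z`. If `G` is in the set, then for all `y` the sequence `s = fun j : Fin (5 * n) => fG q G (g ^ j * y)` is in `Bad`: for `t ≤ 2 * n` and `u < n`
`wk n (ext s) t u = rG q G g y t u`, because all the indices `u`, `n + 2 * i`, `n + 2 * i + 1` (`i < t`) are below `5 * n`. So `c_G` is in the set of `condenser` (file R1, with `m = 5 * n`, `d = n ^ 2`; the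
powers of `g` are all the nonzero elements because `orderOf g = q - 1`), which has less than `q ^ (5 * n)` elements.
-/

set_option autoImplicit false

namespace MTC

open Finset Pool.Agent.PMNC

private theorem X2_eid {n : ℕ} {u v u' v' : Fin n} (h : u < v) (h' : u' < v') (he : eid u v = eid u' v') :
    u = u' ∧ v = v' := by
  unfold eid at he
  rw [if_pos h, if_pos h'] at he
  have h1 := nv_injective (S := fun n => Fin n × Fin n) he
  exact Prod.mk.inj h1

open Classical in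
/-- the coefficient vector of a graph -/
private noncomputable def X2_c (q : ℕ) {n : ℕ} (G : SimpleGraph (Fin n)) : Fin (n ^ 2) → ZMod q := fun i =>
  if ∃ u v : Fin n, (u < v ∧ G.Adj u v) ∧ eid u v = (i : ℕ) then 1 else 0

private theorem X2_sum {n q : ℕ} (G : SimpleGraph (Fin n)) (z : ZMod q) :
    ∑ i : Fin (n ^ 2), X2_c q G i * z ^ (i : ℕ) = fG q G z := by
  classical
  have h1 : fG q G z = ∑ p ∈ univ.filter (fun p : Fin n × Fin n => p.1 < p.2 ∧ G.Adj p.1 p.2),
      z ^ eid p.1 p.2 := by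
    unfold fG
    rw [Finset.sum_filter, Fintype.sum_prod_type]
  have h2 : ∑ i : Fin (n ^ 2), X2_c q G i * z ^ (i : ℕ) =
      ∑ i ∈ univ.filter (fun i : Fin (n ^ 2) => ∃ u v : Fin n, (u < v ∧ G.Adj u v) ∧ eid u v = (i : ℕ)),
        z ^ (i : ℕ) := by
    rw [Finset.sum_filter]
    refine Finset.sum_congr rfl fun i _ => ?_
    unfold X2_c
    by_cases h : ∃ u v : Fin n, (u < v ∧ G.Adj u v) ∧ eid u v = (i : ℕ)
    · rw [if_pos h, if_pos h, one_mul]
    · rw [if_neg h, if_neg h, zero_mul]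
  rw [h1, h2]
  symm
  refine Finset.sum_bij (fun p _ => (⟨eid p.1 p.2, eid_lt p.1 p.2⟩ : Fin (n ^ 2))) ?_ ?_ ?_ ?_
  · intro p hp
    rw [Finset.mem_filter] at hp ⊢
    exact ⟨Finset.mem_univ _, p.1, p.2, hp.2, rfl⟩
  · intro p hp p' hp' h
    rw [Finset.mem_filter] at hp hp'
    obtain ⟨e1, e2⟩ := X2_eid hp.2.1 hp'.2.1 (congrArg Fin.val h)
    exact Prod.ext e1 e2
  · intro i hi
    rw [Finset.mem_filter] at hi
    obtain ⟨-, u, v, h, he⟩ := hi
    exact ⟨(u, v), Finset.mem_filter.2 ⟨Finset.mem_univ _, h⟩, Fin.ext he⟩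
  · intro p _
    rfl

private theorem X2_inj {n q : ℕ} [Fact q.Prime] : Function.Injective (X2_c q (n := n)) := by
  intro G G' h
  have h1 : ∀ (G : SimpleGraph (Fin n)) (u v : Fin n), u < v →
      (G.Adj u v ↔ X2_c q G ⟨eid u v, eid_lt u v⟩ = 1) := by
    intro G u v huv
    unfold X2_c
    constructor
    · intro ha
      rw [if_pos ⟨u, v, ⟨huv, ha⟩, rfl⟩]
    · intro h0
      by_cases hh : ∃ u' v' : Fin n, (u' < v' ∧ G.Adj u' v') ∧
          eid u' v' = ((⟨eid u v, eid_lt u v⟩ : Fin (n ^ 2)) : ℕ)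
      · obtain ⟨u', v', ⟨a1, a2⟩, a3⟩ := hh
        obtain ⟨rfl, rfl⟩ := X2_eid a1 huv a3
        exact a2
      · rw [if_neg hh] at h0
        exact absurd h0 zero_ne_one
  ext u v
  rcases lt_trichotomy u v with huv | rfl | huv
  · rw [h1 G u v huv, h1 G' u v huv, h]
  · simp
  · rw [G.adj_comm, G'.adj_comm, h1 G v u huv, h1 G' v u huv, h]

private theorem X2_pow {q : ℕ} [Fact q.Prime] {g : ZMod q} (ho : orderOf g = q - 1) :
    g ≠ 0 ∧ ∀ x : ZMod q, x ≠ 0 → ∃ i : ℕ, x = g ^ i := by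
  have hq : 2 ≤ q := (Fact.out : q.Prime).two_le
  have hg0 : g ≠ 0 := by
    intro h
    have h1 : orderOf g ≠ 0 := by omega
    have h2 := pow_orderOf_eq_one g
    rw [h, zero_pow (by rw [h] at h1; exact h1)] at h2
    exact zero_ne_one h2
  refine ⟨hg0, fun x hx => ?_⟩
  have h1 : orderOf (Units.mk0 g hg0) = q - 1 := by
    rw [← orderOf_units, Units.val_mk0, ho]
  have h2 : Subgroup.zpowers (Units.mk0 g hg0) = ⊤ := by
    apply Subgroup.eq_top_of_card_eq
    rw [Nat.card_zpowers, h1, Nat.card_eq_fintype_card, ZMod.card_units]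
  have h3 : Units.mk0 x hx ∈ Subgroup.zpowers (Units.mk0 g hg0) := by
    rw [h2]
    exact Subgroup.mem_top _
  rw [← mem_powers_iff_mem_zpowers] at h3
  obtain ⟨i, hi⟩ := h3
  refine ⟨i, ?_⟩
  have h4 := congrArg Units.val hi
  simpa using h4.symm

private theorem X2_wk {n q : ℕ} (f : ℕ → ZMod q) {t : ℕ} (ht : t ≤ 2 * n) (u : Fin n) :
    wk n (ext (fun j : Fin (5 * n) => f (j : ℕ))) t (u : ℕ) = wk n f t (u : ℕ) := by
  have h1 : ∀ j, j < 5 * n → ext (fun j : Fin (5 * n) => f (j : ℕ)) j = f j := by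
    intro j hj
    unfold ext
    rw [dif_pos hj]
  have hu := u.2
  unfold wk
  rw [h1 _ (by omega)]
  congr 1
  refine Finset.sum_congr rfl fun i hi => ?_
  rw [Finset.mem_range] at hi
  rw [h1 _ (by omega), h1 _ (by omega)]

open Classical in
theorem card_exc {n q h : ℕ} [Fact q.Prime] (hn : 2 ≤ n) (g : ZMod q) (ho : orderOf g = q - 1) (hh : h ≤ q)
    (hd : (h - 1) * (5 * n) * (n ^ 2 - 1) < q) (h2 : n ^ 2 ≤ q - 1) (h3 : q ^ (3 * n) * (2 * n ^ 3) ^ (2 * n) < h ^ (5 * n))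
    (F : Set (Fin n → Fin n)) :
    (univ.filter fun G : SimpleGraph (Fin n) => ∀ y : ZMod q, ∀ t ≤ 2 * n, BadR F (rG q G g y t)).card < q ^ (5 * n) := by
  have hB : (univ.filter fun r : Fin n → ZMod q => BadR F r).card ≤ n ^ 3 * q ^ (n - 1) := by
    have h4 := isolation (q := q) F
    rwa [Nat.card_eq_fintype_card, Fintype.card_subtype] at h4
  obtain ⟨hg0, hgp⟩ := X2_pow ho
  have h5 := bad_seq (by omega : 1 ≤ n) (univ.filter fun r : Fin n → ZMod q => BadR F r) hB
  have h6 := condenser g hgp hg0 (5 * n) (n ^ 2) h (by rw [ZMod.card]; exact hh)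
    (univ.filter fun s : Fin (5 * n) → ZMod q => ∀ t ≤ 2 * n, (fun u : Fin n => wk n (ext s) t (u : ℕ)) ∈
      (univ.filter fun r : Fin n → ZMod q => BadR F r))
    (lt_of_le_of_lt h5 h3) (by rw [ZMod.card]; exact hd) (by rw [ZMod.card]; exact h2)
  rw [ZMod.card] at h6
  refine lt_of_le_of_lt ?_ h6
  rw [← Finset.card_image_of_injective _ (X2_inj (n := n) (q := q))]
  refine Finset.card_le_card fun c hc => ?_
  obtain ⟨G, hG, rfl⟩ := Finset.mem_image.1 hc
  rw [Finset.mem_filter] at hG ⊢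
  refine ⟨Finset.mem_univ _, fun y => ?_⟩
  rw [Finset.mem_filter]
  refine ⟨Finset.mem_univ _, fun t ht => ?_⟩
  rw [Finset.mem_filter]
  refine ⟨Finset.mem_univ _, ?_⟩
  have h7 : (fun j : Fin (5 * n) => ∑ i : Fin (n ^ 2), X2_c q G i * (g ^ (j : ℕ) * y) ^ (i : ℕ)) =
      fun j : Fin (5 * n) => (fun j : ℕ => fG q G (g ^ j * y)) (j : ℕ) := by
    funext j
    exact X2_sum G _
  rw [h7]
  have h8 : (fun u : Fin n => wk n (ext fun j : Fin (5 * n) => (fun j : ℕ => fG q G (g ^ j * y)) (j : ℕ)) t (u : ℕ)) =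
      rG q G g y t := by
    funext u
    exact X2_wk (fun j : ℕ => fG q G (g ^ j * y)) ht u
  rw [h8]
  exact hG.2 y t ht

end MTC
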