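import Pool.Agent.Lib.MP_0087d5_lcMT.D3
import Pool.Agent.Lib.MP_0087d5_lcMT.X1
import Pool.Agent.Lib.MP_0087d5_lcMT.X2
import Pool.Agent.Lib.MP_0087d5_lcMT.I2
import Pool.Agent.Lib.MP_0087d5_lcMT.N1
import Pool.Agent.Lib.MP_0087d5_lcMT.N2
import Pool.Agent.Lib.MP_0087d5_lcMT.N3
import Pool.Agent.Lib.MP_0087d5_lcMT.S5
import Pool.Agent.Lib.MP_0087d5_lcMT.S6
import Pool.Agent.Lib.MP_0087d5_lc.PM

/-!
# The number of the sources which do not serve all graphs
-/

set_option autoImplicit false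

namespace MTC

open Finset Pool.Agent Pool.Agent.PMNC

/-- some parameters bounded by `n ^ C` isolate a perfect matching of `G`, with the source `A` -/
def OKp (C : ℕ) {n : ℕ} (G A : SimpleGraph (Fin n)) : Prop :=
  ∃ (m K q t : ℕ) (g y : ZMod q), q.Prime ∧ m ≤ n ^ C ∧ K ≤ n ^ C ∧ q ≤ n ^ C ∧ t ≤ 2 * n ∧ Iso G (WT m K q A g y t)

open Classical in
theorem exc_bound2 (n k d C : ℕ) (hn : 2 ≤ n) (hk : 1 ≤ k) (hd : n < d ^ k)
    (hC1 : 64 * (n ^ 2 * (2 * n ^ 2 + 1) ^ (2 * k) + 1) ^ 2 ≤ n ^ C) (hC2 : 2 * n ^ 2 * (400 * n ^ 11) + 1 ≤ n ^ C) :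
    (univ.filter fun A : SimpleGraph (Fin n) => ∃ G : SimpleGraph (Fin n), (∃ f, IsPM G.Adj f) ∧ ¬ OKp C G A).card ≤
      (n ^ 2 + 1) ^ (2 * d * n * Nat.log 2 (n ^ 2)) * (400 * n ^ 11) ^ (5 * n) := by
  obtain ⟨m, hm2, hm, hD⟩ := exists_diss n k hn
  obtain ⟨q, h, hq, hq4, hh, hd5, h2, h3⟩ := params hn
  haveI : Fact q.Prime := ⟨hq⟩
  obtain ⟨g, hg⟩ := exists_gen q
  set M := 2 * d * n * Nat.log 2 (n ^ 2) with hM
  have key : (univ.filter fun A : SimpleGraph (Fin n) => ∃ G : SimpleGraph (Fin n), (∃ f, IsPM G.Adj f) ∧ ¬ OKp C G A) ⊆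
      (univ.filter fun R : Fin n → Fin n → Prop => (univ.filter fun q : Fin n × Fin n => R q.1 q.2).card ≤ M).biUnion
        fun R => univ.filter fun A : SimpleGraph (Fin n) =>
          ∀ y : ZMod q, ∀ t ≤ 2 * n, BadR {f | IsMin R (fun u v : Fin n => wE m u v) f} (rG q A g y t) := by
    intro A hA
    rw [mem_filter] at hA
    obtain ⟨-, G, hG, hP⟩ := hA
    rw [mem_biUnion]
    refine ⟨HG G.Adj (fun u v : Fin n => wE m u v), ?_, ?_⟩
    · rw [mem_filter]
      refine ⟨mem_univ _, ?_⟩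
      have := sparse G.Adj (fun a => G.irrefl) (fun u v : Fin n => wE m u v) (fun a b => wE_comm m a b) hG k d hk hD
        (by rw [Fintype.card_fin]; exact hd)
      rw [Fintype.card_fin] at this
      exact this
    · rw [mem_filter]
      refine ⟨mem_univ _, fun y t ht => ?_⟩
      by_contra hb
      have hF : {f | IsMin (HG G.Adj (fun u v : Fin n => wE m u v)) (fun u v : Fin n => wE m u v) f} =
          {f | IsMin G.Adj (fun u v : Fin n => wE m u v) f} := by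
        ext f
        exact isMin_HG G.Adj (fun u v : Fin n => wE m u v) f hG
      rw [hF] at hb
      have := iso_of_good G.Adj (fun u v : Fin n => wE m u v) (2 * n ^ 2 * q + 1) (by omega) (rG q A g y t) hG hb
      apply hP
      refine ⟨m, 2 * n ^ 2 * q + 1, q, t, g, y, hq, hm.trans hC1, ?_, ?_, ht, this⟩
      · refine le_trans ?_ hC2
        have : 2 * n ^ 2 * q ≤ 2 * n ^ 2 * (400 * n ^ 11) := Nat.mul_le_mul_left _ hq4
        omega
      · refine le_trans ?_ hC2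
        have h1 : 400 * n ^ 11 ≤ 2 * n ^ 2 * (400 * n ^ 11) := Nat.le_mul_of_pos_left _ (by positivity)
        omega
  refine (card_le_card key).trans (card_biUnion_le.trans ?_)
  refine (sum_le_card_nsmul _ _ (q ^ (5 * n)) fun R _ => ?_).trans ?_
  · exact (card_exc hn g hg hh hd5 h2 h3 _).le
  · rw [smul_eq_mul]
    exact Nat.mul_le_mul (card_rel n M) (Nat.pow_le_pow_left hq4 _)

/-- all but few sources serve all graphs -/
theorem universal (ε : ℝ) (hε : 0 < ε) : ∃ C n₀ : ℕ, 2 ≤ n₀ ∧ ∀ n : ℕ, n₀ ≤ n →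
    (Nat.card {A : SimpleGraph (Fin n) // ∃ G : SimpleGraph (Fin n), HasPM G ∧ ¬ OKp C G A} : ℝ) ≤ (2 : ℝ) ^ ((n : ℝ) ^ (1 + ε)) := by
  classical
  obtain ⟨k, hk, n₀, h⟩ := asymp ε hε
  obtain ⟨C, hC⟩ := sizes k
  refine ⟨C, max n₀ 2, le_max_right _ _, fun n hn => ?_⟩
  have hn2 : 2 ≤ n := (le_max_right _ _).trans hn
  obtain ⟨d, hd, hb⟩ := h n ((le_max_left _ _).trans hn)
  have h1 := exc_bound2 n k d C hn2 hk hd (hC n hn2).1 (hC n hn2).2
  refine le_trans ?_ hb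
  rw [Nat.cast_le]
  refine le_trans (le_of_eq ?_) h1
  rw [Nat.card_eq_fintype_card, Fintype.card_subtype]
  congr 1
  ext A
  rw [mem_filter, mem_filter]
  refine and_congr_right fun _ => exists_congr fun G => and_congr_left fun _ => ?_
  rw [hasPM_iff]
  exact Iff.rfl

end MTC
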