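import Pool.Agent.Lib.MP_0087d5_lc.PM

/-!
# Pairs of graphs as graphs on `n + n` vertices (leaf Y2, medium, three theorems)

Proof. In `Fin (n + n)`: `lo u ↔ u < n`, and `finSumFinEquiv (Sum.inl a) = Fin.castAdd n a` (values `< n`), `finSumFinEquiv (Sum.inr a) = Fin.natAdd n a` (values `≥ n`). So
`(pair G A).Adj (castAdd a) (castAdd b) ↔ G.Adj a b`, `(pair G A).Adj (natAdd a) (natAdd b) ↔ A.Adj a b` (`SimpleGraph.Sum.adj_inl`-type lemmas or `Iff.rfl` after `simp`), mixed pairs are not adjacent.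
`hasPM_TP`: use `hasPM_iff` (`HasPM G ↔ ∃ f, (∀ v, f (f v) = v) ∧ ∀ v, G.Adj v (f v)`). From `f` on `Fin (n + n)`: a vertex of the first half is matched inside the first half; this gives `f'` on `Fin n`. Conversely from `f` for `G`
take `f` itself on both halves (for `a` in the second half `f a ≠ a`, so the pair is an edge of the complete graph there).
`SP_congr`: the edges inside the second half are those of `A`. `SP_inj`: restrict to the second half.
-/

set_option autoImplicit false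

namespace MTC

open Pool.Agent Pool.Agent.PMNC

/-- the pair of the graphs `G` and `A` as a graph on `n + n` vertices -/
def pair {n : ℕ} (G A : SimpleGraph (Fin n)) : SimpleGraph (Fin (n + n)) :=
  (G ⊕g A).comap finSumFinEquiv.symm

/-- the vertex is in the first half -/
def lo {N : ℕ} (u : Fin N) : Prop := 2 * (u : ℕ) + 1 < N

/-- the tested graph: the edges inside the first half, and all the edges inside the second half -/
def TP (N : ℕ) (G : SimpleGraph (Fin N)) : SimpleGraph (Fin N) where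
  Adj u v := u ≠ v ∧ ((lo u ∧ lo v ∧ G.Adj u v) ∨ (¬ lo u ∧ ¬ lo v))
  symm := ⟨fun _ _ h => ⟨h.1.symm, h.2.imp (fun h => ⟨h.2.1, h.1, h.2.2.symm⟩) fun h => ⟨h.2, h.1⟩⟩⟩
  loopless := ⟨fun _ h => h.1 rfl⟩

/-- the source: the edges inside the second half -/
def SP (N : ℕ) (G : SimpleGraph (Fin N)) : SimpleGraph (Fin N) where
  Adj u v := ¬ lo u ∧ ¬ lo v ∧ G.Adj u v
  symm := ⟨fun _ _ h => ⟨h.2.1, h.1, h.2.2.symm⟩⟩
  loopless := ⟨fun _ h => G.irrefl h.2.2⟩

private lemma Y2_lo {n : ℕ} (a : Fin n) : lo (Fin.castAdd n a : Fin (n + n)) := by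
  have := a.2
  simp only [lo, Fin.val_castAdd]
  omega

private lemma Y2_hi {n : ℕ} (a : Fin n) : ¬ lo (Fin.natAdd n a : Fin (n + n)) := by
  simp only [lo, Fin.val_natAdd]
  omega

private lemma Y2_ll {n : ℕ} (G A : SimpleGraph (Fin n)) (a b : Fin n) :
    (pair G A).Adj (Fin.castAdd n a) (Fin.castAdd n b) ↔ G.Adj a b := by
  change (G ⊕g A).Adj (finSumFinEquiv.symm (Fin.castAdd n a)) (finSumFinEquiv.symm (Fin.castAdd n b)) ↔ _
  rw [finSumFinEquiv_symm_apply_castAdd, finSumFinEquiv_symm_apply_castAdd]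
  rfl

private lemma Y2_rr {n : ℕ} (G A : SimpleGraph (Fin n)) (a b : Fin n) :
    (pair G A).Adj (Fin.natAdd n a) (Fin.natAdd n b) ↔ A.Adj a b := by
  change (G ⊕g A).Adj (finSumFinEquiv.symm (Fin.natAdd n a)) (finSumFinEquiv.symm (Fin.natAdd n b)) ↔ _
  rw [finSumFinEquiv_symm_apply_natAdd, finSumFinEquiv_symm_apply_natAdd]
  rfl

/-- the tested graph has a perfect matching if and only if the first graph of the pair has one -/
theorem hasPM_TP {n : ℕ} (G A : SimpleGraph (Fin n)) : HasPM (TP (n + n) (pair G A)) ↔ HasPM G := by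
  rw [hasPM_iff, hasPM_iff]
  constructor
  · rintro ⟨f, hf, hadj⟩
    have h : ∀ a : Fin n, ∃ b : Fin n, f (Fin.castAdd n a) = Fin.castAdd n b ∧ G.Adj a b := by
      intro a
      have h1 := hadj (Fin.castAdd n a)
      revert h1
      generalize f (Fin.castAdd n a) = w
      refine Fin.addCases (fun b => ?_) (fun b => ?_) w
      · rintro ⟨-, h2 | h2⟩
        · exact ⟨b, rfl, (Y2_ll G A a b).1 h2.2.2⟩
        · exact absurd (Y2_lo a) h2.1
      · rintro ⟨-, h2 | h2⟩
        · exact absurd h2.2.1 (Y2_hi b)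
        · exact absurd (Y2_lo a) h2.1
    choose g hg hgG using h
    refine ⟨g, fun a => ?_, hgG⟩
    have h1 : (Fin.castAdd n (g (g a)) : Fin (n + n)) = Fin.castAdd n a := by
      rw [← hg, ← hg, hf]
    exact Fin.castAdd_injective n n h1
  · rintro ⟨f, hf, hadj⟩
    obtain ⟨g, hgl, hgr⟩ : ∃ g : Fin (n + n) → Fin (n + n), (∀ a, g (Fin.castAdd n a) = Fin.castAdd n (f a)) ∧
        ∀ a, g (Fin.natAdd n a) = Fin.natAdd n (f a) :=
      ⟨fun v => Fin.addCases (fun a => Fin.castAdd n (f a)) (fun a => Fin.natAdd n (f a)) v,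
        fun a => Fin.addCases_left _, fun a => Fin.addCases_right _⟩
    refine ⟨g, ?_, ?_⟩
    · intro v
      refine Fin.addCases (fun a => ?_) (fun a => ?_) v
      · rw [hgl, hgl, hf]
      · rw [hgr, hgr, hf]
    · intro v
      refine Fin.addCases (fun a => ?_) (fun a => ?_) v
      · rw [hgl]
        refine ⟨fun h => (hadj a).ne (Fin.castAdd_injective n n h), Or.inl ⟨Y2_lo _, Y2_lo _, (Y2_ll G A _ _).2 (hadj a)⟩⟩
      · rw [hgr]
        refine ⟨fun h => (hadj a).ne (Fin.natAdd_injective n n h), Or.inr ⟨Y2_hi _, Y2_hi _⟩⟩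

/-- the source of a pair depends only on the second graph -/
theorem SP_congr {n : ℕ} (G G' A : SimpleGraph (Fin n)) : SP (n + n) (pair G A) = SP (n + n) (pair G' A) := by
  ext u v
  refine Fin.addCases (fun a => ?_) (fun a => ?_) u
  · exact ⟨fun h => absurd (Y2_lo a) h.1, fun h => absurd (Y2_lo a) h.1⟩
  · refine Fin.addCases (fun b => ?_) (fun b => ?_) v
    · exact ⟨fun h => absurd (Y2_lo b) h.2.1, fun h => absurd (Y2_lo b) h.2.1⟩
    · exact ⟨fun h => ⟨h.1, h.2.1, (Y2_rr G' A a b).2 ((Y2_rr G A a b).1 h.2.2)⟩,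
        fun h => ⟨h.1, h.2.1, (Y2_rr G A a b).2 ((Y2_rr G' A a b).1 h.2.2)⟩⟩

/-- and determines it -/
theorem SP_inj {n : ℕ} (G A A' : SimpleGraph (Fin n)) (h : SP (n + n) (pair G A) = SP (n + n) (pair G A')) : A = A' := by
  ext a b
  have h1 : ∀ B : SimpleGraph (Fin n), (SP (n + n) (pair G B)).Adj (Fin.natAdd n a) (Fin.natAdd n b) ↔ B.Adj a b :=
    fun B => ⟨fun h => (Y2_rr G B a b).1 h.2.2, fun h => ⟨Y2_hi a, Y2_hi b, (Y2_rr G B a b).2 h⟩⟩
  rw [← h1 A, ← h1 A', h]

end MTC
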