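import Pool.Agent.Lib.MP_0087d5_lcMT.Y2
import Pool.Agent.Lib.MP_0087d5_lc.WNum

/-!
# The tested graph and the source of a pair are definable
-/

set_option autoImplicit false
set_option linter.all false

namespace MTC

open Pool.Agent Pool.Agent.PMNC

theorem lo_iff {N : ℕ} (u : Fin N) : lo u ↔ ∃ v w : Fin N, nv (S := fun n => Fin n) u + nv (S := fun n => Fin n) u =
    nv (S := fun n => Fin n) v ∧ v < w := by
  simp only [nv_fin]
  unfold lo
  constructor
  · intro h
    exact ⟨⟨2 * (u : ℕ), by omega⟩, ⟨2 * (u : ℕ) + 1, h⟩, by simp only; omega, by rw [Fin.lt_def]; simp only; omega⟩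
  · rintro ⟨v, w, h1, h2⟩
    rw [Fin.lt_def] at h2
    have := w.2
    omega

theorem def_lo {E : ℕ → Type} [Env E] {f : ∀ n : ℕ, E n → Fin n} (hf : Tm (F := fun n => Fin n) f) :
    DefP (fun n G X x => lo (f n x)) := by
  have key : DefP (E := fun n => Fin n) (fun n G X u => lo u) := by
    refine DefP.congr (P := fun n G X u => ∃ v : Fin n, ∃ w : Fin n, nv (S := fun n => Fin n) u + nv (S := fun n => Fin n) u =
      nv (S := fun n => Fin n) v ∧ v < w) ?_ (fun n G X u => (lo_iff u).symm)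
    refine DefP.ex (F := fun n => Fin n) (DefP.ex (F := fun n => Fin n) (DefP.and ?_ ?_))
    · refine DefP.nAdd (F := fun n => Fin n) (H := fun n => Fin n) (K := fun n => Fin n) ?_ ?_ ?_
      · exact Tm.fst (Tm.fst Tm.id)
      · exact Tm.fst (Tm.fst Tm.id)
      · exact Tm.snd (Tm.fst Tm.id)
    · exact DefP.lt (Tm.snd (Tm.fst Tm.id)) (Tm.snd Tm.id)
  exact DefP.comp (F := fun n => Fin n) key hf

theorem def_TP : DefP (E := fun n => Fin n × Fin n) (fun n G X y => (TP n G).Adj y.1 y.2) := by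
  have h1 : Tm (E := fun n => Fin n × Fin n) (F := fun n => Fin n) (fun n y => y.1) := Tm.fst Tm.id
  have h2 : Tm (E := fun n => Fin n × Fin n) (F := fun n => Fin n) (fun n y => y.2) := Tm.snd Tm.id
  refine DefP.congr (P := fun n G X y => ¬ y.1 = y.2 ∧ ((lo y.1 ∧ lo y.2 ∧ G.Adj y.1 y.2) ∨ (¬ lo y.1 ∧ ¬ lo y.2))) ?_
    (fun n G X y => Iff.rfl)
  exact DefP.and (DefP.not (DefP.eqFin h1 h2)) (DefP.or (DefP.and (def_lo h1) (DefP.and (def_lo h2) (DefP.adj h1 h2)))
    (DefP.and (DefP.not (def_lo h1)) (DefP.not (def_lo h2))))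

theorem def_SP : DefP (E := fun n => Fin n × Fin n) (fun n G X y => (SP n G).Adj y.1 y.2) := by
  have h1 : Tm (E := fun n => Fin n × Fin n) (F := fun n => Fin n) (fun n y => y.1) := Tm.fst Tm.id
  have h2 : Tm (E := fun n => Fin n × Fin n) (F := fun n => Fin n) (fun n y => y.2) := Tm.snd Tm.id
  refine DefP.congr (P := fun n G X y => ¬ lo y.1 ∧ ¬ lo y.2 ∧ G.Adj y.1 y.2) ?_ (fun n G X y => Iff.rfl)
  exact DefP.and (DefP.not (def_lo h1)) (DefP.and (DefP.not (def_lo h2)) (DefP.adj h1 h2))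

end MTC
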